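import Mathlib

set_option autoImplicit false

namespace Pool.Agent.H55.K4

variable {V : Type*}

/-- `A` is connected for the relation `r`, in cut form. -/
def Cn (r : V → V → Prop) (A : Set V) : Prop :=
  ∀ B ⊆ A, B.Nonempty → (A \ B).Nonempty → ∃ p ∈ B, ∃ q ∈ A \ B, r p q

theorem Cn.mono' {r r' : V → V → Prop} {A : Set V} (h : Cn r A)
    (hrr : ∀ p ∈ A, ∀ q ∈ A, r p q → r' p q) : Cn r' A := by
  intro B hB h1 h2
  obtain ⟨p, hp, q, hq, hpq⟩ := h B hB h1 h2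
  exact ⟨p, hp, q, hq, hrr p (hB hp) q hq.1 hpq⟩

theorem Cn.mono {r r' : V → V → Prop} {A : Set V} (h : Cn r A)
    (hrr : ∀ p q, r p q → r' p q) : Cn r' A :=
  h.mono' fun p _ q _ => hrr p q

theorem Cn_singleton (r : V → V → Prop) (a : V) : Cn r {a} := by
  intro B hB h1 h2
  obtain ⟨b, hb⟩ := h1
  obtain ⟨c, hc, hcB⟩ := h2
  have : b = a := hB hb
  have h' : c = a := hc
  subst this; subst h'
  exact absurd hb hcB

theorem Cn_empty (r : V → V → Prop) : Cn r (∅ : Set V) := by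
  intro B hB h1 h2
  obtain ⟨b, hb⟩ := h1
  exact absurd (hB hb) (by simp)

theorem Cn.union_edge {r : V → V → Prop} (hr : ∀ a b, r a b → r b a) {A B : Set V}
    (hA : Cn r A) (hB : Cn r B) {p q : V} (hp : p ∈ A) (hq : q ∈ B) (hpq : r p q) :
    Cn r (A ∪ B) := by
  intro T hT h1 h2
  by_cases hA1 : (A ∩ T).Nonempty
  · by_cases hA2 : (A \ T).Nonempty
    · obtain ⟨a, ha, b, hb, hab⟩ := hA (A ∩ T) Set.inter_subset_left hA1
        (by obtain ⟨z, hz⟩ := hA2; exact ⟨z, hz.1, fun h => hz.2 h.2⟩)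
      exact ⟨a, ha.2, b, ⟨Or.inl hb.1, fun h => hb.2 ⟨hb.1, h⟩⟩, hab⟩
    · have hAT : A ⊆ T := by
        intro z hz; by_contra hzT; exact hA2 ⟨z, hz, hzT⟩
      by_cases hB1 : (B ∩ T).Nonempty
      · have hB2 : (B \ T).Nonempty := by
          obtain ⟨z, hz, hzT⟩ := h2
          rcases hz with hz | hz
          · exact absurd (hAT hz) hzT
          · exact ⟨z, hz, hzT⟩
        obtain ⟨a, ha, b, hb, hab⟩ := hB (B ∩ T) Set.inter_subset_left hB1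
          (by obtain ⟨z, hz⟩ := hB2; exact ⟨z, hz.1, fun h => hz.2 h.2⟩)
        exact ⟨a, ha.2, b, ⟨Or.inr hb.1, fun h => hb.2 ⟨hb.1, h⟩⟩, hab⟩
      · exact ⟨p, hAT hp, q, ⟨Or.inr hq, fun h => hB1 ⟨q, hq, h⟩⟩, hpq⟩
  · have hTB : T ⊆ B := by
      intro z hz
      rcases hT hz with h | h
      · exact absurd ⟨z, h, hz⟩ hA1
      · exact h
    have hAT : ∀ z ∈ A, z ∉ T := fun z hz hzT => hA1 ⟨z, hz, hzT⟩
    by_cases hB2 : (B \ T).Nonempty
    · obtain ⟨a, ha, b, hb, hab⟩ := hB T hTB h1 hB2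
      exact ⟨a, ha, b, ⟨Or.inr hb.1, hb.2⟩, hab⟩
    · have hqT : q ∈ T := by
        by_contra h; exact hB2 ⟨q, hq, h⟩
      exact ⟨q, hqT, p, ⟨Or.inl hp, hAT p hp⟩, hr _ _ hpq⟩

theorem Cn.union_inter {r : V → V → Prop} {A B : Set V}
    (hA : Cn r A) (hB : Cn r B) (hAB : (A ∩ B).Nonempty) :
    Cn r (A ∪ B) := by
  intro T hT h1 h2
  by_cases hA' : (A ∩ T).Nonempty ∧ (A \ T).Nonempty
  · obtain ⟨hA1, hA2⟩ := hA'
    obtain ⟨a, ha, b, hb, hab⟩ := hA (A ∩ T) Set.inter_subset_left hA1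
        (by obtain ⟨z, hz⟩ := hA2; exact ⟨z, hz.1, fun h => hz.2 h.2⟩)
    exact ⟨a, ha.2, b, ⟨Or.inl hb.1, fun h => hb.2 ⟨hb.1, h⟩⟩, hab⟩
  by_cases hB' : (B ∩ T).Nonempty ∧ (B \ T).Nonempty
  · obtain ⟨hA1, hA2⟩ := hB'
    obtain ⟨a, ha, b, hb, hab⟩ := hB (B ∩ T) Set.inter_subset_left hA1
        (by obtain ⟨z, hz⟩ := hA2; exact ⟨z, hz.1, fun h => hz.2 h.2⟩)
    exact ⟨a, ha.2, b, ⟨Or.inr hb.1, fun h => hb.2 ⟨hb.1, h⟩⟩, hab⟩
  exfalso
  obtain ⟨c, hcA, hcB⟩ := hAB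
  by_cases hcT : c ∈ T
  · obtain ⟨z, hz, hzT⟩ := h2
    rcases hz with hz | hz
    · exact hA' ⟨⟨c, hcA, hcT⟩, ⟨z, hz, hzT⟩⟩
    · exact hB' ⟨⟨c, hcB, hcT⟩, ⟨z, hz, hzT⟩⟩
  · obtain ⟨z, hz⟩ := h1
    rcases hT hz with hz' | hz'
    · exact hA' ⟨⟨z, hz', hz⟩, ⟨c, hcA, hcT⟩⟩
    · exact hB' ⟨⟨z, hz', hz⟩, ⟨c, hcB, hcT⟩⟩

/-- adding one vertex joined by an edge -/
theorem Cn.insert {r : V → V → Prop} (hr : ∀ a b, r a b → r b a) {A : Set V}
    (hA : Cn r A) {p q : V} (hp : p ∈ A) (hpq : r p q) :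
    Cn r (insert q A) := by
  have := hA.union_edge hr (Cn_singleton r q) hp (Set.mem_singleton q) hpq
  rwa [Set.union_singleton] at this

/-- the `r`-component of `c` in `A` -/
def comp (r : V → V → Prop) (A : Set V) (c : V) : Set V :=
  {v | Relation.ReflTransGen (fun a b => r a b ∧ a ∈ A ∧ b ∈ A) c v}

theorem mem_comp_self (r : V → V → Prop) (A : Set V) (c : V) : c ∈ comp r A c :=
  Relation.ReflTransGen.refl

theorem comp_subset {r : V → V → Prop} {A : Set V} {c : V} (hc : c ∈ A) : comp r A c ⊆ A := by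
  intro v hv
  induction hv with
  | refl => exact hc
  | tail _ h _ => exact h.2.2

theorem comp_closed {r : V → V → Prop} {A : Set V} {c : V} (hc : c ∈ A) {p q : V}
    (hp : p ∈ comp r A c) (hq : q ∈ A) (h : r p q) : q ∈ comp r A c :=
  Relation.ReflTransGen.tail hp ⟨h, comp_subset hc hp, hq⟩

theorem Cn_comp {r : V → V → Prop} (hr : ∀ a b, r a b → r b a) {A : Set V} {c : V} (hc : c ∈ A) :
    Cn r (comp r A c) := by
  intro T hT h1 h2
  -- it suffices to treat the side containing c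
  have key : ∀ T : Set V, T ⊆ comp r A c → c ∈ T → (comp r A c \ T).Nonempty →
      ∃ p ∈ T, ∃ q ∈ comp r A c \ T, r p q := by
    intro T hT hcT h2
    by_contra hcon
    push Not at hcon
    obtain ⟨z, hz, hzT⟩ := h2
    apply hzT
    clear hzT
    have : ∀ z, Relation.ReflTransGen (fun a b => r a b ∧ a ∈ A ∧ b ∈ A) c z → z ∈ T := by
      intro z hz
      induction hz with
      | refl => exact hcT
      | @tail b d hb hbd ih =>
        by_contra hd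
        exact hcon b ih d ⟨comp_closed hc (hT ih) hbd.2.2 hbd.1, hd⟩ hbd.1
    exact this z hz
  by_cases hcT : c ∈ T
  · exact key T hT hcT h2
  · obtain ⟨p, hp, q, hq, hpq⟩ := key (comp r A c \ T) Set.sdiff_subset ⟨mem_comp_self r A c, hcT⟩
      (by obtain ⟨z, hz⟩ := h1; exact ⟨z, hT hz, fun h => h.2 hz⟩)
    refine ⟨q, ?_, p, hp, hr _ _ hpq⟩
    by_contra h
    exact hq.2 ⟨hq.1, h⟩

theorem subset_comp {r : V → V → Prop} {A : Set V} {c : V} (hc : c ∈ A) {T : Set V}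
    (hT : Cn r T) (hTA : T ⊆ A) {z : V} (hzT : z ∈ T) (hz : z ∈ comp r A c) : T ⊆ comp r A c := by
  by_contra hcon
  have h2 : (T \ (T ∩ comp r A c)).Nonempty := by
    obtain ⟨w, hw, hw'⟩ := Set.not_subset.mp hcon
    exact ⟨w, hw, fun h => hw' h.2⟩
  obtain ⟨p, hp, q, hq, hpq⟩ := hT (T ∩ comp r A c) Set.inter_subset_left ⟨z, hzT, hz⟩ h2
  exact hq.2 ⟨hq.1, comp_closed hc hp.2 (hTA hq.1) hpq⟩

theorem comp_eq {r : V → V → Prop} (hr : ∀ a b, r a b → r b a) {A : Set V} {c d : V}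
    (hc : c ∈ A) (hd : d ∈ comp r A c) : comp r A d = comp r A c := by
  have hdA : d ∈ A := comp_subset hc hd
  apply Set.Subset.antisymm
  · exact subset_comp hc (Cn_comp hr hdA) (comp_subset hdA) (mem_comp_self r A d) hd
  · exact subset_comp hdA (Cn_comp hr hc) (comp_subset hc) hd (mem_comp_self r A d)

/-- removing a component of `A \ {p}` leaves `A` connected -/
theorem Cn_diff_comp {r : V → V → Prop} (hr : ∀ a b, r a b → r b a) {A : Set V} (hA : Cn r A)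
    {p c : V} (hp : p ∈ A) (hc : c ∈ A \ {p}) : Cn r (A \ comp r (A \ {p}) c) := by
  set K := comp r (A \ {p}) c with hK
  have hKs : K ⊆ A \ {p} := comp_subset hc
  have hpK : p ∉ K := fun h => (hKs h).2 rfl
  intro T hT h1 h2
  have key : ∀ T : Set V, T ⊆ A \ K → T.Nonempty → p ∈ (A \ K) \ T →
      ∃ a ∈ T, ∃ b ∈ (A \ K) \ T, r a b := by
    intro T hT h1 hpT
    obtain ⟨a, ha, b, hb, hab⟩ := hA T (fun z hz => (hT hz).1) h1 ⟨p, hp, hpT.2⟩
    refine ⟨a, ha, b, ⟨⟨hb.1, ?_⟩, hb.2⟩, hab⟩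
    intro hbK
    have haA : a ∈ A \ {p} := ⟨(hT ha).1, fun h => by
      have : a = p := h
      subst this; exact hpT.2 ha⟩
    exact (hT ha).2 (comp_closed hc hbK haA (hr _ _ hab))
  by_cases hpT : p ∈ T
  · obtain ⟨a, ha, b, hb, hab⟩ := key ((A \ K) \ T) Set.sdiff_subset h2
      ⟨⟨hp, hpK⟩, fun h => h.2 hpT⟩
    refine ⟨b, ?_, a, ha, hr _ _ hab⟩
    by_contra h
    exact hb.2 ⟨hb.1, h⟩
  · exact key T hT h1 ⟨⟨hp, hpK⟩, hpT⟩

/-- two distinct vertices are separated by a connected cut -/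
theorem exists_cut {r : V → V → Prop} (hr : ∀ a b, r a b → r b a) {S : Set V} (hS : Cn r S)
    {a b : V} (ha : a ∈ S) (hb : b ∈ S) (hab : a ≠ b) :
    ∃ A ⊆ S, a ∈ A ∧ b ∉ A ∧ Cn r A ∧ Cn r (S \ A) := by
  have hc : a ∈ S \ {b} := ⟨ha, fun h => hab h⟩
  refine ⟨comp r (S \ {b}) a, (comp_subset hc).trans Set.sdiff_subset, mem_comp_self _ _ _, ?_,
    Cn_comp hr hc, Cn_diff_comp hr hS hb hc⟩
  intro h
  exact (comp_subset hc h).2 rfl

/-- the component trick -/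
theorem Mtrick {r : V → V → Prop} (hr : ∀ a b, r a b → r b a) {S : Set V} (hS : Cn r S)
    {u v : V} (hu : u ∈ S) (hv : v ∈ S) (huv : u ≠ v) (hnot : ¬ r u v) :
    ∃ w ∈ S \ {u, v}, w ∈ comp r (S \ {v}) u ∧ r w v ∧
      (∃ m ∈ comp r (S \ {u, v}) w, r m u) := by
  have hu' : u ∈ S \ {v} := ⟨hu, fun h => huv h⟩
  set K := comp r (S \ {v}) u with hK
  have hKs : K ⊆ S \ {v} := comp_subset hu'
  have hvK : v ∉ K := fun h => (hKs h).2 rfl
  obtain ⟨w, hw, q, hq, hwq⟩ := hS K (hKs.trans Set.sdiff_subset) ⟨u, mem_comp_self _ _ _⟩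
    ⟨v, hv, hvK⟩
  have hqv : q = v := by
    by_contra h
    exact hq.2 (comp_closed hu' hw ⟨hq.1, h⟩ hwq)
  subst hqv
  have hwu : w ≠ u := by rintro rfl; exact hnot hwq
  have hwv : w ≠ q := fun h => (hKs hw).2 h
  have hwS : w ∈ S \ {u, q} := ⟨(hKs hw).1, by simp [hwu, hwv]⟩
  refine ⟨w, hwS, hw, hwq, ?_⟩
  set M := comp r (S \ {u, q}) w with hM
  have hMs : M ⊆ S \ {u, q} := comp_subset hwS
  have hMs' : M ⊆ S \ {q} := fun z hz => ⟨(hMs hz).1, fun h => (hMs hz).2 (Or.inr h)⟩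
  have hMK : M ⊆ K := subset_comp hu' (Cn_comp hr hwS) hMs' (mem_comp_self _ _ _) hw
  have huM : u ∉ M := fun h => (hMs h).2 (Or.inl rfl)
  obtain ⟨m, hm, z, hz, hmz⟩ := Cn_comp hr hu' M hMK ⟨w, mem_comp_self _ _ _⟩
    ⟨u, mem_comp_self _ _ _, huM⟩
  have hzu : z = u := by
    by_contra h
    have hzS := hKs hz.1
    exact hz.2 (comp_closed hwS hm ⟨hzS.1, by
      rintro (h' | h')
      · exact h h'
      · exact hzS.2 h'⟩ hmz)
  subst hzu
  exact ⟨m, hm, hmz⟩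

end Pool.Agent.H55.K4
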