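import Pool.Agent.H55.K4.Main

set_option autoImplicit false

namespace Pool.Agent.H55.K4

/-- reduction mod 2 -/
def cm2 (z : ZMod 6) : ZMod 2 := ((z.val : ℕ) : ZMod 2)

/-- reduction mod 3 -/
def cm3 (z : ZMod 6) : Fin 3 := ⟨z.val % 3, Nat.mod_lt _ (by norm_num)⟩

theorem final_dec : ∀ (cu cv : ZMod 6) (s pu pv : ZMod 2), pu ≠ pv →
    SG.nd (cv - cu + SG.h3 s) ≤ 1 →
    (cm3 cu = cm3 cv ↔ (s = 1 ↔ (cm2 cu + pu = 1 ↔ cm2 cv + pv = 1))) := by
  decide +kernel

/-- the signed multigraph of a signed graph -/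
def ofGraph {V : Type*} (G : SimpleGraph V) (S : Set (Sym2 V)) : SG V where
  E a b s := G.Adj a b ∧ (s = 1 ↔ s(a, b) ∈ S)
  symm := by
    rintro a b s ⟨h, h'⟩
    exact ⟨h.symm, by rw [Sym2.eq_swap]; exact h'⟩
  irr := fun h => h.1.ne

theorem result_aux {V : Type*} [Finite V] (G : SimpleGraph V) (S : Set (Sym2 V))
    (hcol : G.Colorable 2)
    (hno : ¬ ∃ (X : Set V) (B : Fin 4 → Set V),
          (∀ i : Fin 4, ∃ v : V, v ∈ B i) ∧
          (∀ i j : Fin 4, i ≠ j → ∀ v : V, v ∈ B i → v ∉ B j) ∧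
          (∀ i : Fin 4, ∀ u : V, u ∈ B i → ∀ v : V, v ∈ B i →
            Relation.ReflTransGen
              (fun a b : V => G.Adj a b ∧ a ∈ B i ∧ b ∈ B i ∧
                ¬ (s(a, b) ∈ S ↔ (a ∈ X ↔ b ∈ X))) u v) ∧
          (∀ i j : Fin 4, i ≠ j → ∃ u : V, u ∈ B i ∧ ∃ v : V, v ∈ B j ∧
            G.Adj u v ∧ (s(u, v) ∈ S ↔ (u ∈ X ↔ v ∈ X)))) :
    ∃ (X : Set V) (φ : V → Bool × Fin 3),
        ∀ u v : V, G.Adj u v →
          (φ u).1 ≠ (φ v).1 ∧
          ((φ u).2 = (φ v).2 ↔ (s(u, v) ∈ S ↔ (u ∈ X ↔ v ∈ X))) := by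
  classical
  rcases isEmpty_or_nonempty V with hV | ⟨⟨v0⟩⟩
  · exact ⟨∅, fun _ => (true, 0), fun u => (hV.false u).elim⟩
  obtain ⟨C⟩ := hcol
  set par : V → ZMod 2 := fun v => if C v = 0 then 0 else 1 with hpar
  have hparne : ∀ a b, G.Adj a b → par a ≠ par b := by
    intro a b hab
    have h := C.valid hab
    simp only [hpar]
    generalize C a = u at h ⊢
    generalize C b = w at h ⊢
    revert u w; decide
  have h11 : (1 : ZMod 2) + 1 = 0 := by decide
  have hX1 : ∀ p q : ZMod 2, (p + q = 1 ↔ ¬ (p = 1 ↔ q = 1)) := by decide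
  have hX0 : ∀ p q : ZMod 2, (p + q + 1 = 1 ↔ (p = 1 ↔ q = 1)) := by decide
  have hodd : ¬ (ofGraph G S).OddK4 := by
    rintro ⟨X, B, hne, hdis, hcn, hcr⟩
    apply hno
    refine ⟨{v | X v = 1}, B, fun i => hne i, fun i j hij v hv => hdis i j hij v hv, ?_, ?_⟩
    · intro i u hu v hv
      have h1 : B i ⊆ comp (fun a b => (ofGraph G S).E a b (X a + X b)) (B i) u :=
        subset_comp hu (hcn i) le_rfl hu (mem_comp_self _ _ _)
      have h2 : Relation.ReflTransGen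
        (fun a b => (ofGraph G S).E a b (X a + X b) ∧ a ∈ B i ∧ b ∈ B i) u v := h1 hv
      refine Relation.ReflTransGen.mono ?_ _ _ h2
      rintro a b ⟨⟨hab, hs⟩, ha, hb⟩
      refine ⟨hab, ha, hb, ?_⟩
      have := hX1 (X a) (X b)
      simp only [Set.mem_ofPred_eq]
      tauto
    · intro i j hij
      obtain ⟨a, ha, b, hb, hab, hs⟩ := hcr i j hij
      refine ⟨a, ha, b, hb, hab, ?_⟩
      have := hX0 (X a) (X b)
      simp only [Set.mem_ofPred_eq]
      tauto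
  have hl : (ofGraph G S).LenOK par (fun _ _ _ => 1) := by
    refine ⟨fun _ _ _ _ => rfl, ?_, fun _ _ _ _ _ => Or.inl rfl, ?_⟩
    · intro a b s hab hp
      exact absurd hp (hparne a b hab.1)
    · intro a b h0 h1
      exfalso
      exact absurd (h0.2.mpr (h1.2.mp rfl)) (by decide)
  obtain ⟨c, hc⟩ := SG.main (V := V) (Set.univ : Set V).ncard (ofGraph G S) Set.univ par
    (fun _ _ _ => 1) rfl (fun _ _ _ _ => trivial) hl hodd (v0, v0, 0)
  refine ⟨{v | cm2 (c v) + par v = 1}, fun v => (decide (par v = 1), cm3 (c v)), ?_⟩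
  intro u v huv
  have hp := hparne u v huv
  refine ⟨?_, ?_⟩
  · intro h
    apply hp
    have h' : decide (par u = 1) = decide (par v = 1) := h
    rw [decide_eq_decide] at h'
    generalize par u = p at h' ⊢
    generalize par v = q at h' ⊢
    revert p q; decide
  · set s : ZMod 2 := if s(u, v) ∈ S then 1 else 0 with hs
    have hsS : s = 1 ↔ s(u, v) ∈ S := by
      rw [hs]
      split_ifs with h
      · exact ⟨fun _ => h, fun _ => rfl⟩
      · exact ⟨fun h' => absurd h' (by decide), fun h' => absurd h' h⟩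
    have h1 : SG.nd (c v - c u + SG.h3 s) ≤ 1 :=
      (Nat.le_add_right _ _).trans (hc u v s ⟨huv, hsS⟩)
    have h2 := final_dec (c u) (c v) s (par u) (par v) hp h1
    rw [hsS] at h2
    exact h2

end Pool.Agent.H55.K4
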