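import Pool.Agent.H55.K4.Hoffman

set_option autoImplicit false

namespace Pool.Agent.H55.K4

namespace SG

/-- lengths of the virtual edges -/
def vlen (p q σ t : ZMod 2) : ℕ := if p = q then 2 else if t = σ then 1 else 3

theorem fin3 : ∀ (p0 p1 p2 s0 s1 s2 : ZMod 2) (k : Fin 4) (t0 : ZMod 2),
    ∃ d1 d2 : ZMod 6, ∀ t : ZMod 2,
      nd (d1 + h3 t) + (if k = 0 ∧ t = t0 then 1 else 0) ≤ vlen p0 p1 s0 t ∧
      nd (d2 + h3 t) + (if k = 1 ∧ t = t0 then 1 else 0) ≤ vlen p0 p2 s1 t ∧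
      nd (d2 - d1 + h3 t) + (if k = 2 ∧ t = t0 then 1 else 0) ≤ vlen p1 p2 s2 t := by
  decide +kernel

/-- the map on levels -/
def gmap (i : ℕ) (δ : ZMod 6) (l : ℕ) : ZMod 6 :=
  let v : ZMod 6 := ((min (if l ≤ i then l else l - 1) (nd δ) : ℕ) : ZMod 6)
  if δ.val ≤ 3 then v else -v

theorem gmap_zero : ∀ (i : Fin 4) (δ : ZMod 6), gmap i δ 0 = 0 := by decide +kernel

theorem gmap_top : ∀ (m i : Fin 4) (δ : ZMod 6), 2 ≤ m.val →
    nd δ + (if i < m then 1 else 0) ≤ m.val → gmap i δ m = δ := by decide +kernel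

theorem gmap_lip : ∀ (i l l' : Fin 4) (δ : ZMod 6),
    nd (gmap i δ l' - gmap i δ l) + (if min l.val l'.val ≤ i.val ∧ i.val < max l.val l'.val then 1 else 0) ≤
      max l.val l'.val - min l.val l'.val := by decide +kernel

theorem h3_add : ∀ s t : ZMod 2, h3 (s + t) = h3 s + h3 t := by decide

theorem h3_self : ∀ s : ZMod 2, h3 s + h3 s = 0 := by decide

theorem h3_neg : ∀ s : ZMod 2, - h3 s = h3 s := by decide

theorem nd_h3 : ∀ (z : ZMod 6) (s : ZMod 2), nd (z + h3 (s + 1)) + nd (z + h3 s) = 3 := by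
  decide +kernel

theorem nd_eq : ∀ (z w : ZMod 6) (s : ZMod 2), nd (z + h3 s) = nd (w + h3 s) → z = w ∨ z = - w := by
  decide +kernel

end SG

end Pool.Agent.H55.K4
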