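import Pool.Agent.H55.K4.Thm1

set_option autoImplicit false

namespace Pool.Agent.H55.K4

namespace SG

variable {V : Type*}

/-- feasibility of difference constraints -/
theorem hoffman [Finite V] (G : SG V) (w : V → V → ZMod 2 → ℤ) :
    (∃ c : V → ℤ, ∀ a b s, G.E a b s → c b - c a ≤ w a b s) ∨
    (∃ (n : ℕ) (P : ℕ → V) (s : ℕ → ZMod 2), 1 ≤ n ∧ (∀ i < n, ∀ j < n, P i = P j → i = j) ∧
      P n = P 0 ∧ (∀ i < n, G.E (P i) (P (i+1)) (s i)) ∧
      ∑ i ∈ Finset.range n, w (P i) (P (i+1)) (s i) < 0) := by
  classical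
  have := Fintype.ofFinite V
  set viol : (V → ℤ) → V × V × ZMod 2 → ℕ := fun c e =>
    if G.E e.1 e.2.1 e.2.2 then (c e.2.1 - c e.1 - w e.1 e.2.1 e.2.2).toNat else 0 with hviol
  obtain ⟨c, -, hmin⟩ := exists_min (fun _ : V → ℤ => True) (fun c => ∑ e, viol c e)
    ⟨fun _ => 0, trivial⟩
  by_cases hc : ∀ a b s, G.E a b s → c b - c a ≤ w a b s
  · exact Or.inl ⟨c, hc⟩
  right
  push Not at hc
  obtain ⟨a, b, s0, hab, hlt⟩ := hc
  set T : V → V → ZMod 2 → Prop := fun p q s => G.E p q s ∧ w p q s ≤ c q - c p with hT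
  set D : Set V := {q | ∃ (m : ℕ) (p : ℕ → V) (s : ℕ → ZMod 2), p 0 = b ∧ p m = q ∧
    ∀ i < m, T (p i) (p (i+1)) (s i)} with hD
  have hbD : b ∈ D := ⟨0, fun _ => b, fun _ => 0, rfl, rfl, fun i hi => absurd hi (by omega)⟩
  have hclosed : ∀ p ∈ D, ∀ q s, T p q s → q ∈ D := by
    rintro p ⟨m, f, t, hf0, hfm, hft⟩ q s hs
    refine ⟨m + 1, fun i => if i ≤ m then f i else q, fun i => if i < m then t i else s, ?_, ?_, ?_⟩
    · simp [hf0]
    · simp
    · intro i hi
      by_cases him : i < m
      · have h1 : i ≤ m := him.le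
        have h2 : i + 1 ≤ m := him
        simp only [h1, h2, him, if_true]
        exact hft i him
      · have h1 : i = m := by omega
        subst h1
        simp only [le_refl, if_true, lt_irrefl, if_false, if_neg (by omega : ¬ i + 1 ≤ i), hfm]
        exact hs
  have haD : a ∈ D := by
    by_contra haD
    set c' : V → ℤ := fun z => if z ∈ D then c z - 1 else c z with hc'
    have hin : ∀ z ∈ D, c' z = c z - 1 := fun z hz => by simp only [hc', if_pos hz]
    have hout : ∀ z, z ∉ D → c' z = c z := fun z hz => by simp only [hc', if_neg hz]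
    have hle : ∀ e, viol c' e ≤ viol c e := by
      rintro ⟨p, q, s⟩
      simp only [hviol]
      by_cases hE : G.E p q s
      · simp only [if_pos hE]
        by_cases hp : p ∈ D
        · by_cases hq : q ∈ D
          · rw [hin p hp, hin q hq]
            have : c q - 1 - (c p - 1) - w p q s = c q - c p - w p q s := by ring
            rw [this]
          · rw [hin p hp, hout q hq]
            have : c q - c p < w p q s := by
              by_contra h
              exact hq (hclosed p hp q s ⟨hE, not_lt.mp h⟩)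
            omega
        · by_cases hq : q ∈ D
          · rw [hout p hp, hin q hq]; omega
          · rw [hout p hp, hout q hq]
      · simp only [if_neg hE]; exact le_rfl
    have hlt' : viol c' (a, b, s0) < viol c (a, b, s0) := by
      simp only [hviol]
      simp only [if_pos hab]
      rw [hout a haD, hin b hbD]
      omega
    have h1 : ∑ e, viol c' e < ∑ e, viol c e :=
      Finset.sum_lt_sum (fun e _ => hle e) ⟨_, Finset.mem_univ _, hlt'⟩
    exact absurd (hmin c' trivial) (not_le.mpr h1)
  -- shortest chain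
  have hex : ∃ m, ∃ (p : ℕ → V) (s : ℕ → ZMod 2), p 0 = b ∧ p m = a ∧
      ∀ i < m, T (p i) (p (i+1)) (s i) := by
    obtain ⟨m, p, s, h⟩ := haD
    exact ⟨m, p, s, h⟩
  obtain ⟨p, s, hp0, hpm, hT'⟩ := Nat.find_spec hex
  set m := Nat.find hex with hm
  have hinj : ∀ i ≤ m, ∀ j ≤ m, i < j → p i ≠ p j := by
    intro i hi j hj hij heq
    have hlt : m - (j - i) < m := by omega
    refine Nat.find_min hex hlt ⟨fun k => if k ≤ i then p k else p (k + (j - i)),
      fun k => if k < i then s k else s (k + (j - i)), ?_, ?_, ?_⟩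
    · simp [hp0]
    · by_cases h : m - (j - i) ≤ i
      · have hjm : j = m := by omega
        have h2 : m - (j - i) = i := by omega
        rw [h2]
        simp only [le_refl, if_true]
        rw [heq, hjm]; exact hpm
      · simp only [if_neg h]
        have : m - (j - i) + (j - i) = m := by omega
        rw [this]; exact hpm
    · intro k hk
      by_cases h1 : k < i
      · simp only [if_pos h1, if_pos (by omega : k ≤ i), if_pos (by omega : k + 1 ≤ i)]
        exact hT' k (by omega)
      · by_cases h2 : k = i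
        · subst h2
          simp only [lt_irrefl, if_false, le_refl, if_true, if_neg (by omega : ¬ k + 1 ≤ k)]
          rw [heq]
          have e1 : k + (j - k) = j := by omega
          have e2 : k + 1 + (j - k) = j + 1 := by omega
          rw [e1, e2]
          exact hT' j (by omega)
        · simp only [if_neg h1, if_neg (by omega : ¬ k ≤ i), if_neg (by omega : ¬ k + 1 ≤ i)]
          have e2 : k + 1 + (j - i) = k + (j - i) + 1 := by omega
          rw [e2]
          exact hT' (k + (j - i)) (by omega)
  refine ⟨m + 1, fun i => if i ≤ m then p i else p 0, fun i => if i < m then s i else s0, by omega,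
    ?_, ?_, ?_, ?_⟩
  · intro i hi j hj hij
    simp only [if_pos (by omega : i ≤ m), if_pos (by omega : j ≤ m)] at hij
    by_contra hne
    rcases lt_or_gt_of_ne hne with h | h
    · exact hinj i (by omega) j (by omega) h hij
    · exact hinj j (by omega) i (by omega) h hij.symm
  · simp
  · intro i hi
    by_cases him : i < m
    · simp only [if_pos him, if_pos him.le, if_pos (by omega : i + 1 ≤ m)]
      exact (hT' i him).1
    · have : i = m := by omega
      rw [this]
      simp only [le_refl, if_true, lt_irrefl, if_false, if_neg (by omega : ¬ m + 1 ≤ m)]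
      rw [hpm, hp0]; exact hab
  · rw [Finset.sum_range_succ]
    have h1 : ∑ i ∈ Finset.range m, w ((fun i => if i ≤ m then p i else p 0) i)
        ((fun i => if i ≤ m then p i else p 0) (i+1)) ((fun i => if i < m then s i else s0) i) ≤
        ∑ i ∈ Finset.range m, (c (p (i+1)) - c (p i)) := by
      refine Finset.sum_le_sum fun i hi => ?_
      have him : i < m := Finset.mem_range.mp hi
      simp only [if_pos him, if_pos him.le, if_pos (by omega : i + 1 ≤ m)]
      exact (hT' i him).2
    rw [Finset.sum_range_sub (fun i => c (p i))] at h1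
    simp only [le_refl, if_true, lt_irrefl, if_false, if_neg (by omega : ¬ m + 1 ≤ m)] at h1 ⊢
    rw [hpm, hp0] at h1 ⊢
    linarith

/-- good labellings are small on cycles -/
theorem cycle_le [Finite V] {G : SG V} {x : V → V → ZMod 2 → ℤ} (hx : G.Anti x) (hg : G.Good x)
    {n : ℕ} {P : ℕ → V} {s : ℕ → ZMod 2} (hn : 1 ≤ n)
    (hinj : ∀ i < n, ∀ j < n, P i = P j → i = j)
    (hPn : P n = P 0) (hE : ∀ i < n, G.E (P i) (P (i+1)) (s i)) :
    |∑ i ∈ Finset.range n, x (P i) (P (i+1)) (s i)| ≤ 1 := by
  classical
  obtain ⟨m, rfl⟩ : ∃ m, n = m + 1 := ⟨n - 1, by omega⟩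
  set σ : ℕ → ℤ := fun k => ∑ i ∈ Finset.range k, x (P i) (P (i+1)) (s i) with hσ
  set π : V → ℤ := fun z => if h : ∃ i, i ≤ m ∧ P i = z then - σ (Classical.choose h) else 0 with hπ
  have hπP : ∀ i ≤ m, π (P i) = - σ i := by
    intro i hi
    have h : ∃ j, j ≤ m ∧ P j = P i := ⟨i, hi, rfl⟩
    have h1 := Classical.choose_spec h
    have h2 : Classical.choose h = i := hinj _ (by omega) _ (by omega) h1.2
    simp only [hπ, dif_pos h]
    rw [h2]
  have hcn : ∀ k ≤ m, Cn (G.Zr x π) {z | ∃ i, i ≤ k ∧ P i = z} := by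
    intro k
    induction k with
    | zero =>
      intro _
      have : {z | ∃ i, i ≤ 0 ∧ P i = z} = {P 0} := by
        ext z
        constructor
        · rintro ⟨i, hi, rfl⟩
          have : i = 0 := by omega
          rw [this]; rfl
        · rintro rfl
          exact ⟨0, le_rfl, rfl⟩
      rw [this]; exact Cn_singleton _ _
    | succ k ih =>
      intro hk
      have : {z | ∃ i, i ≤ k + 1 ∧ P i = z} = insert (P (k+1)) {z | ∃ i, i ≤ k ∧ P i = z} := by
        ext z
        constructor
        · rintro ⟨i, hi, rfl⟩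
          by_cases h : i = k + 1
          · left; rw [h]
          · right; exact ⟨i, by omega, rfl⟩
        · rintro (rfl | ⟨i, hi, rfl⟩)
          · exact ⟨k + 1, le_rfl, rfl⟩
          · exact ⟨i, by omega, rfl⟩
      rw [this]
      refine Cn.insert (Zr_symm hx π) (ih (by omega)) (p := P k) ⟨k, le_rfl, rfl⟩
        ⟨s k, hE k (by omega), ?_⟩
      rw [hπP k (by omega), hπP (k+1) hk]
      simp only [hσ, Finset.sum_range_succ]
      ring
  have key := hg π _ (hcn m le_rfl) (P m) ⟨m, le_rfl, rfl⟩ (P 0) ⟨0, by omega, rfl⟩ (s m) (by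
    rw [← hPn]; exact hE m (by omega))
  rw [hπP m le_rfl, hπP 0 (by omega)] at key
  rw [Finset.sum_range_succ, hPn]
  have e : x (P m) (P 0) (s m) + -σ 0 - -σ m = ∑ i ∈ Finset.range m, x (P i) (P (i+1)) (s i) +
      x (P m) (P 0) (s m) := by
    simp only [hσ, Finset.range_zero, Finset.sum_empty]
    ring
  rw [e] at key
  exact key

/-- admissible lengths -/
structure LenOK (G : SG V) (par : V → ZMod 2) (len : V → V → ZMod 2 → ℕ) : Prop where
  symm : ∀ a b s, G.E a b s → len b a s = len a b s
  same : ∀ a b s, G.E a b s → par a = par b → len a b s = 2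
  diff : ∀ a b s, G.E a b s → par a ≠ par b → len a b s = 1 ∨ len a b s = 3
  dig : ∀ a b, G.E a b 0 → G.E a b 1 → 4 ≤ len a b 0 + len a b 1

open Classical in
/-- indicator of the shortened edge -/
noncomputable def ind (e : V × V × ZMod 2) (a b : V) (s : ZMod 2) : ℕ :=
  if s = e.2.2 ∧ ((a = e.1 ∧ b = e.2.1) ∨ (a = e.2.1 ∧ b = e.1)) then 1 else 0

theorem ind_le (e : V × V × ZMod 2) (a b : V) (s : ZMod 2) : ind e a b s ≤ 1 := by
  unfold ind; split_ifs <;> omega

theorem ind_symm (e : V × V × ZMod 2) (a b : V) (s : ZMod 2) : ind e b a s = ind e a b s := by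
  classical
  unfold ind
  congr 1
  apply propext
  constructor <;> rintro ⟨h, h'⟩ <;> exact ⟨h, by tauto⟩

theorem ind_pos {e : V × V × ZMod 2} {a b : V} {s : ZMod 2} (h : ind e a b s ≠ 0) :
    s = e.2.2 ∧ ((a = e.1 ∧ b = e.2.1) ∨ (a = e.2.1 ∧ b = e.1)) := by
  classical
  unfold ind at h
  by_contra h'
  rw [if_neg h'] at h
  exact h rfl

theorem LenOK.pos {G : SG V} {par : V → ZMod 2} {len : V → V → ZMod 2 → ℕ}
    (hl : G.LenOK par len) {a b : V} {s : ZMod 2} (h : G.E a b s) : 1 ≤ len a b s := by
  by_cases hp : par a = par b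
  · rw [hl.same a b s h hp]; norm_num
  · rcases hl.diff a b s h hp with h | h <;> omega

theorem LenOK.parity {G : SG V} {par : V → ZMod 2} {len : V → V → ZMod 2 → ℕ}
    (hl : G.LenOK par len) {a b : V} {s : ZMod 2} (h : G.E a b s) :
    ((len a b s : ℕ) : ZMod 2) = par b - par a := by
  by_cases hp : par a = par b
  · rw [hl.same a b s h hp, hp, sub_self]; decide
  · have : par b - par a = 1 := by
      generalize par a = u at hp ⊢
      generalize par b = v at hp ⊢
      revert u v; decide
    rw [this]
    rcases hl.diff a b s h hp with h | h <;> rw [h] <;> decide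

theorem color_of_good [Finite V] {G : SG V} {par : V → ZMod 2} {len : V → V → ZMod 2 → ℕ}
    (hl : G.LenOK par len) {x : V → V → ZMod 2 → ℤ} (hx : G.GoodX x) (e : V × V × ZMod 2) :
    ∃ c : V → ℤ, ∀ a b s, G.E a b s → |3 * x a b s + c b - c a| + ind e a b s ≤ len a b s := by
  rcases hoffman G (fun a b s => (len a b s : ℤ) - ind e a b s - 3 * x a b s) with
    ⟨c, hc⟩ | ⟨n, P, s, hn, hinj, hPn, hE, hsum⟩
  · refine ⟨c, fun a b s hs => ?_⟩
    have h1 := hc a b s hs
    have h2 := hc b a s (G.symm hs)
    rw [hx.anti a b s hs, hl.symm a b s hs, ind_symm] at h2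
    have : |3 * x a b s + c b - c a| ≤ (len a b s : ℤ) - ind e a b s := by
      rw [abs_le]; constructor <;> linarith
    linarith
  · exfalso
    have hcyc := cycle_le hx.anti hx.good hn hinj hPn hE
    simp only [Finset.sum_sub_distrib, ← Finset.mul_sum] at hsum
    set X := ∑ i ∈ Finset.range n, x (P i) (P (i+1)) (s i) with hX
    set L := ∑ i ∈ Finset.range n, (len (P i) (P (i+1)) (s i) : ℤ) with hL
    set I := ∑ i ∈ Finset.range n, (ind e (P i) (P (i+1)) (s i) : ℤ) with hI
    have hIL : I ≤ L := Finset.sum_le_sum fun i hi => by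
      have h1 := ind_le e (P i) (P (i+1)) (s i)
      have h2 := hl.pos (hE i (Finset.mem_range.mp hi))
      omega
    have hX1 : X = 1 := by
      rw [abs_le] at hcyc
      omega
    have hnL : (n : ℤ) ≤ L := by
      have : ∑ i ∈ Finset.range n, (1 : ℤ) ≤ L := Finset.sum_le_sum fun i hi => by
        have h2 := hl.pos (hE i (Finset.mem_range.mp hi))
        omega
      simpa using this
    have hLpar : L % 2 = 0 := by
      have : ((L : ℤ) : ZMod 2) = ((0 : ℤ) : ZMod 2) := by
        rw [hL]
        push_cast
        rw [Finset.sum_congr rfl fun i hi => hl.parity (hE i (Finset.mem_range.mp hi))]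
        rw [Finset.sum_range_sub (fun i => par (P i)), hPn, sub_self]
      rw [ZMod.intCast_eq_intCast_iff] at this
      exact this
    have hn1 : n ≠ 1 := by
      rintro rfl
      have := hE 0 (by omega)
      rw [zero_add, hPn] at this
      exact G.irr this rfl
    by_cases hn2 : n = 2
    · subst hn2
      have hE0 := hE 0 (by omega)
      have hE1 := hE 1 (by omega)
      simp only [zero_add, Nat.reduceAdd] at hE0 hE1
      rw [hPn] at hE1
      have hXe : X = x (P 0) (P 1) (s 0) + x (P 1) (P 0) (s 1) := by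
        rw [hX]
        simp only [Finset.sum_range_succ, Finset.sum_range_zero, zero_add, Nat.reduceAdd, hPn]
      have hLe : L = len (P 0) (P 1) (s 0) + len (P 1) (P 0) (s 1) := by
        rw [hL]
        simp only [Finset.sum_range_succ, Finset.sum_range_zero, zero_add, Nat.reduceAdd, hPn]
      have hIe : I = ind e (P 0) (P 1) (s 0) + ind e (P 1) (P 0) (s 1) := by
        rw [hI]
        simp only [Finset.sum_range_succ, Finset.sum_range_zero, zero_add, Nat.reduceAdd, hPn]
      have hs01 : s 0 ≠ s 1 := by
        intro h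
        rw [h] at hE0 hXe
        rw [hx.anti _ _ _ hE0] at hXe
        omega
      have hI1 : I ≤ 1 := by
        rw [hIe]
        have h1 := ind_le e (P 0) (P 1) (s 0)
        have h2 := ind_le e (P 1) (P 0) (s 1)
        by_contra h
        have h3 : ind e (P 0) (P 1) (s 0) ≠ 0 := by omega
        have h4 : ind e (P 1) (P 0) (s 1) ≠ 0 := by omega
        exact hs01 ((ind_pos h3).1.trans (ind_pos h4).1.symm)
      have hL4 : 4 ≤ L := by
        rw [hLe, hl.symm _ _ _ (G.symm hE1)]
        have hE1' := G.symm hE1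
        rcases zmod2_cases (s 0) with h | h <;> rcases zmod2_cases (s 1) with h' | h'
        · exact absurd (h.trans h'.symm) hs01
        · rw [h] at hE0 ⊢
          rw [h'] at hE1' ⊢
          have := hl.dig _ _ hE0 hE1'
          omega
        · rw [h] at hE0 ⊢
          rw [h'] at hE1' ⊢
          have := hl.dig _ _ hE1' hE0
          omega
        · exact absurd (h.trans h'.symm) hs01
      omega
    · have hI1 : I ≤ 1 := by
        by_cases hall : ∀ i ∈ Finset.range n, (ind e (P i) (P (i+1)) (s i) : ℤ) = 0
        · rw [hI, Finset.sum_eq_zero hall]; norm_num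
        · push Not at hall
          obtain ⟨i, hi, hine⟩ := hall
          have hine' : ind e (P i) (P (i+1)) (s i) ≠ 0 := by exact_mod_cast hine
          have huni : ∀ j ∈ Finset.range n, j ≠ i → (ind e (P j) (P (j+1)) (s j) : ℤ) = 0 := by
            -- symmetric helper
            have aux : ∀ i j, i < n → j < n → i < j → ind e (P i) (P (i+1)) (s i) ≠ 0 →
                ind e (P j) (P (j+1)) (s j) ≠ 0 → False := by
              intro i j hi hj hij h1 h2
              obtain ⟨_, h1'⟩ := ind_pos h1
              obtain ⟨_, h2'⟩ := ind_pos h2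
              have hne : P i ≠ P j := fun h => by
                have := hinj i hi j hj h
                omega
              have hcr : P i = P (j+1) ∧ P (i+1) = P j := by
                rcases h1' with ⟨a1, a2⟩ | ⟨a1, a2⟩ <;> rcases h2' with ⟨b1, b2⟩ | ⟨b1, b2⟩
                · exact absurd (a1.trans b1.symm) hne
                · exact ⟨a1.trans b2.symm, a2.trans b1.symm⟩
                · exact ⟨a1.trans b2.symm, a2.trans b1.symm⟩
                · exact absurd (a1.trans b1.symm) hne
              have hij1 : i + 1 = j := hinj _ (by omega) _ hj hcr.2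
              by_cases hjn : j + 1 < n
              · have := hinj i hi (j+1) hjn hcr.1
                omega
              · have hjn' : j + 1 = n := by omega
                rw [hjn', hPn] at hcr
                have := hinj i hi 0 (by omega) hcr.1
                omega
            intro j hj hji
            by_contra hne
            have hne' : ind e (P j) (P (j+1)) (s j) ≠ 0 := by exact_mod_cast hne
            rcases lt_or_gt_of_ne hji with h | h
            · exact aux j i (Finset.mem_range.mp hj) (Finset.mem_range.mp hi) h hne' hine'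
            · exact aux i j (Finset.mem_range.mp hi) (Finset.mem_range.mp hj) h hine' hne'
          rw [hI, Finset.sum_eq_single i huni (fun h => absurd hi h)]
          exact_mod_cast ind_le e (P i) (P (i+1)) (s i)
      omega

/-- distance to `0` in `ZMod 6` -/
def nd (z : ZMod 6) : ℕ := min z.val (6 - z.val)

/-- `3 s` in `ZMod 6` -/
def h3 (s : ZMod 2) : ZMod 6 := if s = 0 then 0 else 3

theorem nd_neg (z : ZMod 6) : nd (-z) = nd z := by revert z; decide

theorem nd_cast_le (z : ℤ) : (nd (z : ZMod 6) : ℤ) ≤ |z| := by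
  by_cases h : 3 ≤ |z|
  · have : nd (z : ZMod 6) ≤ 3 := by
      generalize (z : ZMod 6) = y
      revert y; decide
    omega
  · have h1 : z = -2 ∨ z = -1 ∨ z = 0 ∨ z = 1 ∨ z = 2 := by
      rw [not_le, abs_lt] at h
      omega
    rcases h1 with rfl | rfl | rfl | rfl | rfl <;> decide

theorem three_mul_cast {x : ℤ} {s : ZMod 2} (h : ((x : ℤ) : ZMod 2) = s) :
    ((3 * x : ℤ) : ZMod 6) = h3 s := by
  rcases zmod2_cases s with hs | hs
  · rw [hs] at h ⊢
    have h' : ((x : ℤ) : ZMod 2) = ((0 : ℤ) : ZMod 2) := by simpa using h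
    rw [ZMod.intCast_eq_intCast_iff] at h'
    have h2 : x % 2 = 0 := h'
    have h3' : ((3 * x : ℤ) : ZMod 6) = ((0 : ℤ) : ZMod 6) := by
      rw [ZMod.intCast_eq_intCast_iff]
      show (3 * x) % 6 = 0 % 6
      omega
    rw [h3']; decide
  · rw [hs] at h ⊢
    have h' : ((x : ℤ) : ZMod 2) = ((1 : ℤ) : ZMod 2) := by simpa using h
    rw [ZMod.intCast_eq_intCast_iff] at h'
    have h2 : x % 2 = 1 := h'
    have h3' : ((3 * x : ℤ) : ZMod 6) = ((3 : ℤ) : ZMod 6) := by
      rw [ZMod.intCast_eq_intCast_iff]
      show (3 * x) % 6 = 3 % 6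
      omega
    rw [h3']; decide

/-- colourings with values in `ZMod 6` -/
def Col (G : SG V) (len : V → V → ZMod 2 → ℕ) (e : V × V × ZMod 2) (c : V → ZMod 6) : Prop :=
  ∀ a b s, G.E a b s → nd (c b - c a + h3 s) + ind e a b s ≤ len a b s

theorem col_of_good [Finite V] {G : SG V} {par : V → ZMod 2} {len : V → V → ZMod 2 → ℕ}
    (hl : G.LenOK par len) {x : V → V → ZMod 2 → ℤ} (hx : G.GoodX x) (e : V × V × ZMod 2) :
    ∃ c, G.Col len e c := by
  obtain ⟨c, hc⟩ := color_of_good hl hx e
  refine ⟨fun v => (c v : ZMod 6), fun a b s hs => ?_⟩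
  have h1 := hc a b s hs
  have h2 := nd_cast_le (3 * x a b s + c b - c a)
  have h3 : ((3 * x a b s + c b - c a : ℤ) : ZMod 6) = (c b : ZMod 6) - (c a : ZMod 6) + h3 s := by
    have := three_mul_cast (hx.par a b s hs)
    push_cast at this ⊢
    rw [this]; ring
  rw [h3] at h2
  dsimp only
  omega

end SG

end Pool.Agent.H55.K4
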