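import Pool.Agent.H55.K4.SGraph

set_option autoImplicit false

namespace Pool.Agent.H55.K4

theorem zmod2_cases (s : ZMod 2) : s = 0 ∨ s = 1 := by revert s; decide

namespace SG

variable {V : Type*}

/-- second half of the contraction lemma -/
theorem lemmaC2 [Finite V] {G : SG V} {S : Set V}
    {x : V → V → ZMod 2 → ℤ} (hx : G.Anti x)
    (hpar : ∀ a b s, G.E a b s → ((x a b s : ℤ) : ZMod 2) = s) {u v : V} (huv : G.E u v 0)
    (hcn : Cn G.Adj (S \ {u, v}))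
    (hyp : ∀ (π : V → ℤ), π u = π v → ∀ A, Cn (G.Zr x π) A → ∀ a ∈ A, ∀ b ∈ A, ∀ s,
      G.E a b s → |x a b s + π b - π a| ≤ 1)
    {ρ0 : V → ℤ} (hρ0 : ρ0 u = ρ0 v) {t : ℤ} (ht : |t| = 1)
    {M Q1 : Set V} (hM : M ⊆ S \ {u, v}) (hQ1 : Q1 ⊆ S \ {u, v}) (hMQ : ∀ z ∈ M, z ∉ Q1)
    (hMc : Cn (G.Zr x ρ0) M) (hQc : Cn (G.Zr x ρ0) Q1)
    (huM : ∃ m ∈ M, G.Zr x ρ0 m u) (huQ : ∃ q ∈ Q1, G.Zr x ρ0 q u)
    (hvM : ∃ m ∈ M, ∃ s, G.E m v s ∧ x m v s + ρ0 v - ρ0 m = t)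
    (hvQ : ∃ q ∈ Q1, ∃ s, G.E q v s ∧ x q v s + ρ0 v - ρ0 q = -t) :
    G.OddK4 := by
  classical
  set D : (V → ℤ) × Set V → Prop := fun d => d.1 u = d.1 v ∧ d.2 ⊆ S \ {u, v} ∧
    (∀ z ∈ M, z ∉ d.2) ∧ Cn (G.Zr x d.1) M ∧ Cn (G.Zr x d.1) d.2 ∧
    (∃ m ∈ M, G.Zr x d.1 m u) ∧ (∃ q ∈ d.2, G.Zr x d.1 q u) ∧
    (∃ m ∈ M, ∃ s, G.E m v s ∧ x m v s + d.1 v - d.1 m = t) ∧
    (∃ q ∈ d.2, ∃ s, G.E q v s ∧ x q v s + d.1 v - d.1 q = -t) with hD
  obtain ⟨⟨ρ, Q⟩, hDQ, hmin⟩ := exists_min D (fun d => S.ncard - d.2.ncard)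
    ⟨(ρ0, Q1), hρ0, hQ1, hMQ, hMc, hQc, huM, huQ, hvM, hvQ⟩
  clear hρ0 hQ1 hMQ hMc hQc huM huQ hvM hvQ
  obtain ⟨hρ, hQS, hMQ, hMc, hQc, ⟨m1, hm1, hm1u⟩, ⟨q1, hq1, hq1u⟩, ⟨m2, hm2, s2, hs2, hm2v⟩,
    ⟨q2, hq2, s3, hs3, hq2v⟩⟩ := id hDQ
  dsimp only at hρ hQS hMQ hMc hQc hm1u hq1 hq1u hm2v hq2 hq2v hmin
  have huM' : u ∉ M := fun h => (hM h).2 (Or.inl rfl)
  have hvM' : v ∉ M := fun h => (hM h).2 (Or.inr rfl)
  have huQ' : u ∉ Q := fun h => (hQS h).2 (Or.inl rfl)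
  have hvQ' : v ∉ Q := fun h => (hQS h).2 (Or.inr rfl)
  -- find the edge between Q and M
  obtain ⟨q0, hq0, m0, hm0, s0, hs0⟩ := hcn Q hQS ⟨q1, hq1⟩ ⟨m1, hM hm1, hMQ m1 hm1⟩
  have hm0M : m0 ∈ M := by
    by_contra hm0M
    have hm0u : m0 ≠ u := fun h => hm0.1.2 (Or.inl h)
    have hm0v : m0 ≠ v := fun h => hm0.1.2 (Or.inr h)
    set ρ' := Function.update ρ m0 (ρ q0 - x q0 m0 s0) with hρ'
    have hρne : ∀ z, z ≠ m0 → ρ' z = ρ z := fun z hz => by
      rw [hρ', Function.update_of_ne hz]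
    have hρM : ∀ z ∈ M, ρ' z = ρ z := fun z hz => hρne z (by rintro rfl; exact hm0M hz)
    have hρQ : ∀ z ∈ Q, ρ' z = ρ z := fun z hz => hρne z (by rintro rfl; exact hm0.2 hz)
    have hρu : ρ' u = ρ u := hρne u (Ne.symm hm0u)
    have hρv : ρ' v = ρ v := hρne v (Ne.symm hm0v)
    have htr : ∀ p q, ρ' p = ρ p → ρ' q = ρ q → G.Zr x ρ p q → G.Zr x ρ' p q := by
      rintro p q hp hq ⟨s, hs, h0⟩
      exact ⟨s, hs, by rw [hp, hq]; exact h0⟩
    have hD' : D (ρ', insert m0 Q) := by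
      refine ⟨?_, ?_, ?_, ?_, ?_, ?_, ?_, ?_, ?_⟩
      · dsimp only; rw [hρu, hρv]; exact hρ
      · rintro z (rfl | hz)
        · exact hm0.1
        · exact hQS hz
      · rintro z hz (rfl | hz')
        · exact hm0M hz
        · exact hMQ z hz hz'
      · exact hMc.mono' fun p hp q hq h => htr p q (hρM p hp) (hρM q hq) h
      · refine Cn.insert (Zr_symm hx ρ')
          (hQc.mono' fun p hp q hq h => htr p q (hρQ p hp) (hρQ q hq) h) hq0 ⟨s0, hs0, ?_⟩
        rw [hρQ q0 hq0, hρ', Function.update_self]; ring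
      · exact ⟨m1, hm1, htr _ _ (hρM _ hm1) hρu hm1u⟩
      · exact ⟨q1, Or.inr hq1, htr _ _ (hρQ _ hq1) hρu hq1u⟩
      · refine ⟨m2, hm2, s2, hs2, ?_⟩
        dsimp only; rw [hρv, hρM m2 hm2]; exact hm2v
      · refine ⟨q2, Or.inr hq2, s3, hs3, ?_⟩
        dsimp only; rw [hρv, hρQ q2 hq2]; exact hq2v
    have hlt : (insert m0 Q).ncard = Q.ncard + 1 :=
      Set.ncard_insert_of_notMem hm0.2 (Set.toFinite _)
    have hle : (insert m0 Q).ncard ≤ S.ncard :=
      Set.ncard_le_ncard (hD'.2.1.trans Set.sdiff_subset) (Set.toFinite _)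
    have := hmin _ hD'
    dsimp only at this
    omega
  -- its value
  have hMQne : ∀ z ∈ Q, z ∉ M := fun z hz hz' => hMQ z hz' hz
  have key1 : |x q0 m0 s0 + ρ m0 - ρ q0| ≤ 1 := by
    have h1 : Cn (G.Zr x ρ) (insert u M) := Cn.insert (Zr_symm hx ρ) hMc hm1 hm1u
    have h2 : Cn (G.Zr x ρ) (Q ∪ insert u M) :=
      hQc.union_edge (Zr_symm hx ρ) h1 hq1 (Or.inl rfl) hq1u
    exact hyp ρ hρ _ h2 q0 (Or.inl hq0) m0 (Or.inr (Or.inr hm0M)) s0 hs0
  have key2 : |x q0 m0 s0 + ρ m0 - ρ q0 + 2 * t| ≤ 1 := by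
    set ρ2 : V → ℤ := fun z => if z ∈ M then ρ z + t else if z ∈ Q then ρ z - t else ρ z with hρ2
    have hρM : ∀ z ∈ M, ρ2 z = ρ z + t := fun z hz => by simp [hρ2, hz]
    have hρQ : ∀ z ∈ Q, ρ2 z = ρ z - t := fun z hz => by simp [hρ2, hz, hMQne z hz]
    have hρu : ρ2 u = ρ u := by simp [hρ2, huM', huQ']
    have hρv : ρ2 v = ρ v := by simp [hρ2, hvM', hvQ']
    have h0 : Cn (G.Zr x ρ2) M := hMc.mono' (by
      rintro p hp q hq ⟨s, hs, h0⟩
      exact ⟨s, hs, by rw [hρM p hp, hρM q hq]; linarith⟩)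
    have h0' : Cn (G.Zr x ρ2) Q := hQc.mono' (by
      rintro p hp q hq ⟨s, hs, h0⟩
      exact ⟨s, hs, by rw [hρQ p hp, hρQ q hq]; linarith⟩)
    have h1 : Cn (G.Zr x ρ2) (insert v M) := Cn.insert (Zr_symm hx ρ2) h0 hm2 ⟨s2, hs2, by
      rw [hρv, hρM m2 hm2]; linarith⟩
    have h2 : Cn (G.Zr x ρ2) (Q ∪ insert v M) :=
      h0'.union_edge (Zr_symm hx ρ2) h1 hq2 (Or.inl rfl) ⟨s3, hs3, by
        rw [hρv, hρQ q2 hq2]; linarith⟩
    have := hyp ρ2 (by rw [hρu, hρv]; exact hρ) _ h2 q0 (Or.inl hq0) m0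
      (Or.inr (Or.inr hm0M)) s0 hs0
    rw [hρM m0 hm0M, hρQ q0 hq0] at this
    have e : x q0 m0 s0 + (ρ m0 + t) - (ρ q0 - t) = x q0 m0 s0 + ρ m0 - ρ q0 + 2 * t := by ring
    rwa [e] at this
  have key : x q0 m0 s0 + ρ m0 - ρ q0 = - t := by
    rw [abs_le] at key1 key2
    rcases abs_eq (by norm_num : (0 : ℤ) ≤ 1) |>.mp ht with h | h <;> omega
  have htodd : (t : ZMod 2) = 1 := by
    rcases abs_eq (by norm_num : (0 : ℤ) ≤ 1) |>.mp ht with h | h <;> rw [h] <;> decide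
  -- signs
  set X : V → ZMod 2 := fun z => (ρ z : ZMod 2) + (if z = u then 1 else 0) with hX
  have hXne : ∀ z, z ≠ u → X z = (ρ z : ZMod 2) := fun z hz => by simp [hX, hz]
  have hXu : X u = (ρ u : ZMod 2) + 1 := by simp [hX]
  have hsgn : ∀ a b s, G.E a b s → ∀ k : ℤ, x a b s + ρ b - ρ a = k →
      s = (k : ZMod 2) + (ρ a : ZMod 2) + (ρ b : ZMod 2) := by
    intro a b s hs k hk
    rw [← hpar a b s hs, ← hk]
    push_cast
    have := CharTwo.add_self_eq_zero (ρ b : ZMod 2)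
    linear_combination -this
  have hXZ : ∀ a b, a ≠ u → b ≠ u → G.Zr x ρ a b → G.E a b (X a + X b) := by
    rintro a b ha hb ⟨s, hs, h0⟩
    have := hsgn a b s hs 0 h0
    rw [hXne a ha, hXne b hb]
    rw [this] at hs
    simpa using hs
  have hXu' : ∀ a, a ≠ u → G.Zr x ρ a u → G.E a u (X a + X u + 1) := by
    rintro a ha ⟨s, hs, h0⟩
    have := hsgn a u s hs 0 h0
    rw [hXne a ha, hXu]
    have e : (ρ a : ZMod 2) + ((ρ u : ZMod 2) + 1) + 1 = s := by
      rw [this]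
      have := CharTwo.add_self_eq_zero (1 : ZMod 2)
      push_cast
      linear_combination this
    rw [e]; exact hs
  have hXodd : ∀ a b s k, a ≠ u → b ≠ u → G.E a b s → x a b s + ρ b - ρ a = k →
      (k : ZMod 2) = 1 → G.E a b (X a + X b + 1) := by
    intro a b s k ha hb hs hk hk1
    have := hsgn a b s hs k hk
    rw [hXne a ha, hXne b hb]
    have e : (ρ a : ZMod 2) + (ρ b : ZMod 2) + 1 = s := by
      rw [this, hk1]; ring
    rw [e]; exact hs
  have hneuv : u ≠ v := G.irr huv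
  have hQu : ∀ z ∈ Q, z ≠ u := fun z hz h => huQ' (h ▸ hz)
  have hMu : ∀ z ∈ M, z ≠ u := fun z hz h => huM' (h ▸ hz)
  have hQv : ∀ z ∈ Q, z ≠ v := fun z hz h => hvQ' (h ▸ hz)
  have hMv : ∀ z ∈ M, z ≠ v := fun z hz h => hvM' (h ▸ hz)
  have hsym : ∀ a b, G.E a b (X a + X b + 1) → G.E b a (X b + X a + 1) := by
    intro a b h
    rw [add_comm (X b) (X a)]; exact G.symm h
  -- the six edges
  have e1 : G.E u v (X u + X v + 1) := by
    rw [hXu, hXne v hneuv.symm, hρ]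
    have h1 := CharTwo.add_self_eq_zero (1 : ZMod 2)
    have h2 := CharTwo.add_self_eq_zero (ρ v : ZMod 2)
    have e : (ρ v : ZMod 2) + 1 + (ρ v : ZMod 2) + 1 = 0 := by linear_combination h1 + h2
    rw [e]; exact huv
  have e2 : G.E q1 u (X q1 + X u + 1) := hXu' _ (hQu _ hq1) hq1u
  have e3 : G.E m1 u (X m1 + X u + 1) := hXu' _ (hMu _ hm1) hm1u
  have e4 : G.E q2 v (X q2 + X v + 1) := hXodd _ _ _ _ (hQu _ hq2) hneuv.symm hs3 hq2v (by
    push_cast; rw [htodd]; decide)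
  have e5 : G.E m2 v (X m2 + X v + 1) := hXodd _ _ _ _ (hMu _ hm2) hneuv.symm hs2 hm2v htodd
  have e6 : G.E q0 m0 (X q0 + X m0 + 1) := hXodd _ _ _ _ (hQu _ hq0) (hMu _ hm0M) hs0 key (by
    push_cast; rw [htodd]; decide)
  refine ⟨X, ![{u}, {v}, Q, M], ?_, ?_, ?_, ?_⟩
  · intro i
    fin_cases i
    · exact ⟨u, rfl⟩
    · exact ⟨v, rfl⟩
    · exact ⟨q0, hq0⟩
    · exact ⟨m0, hm0M⟩
  · have hlt : ∀ i j : Fin 4, i < j → ∀ z ∈ (![{u}, {v}, Q, M] : Fin 4 → Set V) i,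
        z ∉ (![{u}, {v}, Q, M] : Fin 4 → Set V) j := by
      intro i j hij
      fin_cases i <;> fin_cases j <;> first
        | exact absurd hij (by decide)
        | (intro z hz hz'; simp at hz hz'; subst hz; first
            | exact hneuv hz'
            | exact huQ' hz'
            | exact huM' hz'
            | exact hvQ' hz'
            | exact hvM' hz')
        | (intro z hz hz'; exact hMQ z hz' hz)
    intro i j hij z hz hz'
    rcases lt_or_gt_of_ne hij with h | h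
    · exact hlt i j h z hz hz'
    · exact hlt j i h z hz' hz
  · intro i
    fin_cases i
    · exact Cn_singleton _ _
    · exact Cn_singleton _ _
    · exact hQc.mono' fun p hp q hq h => hXZ p q (hQu p hp) (hQu q hq) h
    · exact hMc.mono' fun p hp q hq h => hXZ p q (hMu p hp) (hMu q hq) h
  · have hlt : ∀ i j : Fin 4, i < j → ∃ a ∈ (![{u}, {v}, Q, M] : Fin 4 → Set V) i,
        ∃ b ∈ (![{u}, {v}, Q, M] : Fin 4 → Set V) j, G.E a b (X a + X b + 1) := by
      intro i j hij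
      fin_cases i <;> fin_cases j <;> first
        | exact absurd hij (by decide)
        | exact ⟨u, rfl, v, rfl, e1⟩
        | exact ⟨u, rfl, q1, hq1, hsym _ _ e2⟩
        | exact ⟨u, rfl, m1, hm1, hsym _ _ e3⟩
        | exact ⟨v, rfl, q2, hq2, hsym _ _ e4⟩
        | exact ⟨v, rfl, m2, hm2, hsym _ _ e5⟩
        | exact ⟨q0, hq0, m0, hm0M, e6⟩
    intro i j hij
    rcases lt_or_gt_of_ne hij with h | h
    · exact hlt i j h
    · obtain ⟨a, ha, b, hb, hab⟩ := hlt j i h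
      exact ⟨b, hb, a, ha, hsym _ _ hab⟩

end SG

theorem side {V : Type*} {r : V → V → Prop} (hr : ∀ a b, r a b → r b a) {A : Set V} {u v a : V}
    (hu : u ∈ A) (hv : v ∈ A) (huv : u ≠ v)
    (ha : a ∈ comp r (A \ {v}) u) (ha' : a ∉ comp r (A \ {u}) v) (hau : a ≠ u) :
    ∃ A1 : Set V, a ∈ A1 ∧ A1 ⊆ comp r (A \ {v}) u ∧ (∀ z ∈ A1, z ∉ comp r (A \ {u}) v) ∧
      A1 ⊆ A \ {u, v} ∧ Cn r A1 ∧ ∃ p ∈ A1, r p u := by
  have hu' : u ∈ A \ {v} := ⟨hu, huv⟩
  have hv' : v ∈ A \ {u} := ⟨hv, huv.symm⟩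
  have haA : a ∈ A \ {u, v} := by
    refine ⟨(comp_subset hu' ha).1, ?_⟩
    rintro (h | h)
    · exact hau h
    · exact (comp_subset hu' ha).2 h
  have hs : comp r (A \ {u, v}) a ⊆ A \ {u, v} := comp_subset haA
  have hs1 : comp r (A \ {u, v}) a ⊆ A \ {v} := fun z hz => ⟨(hs hz).1, fun h => (hs hz).2 (Or.inr h)⟩
  have hs2 : comp r (A \ {u, v}) a ⊆ A \ {u} := fun z hz => ⟨(hs hz).1, fun h => (hs hz).2 (Or.inl h)⟩
  have hcn : Cn r (comp r (A \ {u, v}) a) := Cn_comp hr haA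
  have hK : comp r (A \ {u, v}) a ⊆ comp r (A \ {v}) u :=
    subset_comp hu' hcn hs1 (mem_comp_self _ _ _) ha
  refine ⟨comp r (A \ {u, v}) a, mem_comp_self _ _ _, hK, ?_, hs, hcn, ?_⟩
  · intro z hz hz'
    exact ha' (subset_comp hv' hcn hs2 hz hz' (mem_comp_self _ _ _))
  · obtain ⟨m, hm, z, hz, hmz⟩ := Cn_comp hr hu' _ hK ⟨a, mem_comp_self _ _ _⟩
      ⟨u, mem_comp_self _ _ _, fun h => (hs h).2 (Or.inl rfl)⟩
    have hzu : z = u := by
      by_contra h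
      have hzS := comp_subset hu' hz.1
      exact hz.2 (comp_closed haA hm ⟨hzS.1, by
        rintro (h' | h')
        · exact h h'
        · exact hzS.2 h'⟩ hmz)
    subst hzu
    exact ⟨m, hm, hmz⟩

namespace SG

variable {V : Type*}

/-- the contraction lemma -/
theorem lemmaC [Finite V] {G : SG V} {S : Set V} (hSupp : G.Supp S)
    {x : V → V → ZMod 2 → ℤ} (hx : G.Anti x)
    (hpar : ∀ a b s, G.E a b s → ((x a b s : ℤ) : ZMod 2) = s) {u v : V} (huv : G.E u v 0)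
    (huv1 : ¬ G.E u v 1) (hx0 : x u v 0 = 0)
    (hcn : Cn G.Adj (S \ {u, v}))
    (hyp : ∀ (π : V → ℤ), π u = π v → ∀ A, Cn (G.Zr x π) A → ∀ a ∈ A, ∀ b ∈ A, ∀ s,
      G.E a b s → |x a b s + π b - π a| ≤ 1)
    (hno : ¬ G.OddK4) : G.Good x := by
  classical
  intro π A hA a0 ha0 b0 hb0 s0 hs0
  by_contra hbig
  have hneuv : u ≠ v := G.irr huv
  -- π u ≠ π v
  have hπ : π u ≠ π v := fun h => hbig (hyp π h A hA a0 ha0 b0 hb0 s0 hs0)
  -- u, v ∈ A
  have huA : u ∈ A := by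
    by_contra huA
    have hupd : ∀ z ∈ A, Function.update π u (π v) z = π z := fun z hz =>
      Function.update_of_ne (by rintro rfl; exact huA hz) _ _
    have := hyp (Function.update π u (π v))
      (by rw [Function.update_self, Function.update_of_ne hneuv.symm]) A
      (hA.mono' (by
        rintro p hp q hq ⟨s, hs, h0⟩
        exact ⟨s, hs, by rw [hupd p hp, hupd q hq]; exact h0⟩)) a0 ha0 b0 hb0 s0 hs0
    rw [hupd a0 ha0, hupd b0 hb0] at this
    exact hbig this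
  have hvA : v ∈ A := by
    by_contra hvA
    have hupd : ∀ z ∈ A, Function.update π v (π u) z = π z := fun z hz =>
      Function.update_of_ne (by rintro rfl; exact hvA hz) _ _
    have := hyp (Function.update π v (π u))
      (by rw [Function.update_self, Function.update_of_ne hneuv]) A
      (hA.mono' (by
        rintro p hp q hq ⟨s, hs, h0⟩
        exact ⟨s, hs, by rw [hupd p hp, hupd q hq]; exact h0⟩)) a0 ha0 b0 hb0 s0 hs0
    rw [hupd a0 ha0, hupd b0 hb0] at this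
    exact hbig this
  have hAS : A ⊆ S := by
    intro z hz
    have hneab := G.irr hs0
    obtain ⟨w, hwA, hwz⟩ : ∃ w ∈ A, w ≠ z := by
      by_cases h : z = a0
      · exact ⟨b0, hb0, by rw [h]; exact hneab.symm⟩
      · exact ⟨a0, ha0, fun h' => h h'.symm⟩
    obtain ⟨p, hp, q, hq, s, hs, _⟩ := hA {z} (by simpa using hz) ⟨z, rfl⟩ ⟨w, hwA, hwz⟩
    have : p = z := hp
    rw [← this]; exact hSupp _ _ _ hs
  have hZs := Zr_symm (G := G) hx π
  have hnot : ¬ G.Zr x π u v := by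
    rintro ⟨s, hs, h0⟩
    rcases zmod2_cases s with rfl | rfl
    · rw [hx0] at h0; exact hπ (by omega)
    · exact huv1 hs
  set t := π u - π v with ht
  have htne : t ≠ 0 := fun h => hπ (by omega)
  have hshift : ∀ K ⊆ A, u ∈ K → v ∉ K → Cn (G.Zr x π) K → Cn (G.Zr x π) (A \ K) →
      ∀ a ∈ A, ∀ b ∈ A, ∀ s, G.E a b s →
      |x a b s + (if b ∈ K then π b - t else π b) - (if a ∈ K then π a - t else π a)| ≤ 1 := by
    intro K hKA huK hvK hK hK' a ha b hb s hs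
    set π' : V → ℤ := fun z => if z ∈ K then π z - t else π z with hπ'
    have hin : ∀ z ∈ K, π' z = π z - t := fun z hz => by simp [hπ', hz]
    have hout : ∀ z, z ∉ K → π' z = π z := fun z hz => by simp [hπ', hz]
    have hAK : K ∪ (A \ K) = A := Set.union_sdiff_cancel hKA
    have : Cn (G.Zr x π') A := by
      rw [← hAK]
      refine Cn.union_edge (Zr_symm hx π') (hK.mono' ?_) (hK'.mono' ?_) huK
        (⟨hvA, hvK⟩ : v ∈ A \ K) ?_
      · rintro p hp q hq ⟨s, hs, h0⟩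
        exact ⟨s, hs, by rw [hin p hp, hin q hq]; linarith⟩
      · rintro p hp q hq ⟨s, hs, h0⟩
        exact ⟨s, hs, by rw [hout p hp.2, hout q hq.2]; linarith⟩
      · exact ⟨0, huv, by rw [hin u huK, hout v hvK, hx0]; omega⟩
    exact hyp π' (by rw [hin u huK, hout v hvK]; omega) A this a ha b hb s hs
  have hu' : u ∈ A \ {v} := ⟨huA, hneuv⟩
  have hv' : v ∈ A \ {u} := ⟨hvA, hneuv.symm⟩
  set Ku := comp (G.Zr x π) (A \ {v}) u with hKu
  set Kv := comp (G.Zr x π) (A \ {u}) v with hKv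
  have hKus : Ku ⊆ A \ {v} := comp_subset hu'
  have hKvs : Kv ⊆ A \ {u} := comp_subset hv'
  have huKu : u ∈ Ku := mem_comp_self _ _ _
  have hvKv : v ∈ Kv := mem_comp_self _ _ _
  have hvKu : v ∉ Ku := fun h => (hKus h).2 rfl
  have huKv : u ∉ Kv := fun h => (hKvs h).2 rfl
  have hKuc : Cn (G.Zr x π) Ku := Cn_comp hZs hu'
  have hKvc : Cn (G.Zr x π) Kv := Cn_comp hZs hv'
  have hKuc' : Cn (G.Zr x π) (A \ Ku) := Cn_diff_comp hZs hA hvA hu'
  have hKvc' : Cn (G.Zr x π) (A \ Kv) := Cn_diff_comp hZs hA huA hv'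
  have hAKu : A \ Ku ⊆ Kv := subset_comp hv' hKuc' (fun z hz => ⟨hz.1, by
      intro h
      have : z = u := h
      rw [this] at hz; exact hz.2 huKu⟩) (z := v) ⟨hvA, hvKu⟩ hvKv
  have hsu := hshift Ku (hKus.trans Set.sdiff_subset) huKu hvKu hKuc hKuc'
  have hsv := hshift (A \ Kv) Set.sdiff_subset ⟨huA, huKv⟩ (fun h => h.2 hvKv) hKvc' (by
    rw [Set.sdiff_sdiff_cancel_left (hKvs.trans Set.sdiff_subset)]; exact hKvc)
  obtain ⟨w, hwA, hwKu, hwv, m, hmM, hmu⟩ := Mtrick hZs hA huA hvA hneuv hnot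
  have ht1 : |t| = 1 := by
    obtain ⟨s, hs, h0⟩ := hwv
    have := hsu w hwA.1 v hvA s hs
    rw [if_neg hvKu, if_pos hwKu] at this
    have e : x w v s + π v - (π w - t) = t := by linarith
    rw [e, abs_le] at this
    rcases lt_or_gt_of_ne htne with h | h
    · have : t = -1 := by omega
      rw [this]; rfl
    · have : t = 1 := by omega
      rw [this]; rfl
  set M := comp (G.Zr x π) (A \ {u, v}) w with hM
  have hMs : M ⊆ A \ {u, v} := comp_subset hwA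
  have hMc : Cn (G.Zr x π) M := Cn_comp hZs hwA
  have hMKu : M ⊆ Ku := subset_comp hu' hMc (fun z hz => ⟨(hMs hz).1, fun h => (hMs hz).2 (Or.inr h)⟩)
    (mem_comp_self _ _ _) hwKu
  have hwKv : w ∈ Kv := comp_closed hv' hvKv ⟨hwA.1, fun h => hwA.2 (Or.inl h)⟩ (hZs _ _ hwv)
  have hMKv : M ⊆ Kv := subset_comp hv' hMc (fun z hz => ⟨(hMs hz).1, fun h => (hMs hz).2 (Or.inl h)⟩)
    (mem_comp_self _ _ _) hwKv
  have huM : u ∉ M := fun h => (hMs h).2 (Or.inl rfl)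
  have hvM : v ∉ M := fun h => (hMs h).2 (Or.inr rfl)
  have hwM : w ∈ M := mem_comp_self _ _ _
  have hMS : M ⊆ S \ {u, v} := fun z hz => ⟨hAS (hMs hz).1, (hMs hz).2⟩
  -- main claim
  have main : ∀ a ∈ A, ∀ b ∈ A, ∀ s, G.E a b s → ¬ |x a b s + π b - π a| ≤ 1 →
      a ∈ Ku → b ∉ Ku → False := by
    intro a haA b hbA s hs hbig haKu hbKu
    have hbKv : b ∈ Kv := hAKu ⟨hbA, hbKu⟩
    have h1 := hsu a haA b hbA s hs
    rw [if_neg hbKu, if_pos haKu] at h1
    have h2 := hsv a haA b hbA s hs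
    rw [if_neg (fun h : b ∈ A \ Kv => h.2 hbKv)] at h2
    have haKv : a ∉ Kv := by
      intro h
      rw [if_neg (fun h' : a ∈ A \ Kv => h'.2 h)] at h2
      exact hbig h2
    set d := x a b s + π b - π a with hd
    have hdt : d = - 2 * t := by
      have e : x a b s + π b - (π a - t) = d + t := by rw [hd]; ring
      rw [e, abs_le] at h1
      rw [abs_le] at hbig
      rcases abs_eq (by norm_num : (0 : ℤ) ≤ 1) |>.mp ht1 with h | h <;> omega
    have hav : a ≠ v := by rintro rfl; exact haKv hvKv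
    have hbu : b ≠ u := by rintro rfl; exact hbKu huKu
    by_cases hau : a = u
    · by_cases hbv : b = v
      · subst hau; subst hbv
        rcases zmod2_cases s with rfl | rfl
        · rw [hx0] at hd
          apply hbig
          rw [abs_le]
          rcases abs_eq (by norm_num : (0 : ℤ) ≤ 1) |>.mp ht1 with h | h <;> omega
        · exact huv1 hs
      · -- a = u, b ≠ v
        have hKcomm : comp (G.Zr x π) (A \ {v}) u = Ku := rfl
        obtain ⟨B1, hbB1, hB1Kv, hB1Ku, hB1s, hB1c, p, hp, hpv⟩ :=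
          side hZs hvA huA hneuv.symm hbKv hbKu hbv
        rw [Set.pair_comm] at hB1s
        set ρ : V → ℤ := fun z => if z ∈ B1 then π z - d else if z = v then π u else π z with hρ
        have hρB : ∀ z ∈ B1, ρ z = π z - d := fun z hz => by simp [hρ, hz]
        have hρM : ∀ z ∈ M, ρ z = π z := fun z hz => by
          have h1 : z ∉ B1 := fun h => hB1Ku z h (hMKu hz)
          have h2 : z ≠ v := by rintro rfl; exact hvM hz
          simp [hρ, h1, h2]
        have huB1 : u ∉ B1 := fun h => (hB1s h).2 (Or.inl rfl)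
        have hvB1 : v ∉ B1 := fun h => (hB1s h).2 (Or.inr rfl)
        have hρu : ρ u = π u := by simp [hρ, huB1, hneuv]
        have hρv : ρ v = π u := by simp [hρ, hvB1]
        refine hno (lemmaC2 hx hpar huv hcn hyp (ρ0 := ρ) (by rw [hρu, hρv]) ht1
          (M := M) (Q1 := B1) hMS (fun z hz => ⟨hAS (hB1s hz).1, (hB1s hz).2⟩)
          (fun z hz h => hB1Ku z h (hMKu hz)) ?_ ?_ ?_ ?_ ?_ ?_)
        · refine hMc.mono' ?_
          rintro p hp q hq ⟨s, hs, h0⟩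
          exact ⟨s, hs, by rw [hρM p hp, hρM q hq]; exact h0⟩
        · refine hB1c.mono' ?_
          rintro p hp q hq ⟨s, hs, h0⟩
          exact ⟨s, hs, by rw [hρB p hp, hρB q hq]; linarith⟩
        · obtain ⟨s, hs, h0⟩ := hmu
          exact ⟨m, hmM, s, hs, by rw [hρM m hmM, hρu]; exact h0⟩
        · refine ⟨b, hbB1, Zr_symm hx ρ _ _ ⟨s, hau ▸ hs, ?_⟩⟩
          rw [hρB b hbB1, hρu, ← hau]; rw [hd]; ring
        · obtain ⟨s, hs, h0⟩ := hwv
          refine ⟨w, hwM, s, hs, ?_⟩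
          rw [hρM w hwM, hρv]; linarith
        · obtain ⟨s, hs, h0⟩ := hpv
          refine ⟨p, hp, s, hs, ?_⟩
          rw [hρB p hp, hρv]; linarith
    · obtain ⟨A1, haA1, hA1Ku, hA1Kv, hA1s, hA1c, p, hp, hpu⟩ :=
        side hZs huA hvA hneuv haKu haKv hau
      by_cases hbv : b = v
      · -- a ≠ u, b = v
        set ρ : V → ℤ := fun z => if z = v then π u else π z with hρ
        have hρne : ∀ z, z ≠ v → ρ z = π z := fun z hz => by simp [hρ, hz]
        have hρM : ∀ z ∈ M, ρ z = π z := fun z hz => hρne z (by rintro rfl; exact hvM hz)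
        have hρA : ∀ z ∈ A1, ρ z = π z := fun z hz => hρne z (by
          rintro rfl; exact (hA1s hz).2 (Or.inr rfl))
        have hρu : ρ u = π u := hρne u hneuv
        have hρv : ρ v = π u := by simp [hρ]
        refine hno (lemmaC2 hx hpar huv hcn hyp (ρ0 := ρ) (by rw [hρu, hρv]) ht1
          (M := M) (Q1 := A1) hMS (fun z hz => ⟨hAS (hA1s hz).1, (hA1s hz).2⟩)
          (fun z hz h => hA1Kv z h (hMKv hz)) ?_ ?_ ?_ ?_ ?_ ?_)
        · refine hMc.mono' ?_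
          rintro p hp q hq ⟨s, hs, h0⟩
          exact ⟨s, hs, by rw [hρM p hp, hρM q hq]; exact h0⟩
        · refine hA1c.mono' ?_
          rintro p hp q hq ⟨s, hs, h0⟩
          exact ⟨s, hs, by rw [hρA p hp, hρA q hq]; linarith⟩
        · obtain ⟨s, hs, h0⟩ := hmu
          exact ⟨m, hmM, s, hs, by rw [hρM m hmM, hρu]; exact h0⟩
        · obtain ⟨s, hs, h0⟩ := hpu
          exact ⟨p, hp, s, hs, by rw [hρA p hp, hρu]; exact h0⟩
        · obtain ⟨s, hs, h0⟩ := hwv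
          refine ⟨w, hwM, s, hs, ?_⟩
          rw [hρM w hwM, hρv]; linarith
        · refine ⟨a, haA1, s, hbv ▸ hs, ?_⟩
          rw [hρA a haA1, hρv, ← hbv]
          rw [hbv] at hd ⊢
          linarith
      · -- a ≠ u, b ≠ v
        obtain ⟨B1, hbB1, hB1Kv, hB1Ku, hB1s, hB1c, p', hp', hpv⟩ :=
          side hZs hvA huA hneuv.symm hbKv hbKu hbv
        rw [Set.pair_comm] at hB1s
        set ρ : V → ℤ := fun z => if z ∈ B1 then π z - d else if z = v then π u else π z with hρ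
        have hρB : ∀ z ∈ B1, ρ z = π z - d := fun z hz => by simp [hρ, hz]
        have hρM : ∀ z ∈ M, ρ z = π z := fun z hz => by
          have h1 : z ∉ B1 := fun h => hB1Ku z h (hMKu hz)
          have h2 : z ≠ v := by rintro rfl; exact hvM hz
          simp [hρ, h1, h2]
        have hρA : ∀ z ∈ A1, ρ z = π z := fun z hz => by
          have h1 : z ∉ B1 := fun h => hB1Ku z h (hA1Ku hz)
          have h2 : z ≠ v := by rintro rfl; exact (hA1s hz).2 (Or.inr rfl)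
          simp [hρ, h1, h2]
        have huB1 : u ∉ B1 := fun h => (hB1s h).2 (Or.inl rfl)
        have hvB1 : v ∉ B1 := fun h => (hB1s h).2 (Or.inr rfl)
        have hρu : ρ u = π u := by simp [hρ, huB1, hneuv]
        have hρv : ρ v = π u := by simp [hρ, hvB1]
        refine hno (lemmaC2 hx hpar huv hcn hyp (ρ0 := ρ) (by rw [hρu, hρv]) ht1
          (M := M) (Q1 := A1 ∪ B1) hMS ?_ ?_ ?_ ?_ ?_ ?_ ?_ ?_)
        · rintro z (hz | hz)
          · exact ⟨hAS (hA1s hz).1, (hA1s hz).2⟩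
          · exact ⟨hAS (hB1s hz).1, (hB1s hz).2⟩
        · rintro z hz (h | h)
          · exact hA1Kv z h (hMKv hz)
          · exact hB1Ku z h (hMKu hz)
        · refine hMc.mono' ?_
          rintro p hp q hq ⟨s, hs, h0⟩
          exact ⟨s, hs, by rw [hρM p hp, hρM q hq]; exact h0⟩
        · refine Cn.union_edge (Zr_symm hx ρ) (hA1c.mono' ?_) (hB1c.mono' ?_) haA1 hbB1
            ⟨s, hs, ?_⟩
          · rintro p hp q hq ⟨s, hs, h0⟩
            exact ⟨s, hs, by rw [hρA p hp, hρA q hq]; linarith⟩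
          · rintro p hp q hq ⟨s, hs, h0⟩
            exact ⟨s, hs, by rw [hρB p hp, hρB q hq]; linarith⟩
          · rw [hρA a haA1, hρB b hbB1, hd]; ring
        · obtain ⟨s, hs, h0⟩ := hmu
          exact ⟨m, hmM, s, hs, by rw [hρM m hmM, hρu]; exact h0⟩
        · obtain ⟨s, hs, h0⟩ := hpu
          exact ⟨p, Or.inl hp, s, hs, by rw [hρA p hp, hρu]; exact h0⟩
        · obtain ⟨s, hs, h0⟩ := hwv
          refine ⟨w, hwM, s, hs, ?_⟩
          rw [hρM w hwM, hρv]; linarith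
        · obtain ⟨s, hs, h0⟩ := hpv
          refine ⟨p', Or.inr hp', s, hs, ?_⟩
          rw [hρB p' hp', hρv]; linarith
  have h1 := hsu a0 ha0 b0 hb0 s0 hs0
  by_cases haK : a0 ∈ Ku
  · by_cases hbK : b0 ∈ Ku
    · rw [if_pos hbK, if_pos haK] at h1
      apply hbig
      have e : x a0 b0 s0 + (π b0 - t) - (π a0 - t) = x a0 b0 s0 + π b0 - π a0 := by ring
      rwa [e] at h1
    · exact main a0 ha0 b0 hb0 s0 hs0 hbig haK hbK
  · by_cases hbK : b0 ∈ Ku
    · refine main b0 hb0 a0 ha0 s0 (G.symm hs0) ?_ hbK haK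
      rw [hx a0 b0 s0 hs0, ← abs_neg]
      have e : -(-x a0 b0 s0 + π a0 - π b0) = x a0 b0 s0 + π b0 - π a0 := by ring
      rwa [e]
    · rw [if_neg hbK, if_neg haK] at h1
      exact hbig h1

end SG

end Pool.Agent.H55.K4
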