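import Pool.Agent.H55.K4.Basic

set_option autoImplicit false

namespace Pool.Agent.H55.K4

variable {V : Type*}

theorem exists_min {α : Type*} (Q : α → Prop) (f : α → ℕ) (h : ∃ a, Q a) :
    ∃ a, Q a ∧ ∀ b, Q b → f a ≤ f b := by
  classical
  have h' : ∃ n, ∃ a, Q a ∧ f a = n := by
    obtain ⟨a, ha⟩ := h
    exact ⟨f a, a, ha, rfl⟩
  obtain ⟨a, ha, hfa⟩ := Nat.find_spec h'
  refine ⟨a, ha, fun b hb => ?_⟩
  rw [hfa]
  exact Nat.find_min' h' ⟨b, hb, rfl⟩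

/-- the crossing lemma -/
theorem lemmaX [Finite V] {Z P N : V → V → Prop} (hZ : ∀ a b, Z a b → Z b a)
    (hP : ∀ a b, P a b → P b a) (hN : ∀ a b, N a b → N b a) {S : Set V}
    (hNS : ∀ a b, N a b → a ∈ S ∧ b ∈ S ∧ a ≠ b)
    (hPS : ∀ a b, P a b → a ∈ S ∧ b ∈ S ∧ a ≠ b)
    (hcn : Cn Z S)
    (h2 : ∀ p ∈ S, Cn (fun a b => Z a b ∨ P a b ∨ N a b) (S \ {p}))
    (hPne : ∃ a b, P a b) (hNne : ∃ a b, N a b) :
    ∃ A ⊆ S, Cn Z A ∧ Cn Z (S \ A) ∧ (∃ a ∈ A, ∃ b ∈ S \ A, P a b) ∧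
      (∃ a ∈ A, ∃ b ∈ S \ A, N a b) := by
  by_contra hcon
  have hno : ∀ A ⊆ S, Cn Z A → Cn Z (S \ A) → (∃ a ∈ A, ∃ b ∈ S \ A, P a b) →
      ∀ a ∈ A, ∀ b ∈ S \ A, ¬ N a b := by
    intro A h1 h2 h3 h4 a ha b hb hab
    exact hcon ⟨A, h1, h2, h3, h4, a, ha, b, hb, hab⟩
  clear hcon
  set Q : Set V → Prop := fun A => A ⊆ S ∧ Cn Z A ∧ Cn Z (S \ A) ∧
    (∃ a ∈ A, ∃ b ∈ S \ A, P a b) ∧ (∃ c ∈ A, ∃ d ∈ A, N c d) with hQ
  have hQe : ∃ A, Q A := by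
    obtain ⟨a, b, hab⟩ := hPne
    obtain ⟨haS, hbS, hne⟩ := hPS a b hab
    obtain ⟨A, hAS, haA, hbA, hA, hSA⟩ := exists_cut hZ hcn haS hbS hne
    obtain ⟨c, d, hcd⟩ := hNne
    obtain ⟨hcS, hdS, _⟩ := hNS c d hcd
    have hno' := hno A hAS hA hSA ⟨a, haA, b, ⟨hbS, hbA⟩, hab⟩
    by_cases hcA : c ∈ A
    · have hdA : d ∈ A := by
        by_contra h
        exact hno' c hcA d ⟨hdS, h⟩ hcd
      exact ⟨A, hAS, hA, hSA, ⟨a, haA, b, ⟨hbS, hbA⟩, hab⟩, ⟨c, hcA, d, hdA, hcd⟩⟩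
    · have hdA : d ∉ A := by
        intro h
        exact hno' d h c ⟨hcS, hcA⟩ (hN _ _ hcd)
      refine ⟨S \ A, Set.sdiff_subset, hSA, ?_, ?_, ⟨c, ⟨hcS, hcA⟩, d, ⟨hdS, hdA⟩, hcd⟩⟩
      · rwa [Set.sdiff_sdiff_cancel_left hAS]
      · rw [Set.sdiff_sdiff_cancel_left hAS]
        exact ⟨b, ⟨hbS, hbA⟩, a, haA, hP _ _ hab⟩
  obtain ⟨A, hQA, hAmin⟩ := exists_min Q Set.ncard hQe
  obtain ⟨hAS, hA, hSA, ⟨a, haA, b, hbB, hab⟩, ⟨c0, hc0, d0, hd0, hcd0⟩⟩ := hQA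
  have hnoA := hno A hAS hA hSA ⟨a, haA, b, hbB, hab⟩
  set R : V × V → Prop := fun pc => pc.1 ∈ A ∧ (∃ q ∈ S \ A, Z pc.1 q) ∧ pc.2 ∈ A \ {pc.1} ∧
    ∃ d ∈ A, N pc.2 d with hR
  have hRe : ∃ pc, R pc := by
    obtain ⟨p, hp, q, hq, hpq⟩ := hcn A hAS ⟨a, haA⟩ ⟨b, hbB⟩
    by_cases h : c0 = p
    · refine ⟨(p, d0), hp, ⟨q, hq, hpq⟩, ⟨hd0, ?_⟩, c0, hc0, hN _ _ hcd0⟩
      intro h'
      have h'' : d0 = p := h'
      exact (hNS _ _ hcd0).2.2 (h.trans h''.symm)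
    · exact ⟨(p, c0), hp, ⟨q, hq, hpq⟩, ⟨hc0, h⟩, d0, hd0, hcd0⟩
  have hunion : ∀ K ⊆ A, (A \ K) ∪ (S \ A) = S \ K := by
    intro K hK
    ext z
    constructor
    · rintro (h | h)
      · exact ⟨hAS h.1, h.2⟩
      · exact ⟨h.1, fun h' => h.2 (hK h')⟩
    · intro h
      by_cases hz : z ∈ A
      · exact Or.inl ⟨hz, h.2⟩
      · exact Or.inr ⟨h.1, hz⟩
  -- facts
  have hfact : ∀ p c, R (p, c) → ∀ k ∈ comp Z (A \ {p}) c, ∀ q ∈ S \ comp Z (A \ {p}) c,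
      ¬ P k q := by
    rintro p c ⟨hp, ⟨q, hq, hpq⟩, hc, ⟨d, hd, hcd⟩⟩ k hk r hr hkr
    dsimp only at hp hpq hc hcd
    have hKs : comp Z (A \ {p}) c ⊆ A \ {p} := comp_subset hc
    have hKA : comp Z (A \ {p}) c ⊆ A := fun z hz => (hKs hz).1
    have hpK : p ∉ comp Z (A \ {p}) c := fun h => (hKs h).2 rfl
    have h1 : Cn Z (comp Z (A \ {p}) c) := Cn_comp hZ hc
    have h3 : Cn Z (A \ comp Z (A \ {p}) c) := Cn_diff_comp hZ hA hp hc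
    have h4 : Cn Z (S \ comp Z (A \ {p}) c) := by
      rw [← hunion _ hKA]
      exact h3.union_edge hZ hSA ⟨hp, hpK⟩ hq hpq
    have hno' := hno _ (hKA.trans hAS) h1 h4 ⟨k, hk, r, hr, hkr⟩
    have hdK : d ∈ comp Z (A \ {p}) c := by
      by_contra h
      exact hno' c (mem_comp_self _ _ _) d ⟨hAS hd, h⟩ hcd
    have hQK : Q (comp Z (A \ {p}) c) :=
      ⟨hKA.trans hAS, h1, h4, ⟨k, hk, r, hr, hkr⟩, ⟨c, mem_comp_self _ _ _, d, hdK, hcd⟩⟩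
    have hlt : (comp Z (A \ {p}) c).ncard < A.ncard :=
      Set.ncard_lt_ncard ⟨hKA, fun h => hpK (h hp)⟩ (Set.toFinite _)
    exact absurd (hAmin _ hQK) (not_le.mpr hlt)
  obtain ⟨⟨p, c⟩, hRpc, hmin⟩ := exists_min R (fun pc => (comp Z (A \ {pc.1}) pc.2).ncard) hRe
  obtain ⟨hp, ⟨q0, hq0, hpq0⟩, hc, ⟨d, hd, hcd⟩⟩ := id hRpc
  dsimp only at hp hpq0 hc hcd hmin
  have hZN : ∀ a b, (Z a b ∨ N a b) → (Z b a ∨ N b a) := fun a b h => h.imp (hZ a b) (hN a b)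
  have hKK : comp (fun a b => Z a b ∨ N a b) (A \ {p}) c ⊆ A \ {p} := comp_subset hc
  obtain ⟨k, hk, q, hq, hkq⟩ := h2 p (hAS hp) (comp (fun a b => Z a b ∨ N a b) (A \ {p}) c)
    (fun z hz => ⟨hAS (hKK hz).1, (hKK hz).2⟩) ⟨c, mem_comp_self _ _ _⟩
    ⟨q0, ⟨hq0.1, fun h => hq0.2 (by
      have : q0 = p := h
      rw [this]; exact hp)⟩, fun h => hq0.2 (hKK h).1⟩
  have hkA : k ∈ A \ {p} := hKK hk
  set K := comp Z (A \ {p}) k with hKdef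
  have hKs : K ⊆ A \ {p} := comp_subset hkA
  have hKA : K ⊆ A := fun z hz => (hKs hz).1
  have hpK : p ∉ K := fun h => (hKs h).2 rfl
  have hKcn : Cn Z K := Cn_comp hZ hkA
  have hKKK : K ⊆ comp (fun a b => Z a b ∨ N a b) (A \ {p}) c :=
    subset_comp hc (hKcn.mono fun _ _ h => Or.inl h) hKs (mem_comp_self _ _ _) hk
  have hqK : q ∈ S \ K := ⟨hq.1.1, fun h => hq.2 (hKKK h)⟩
  -- the edge is a Z-edge to the other side
  have hZkq : (∀ k' ∈ K, ∀ q' ∈ S \ K, ¬ P k' q') → q ∈ S \ A ∧ Z k q := by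
    intro hnoP
    have hqA : q ∉ A → q ∈ S \ A := fun h => ⟨hq.1.1, h⟩
    rcases hkq with h | h | h
    · refine ⟨hqA fun h' => hq.2 ?_, h⟩
      exact comp_closed hc hk ⟨h', hq.1.2⟩ (Or.inl h)
    · exact absurd h (hnoP k (mem_comp_self _ _ _) q hqK)
    · exfalso
      by_cases h' : q ∈ A
      · exact hq.2 (comp_closed hc hk ⟨h', hq.1.2⟩ (Or.inr h))
      · exact hnoA k hkA.1 q (hqA h') h
  by_cases hleave : ∃ n1 ∈ K, ∃ n2 ∈ A \ K, N n1 n2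
  · obtain ⟨n1, hn1, n2, hn2, hn12⟩ := hleave
    have hKeq : comp Z (A \ {p}) n1 = K := comp_eq hZ hkA hn1
    have hR1 : R (p, n1) := ⟨hp, ⟨q0, hq0, hpq0⟩, hKs hn1, n2, hn2.1, hn12⟩
    have hf := hfact p n1 hR1
    rw [hKeq] at hf
    obtain ⟨hqB, hkqZ⟩ := hZkq hf
    have haK : a ∉ K := fun h => hf a h b ⟨hbB.1, fun h' => hbB.2 (hKA h')⟩ hab
    have h3 : Cn Z (A \ K) := Cn_diff_comp hZ hA hp hkA
    have hS' : (S \ A) ∪ K = S \ (A \ K) := by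
      ext z
      constructor
      · rintro (h | h)
        · exact ⟨h.1, fun h' => h.2 h'.1⟩
        · exact ⟨hAS (hKA h), fun h' => h'.2 h⟩
      · intro h
        by_cases hz : z ∈ K
        · exact Or.inr hz
        · exact Or.inl ⟨h.1, fun h' => h.2 ⟨h', hz⟩⟩
    have h4 : Cn Z (S \ (A \ K)) := by
      rw [← hS']
      exact hSA.union_edge hZ hKcn hqB (mem_comp_self _ _ _) (hZ _ _ hkqZ)
    exact hno (A \ K) (fun z hz => hAS hz.1) h3 h4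
      ⟨a, ⟨haA, haK⟩, b, ⟨hbB.1, fun h => hbB.2 h.1⟩, hab⟩ n2 hn2 n1
      ⟨hAS (hKA hn1), fun h => h.2 hn1⟩ (hN _ _ hn12)
  · push Not at hleave
    have hcK : c ∈ K := by
      by_contra hcK
      obtain ⟨z, hz, w, hw, hzw⟩ := Cn_comp hZN hc K hKKK ⟨k, mem_comp_self _ _ _⟩
        ⟨c, mem_comp_self _ _ _, hcK⟩
      rcases hzw with h | h
      · exact hw.2 (comp_closed hkA hz (hKK hw.1) h)
      · exact hleave z hz w ⟨(hKK hw.1).1, hw.2⟩ h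
    have hKeq : comp Z (A \ {p}) c = K := comp_eq hZ hkA hcK
    have hf := hfact p c hRpc
    rw [hKeq] at hf
    obtain ⟨hqB, hkqZ⟩ := hZkq hf
    have hdK : d ∈ K := by
      by_contra h
      exact hleave c hcK d ⟨hd, h⟩ hcd
    -- new endpoint
    have : ∃ c' ∈ K, c' ≠ k ∧ ∃ d' ∈ A, N c' d' := by
      by_cases h : c = k
      · refine ⟨d, hdK, fun h' => (hNS _ _ hcd).2.2 (h.trans h'.symm), c, hc.1, hN _ _ hcd⟩
      · exact ⟨c, hcK, h, d, hd, hcd⟩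
    obtain ⟨c', hc'K, hc'k, d', hd', hcd'⟩ := this
    have hc'A : c' ∈ A \ {k} := ⟨hKA hc'K, hc'k⟩
    have hR' : R (k, c') := ⟨hkA.1, ⟨q, hqB, hkqZ⟩, hc'A, d', hd', hcd'⟩
    have hf' := hfact k c' hR'
    have hK's : comp Z (A \ {k}) c' ⊆ A \ {k} := comp_subset hc'A
    have haK : a ∉ K := fun h => hf a h b ⟨hbB.1, fun h' => hbB.2 (hKA h')⟩ hab
    have hpK' : p ∉ comp Z (A \ {k}) c' := by
      intro hpK'
      have h3 : Cn Z (A \ K) := Cn_diff_comp hZ hA hp hkA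
      have h5 : A \ K ⊆ comp Z (A \ {k}) c' :=
        subset_comp hc'A h3 (fun z hz => ⟨hz.1, fun h => hz.2 (by
          have : z = k := h
          rw [this]; exact mem_comp_self _ _ _)⟩) (z := p) ⟨hp, hpK⟩ hpK'
      exact hf' a (h5 ⟨haA, haK⟩) b ⟨hbB.1, fun h => hbB.2 (hK's h).1⟩ hab
    have hsub : comp Z (A \ {k}) c' ⊆ K := by
      apply subset_comp hkA (Cn_comp hZ hc'A) _ (mem_comp_self _ _ _) hc'K
      intro z hz
      refine ⟨(hK's hz).1, ?_⟩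
      intro h
      have : z = p := h
      rw [this] at hz
      exact hpK' hz
    have hlt : (comp Z (A \ {k}) c').ncard < K.ncard :=
      Set.ncard_lt_ncard ⟨hsub, fun h => (hK's (h (mem_comp_self _ _ _))).2 rfl⟩ (Set.toFinite _)
    have := hmin (k, c') hR'
    dsimp only at this
    rw [hKeq] at this
    omega

end Pool.Agent.H55.K4
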