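import Pool.Agent.H55.K4.Sep

set_option autoImplicit false

namespace Pool.Agent.H55.K4

namespace SG

variable {V : Type*}

open Classical in
/-- lengths with prescribed values between `x` and `y` -/
noncomputable def lenp (len : V → V → ZMod 2 → ℕ) (x y : V) (vl : ZMod 2 → ℕ) :
    V → V → ZMod 2 → ℕ :=
  fun a b t => if (a = x ∧ b = y) ∨ (a = y ∧ b = x) then vl t else len a b t

theorem lenp_xy (len : V → V → ZMod 2 → ℕ) (x y : V) (vl : ZMod 2 → ℕ) {a b : V}
    (h : (a = x ∧ b = y) ∨ (a = y ∧ b = x)) (t : ZMod 2) : lenp len x y vl a b t = vl t := by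
  simp only [lenp, if_pos h]

theorem lenp_ne (len : V → V → ZMod 2 → ℕ) (x y : V) (vl : ZMod 2 → ℕ) {a b : V}
    (h : ¬ ((a = x ∧ b = y) ∨ (a = y ∧ b = x))) (t : ZMod 2) :
    lenp len x y vl a b t = len a b t := by
  simp only [lenp, if_neg h]

theorem lenOK_plus {G : SG V} {par : V → ZMod 2} {len : V → V → ZMod 2 → ℕ}
    (hl : G.LenOK par len) {T : Set V} {x y : V} (hxy : x ≠ y) {Q : ZMod 2 → Prop}
    {vl : ZMod 2 → ℕ} (hv1 : par x = par y → ∀ t, vl t = 2)
    (hv2 : par x ≠ par y → ∀ t, vl t = 1 ∨ vl t = 3) (hv3 : 4 ≤ vl 0 + vl 1) :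
    (G.plus T x y hxy Q).LenOK par (lenp len x y vl) := by
  refine ⟨?_, ?_, ?_, ?_⟩
  · intro a b s hab
    by_cases h : (a = x ∧ b = y) ∨ (a = y ∧ b = x)
    · rw [lenp_xy _ _ _ _ h, lenp_xy _ _ _ _ (by tauto)]
    · rw [lenp_ne _ _ _ _ h, lenp_ne _ _ _ _ (by tauto)]
      rcases hab with h' | h'
      · exact hl.symm a b s h'.1
      · exact absurd h'.2 h
  · intro a b s hab hp
    by_cases h : (a = x ∧ b = y) ∨ (a = y ∧ b = x)
    · rw [lenp_xy _ _ _ _ h]
      apply hv1
      rcases h with ⟨rfl, rfl⟩ | ⟨rfl, rfl⟩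
      · exact hp
      · exact hp.symm
    · rw [lenp_ne _ _ _ _ h]
      rcases hab with h' | h'
      · exact hl.same a b s h'.1 hp
      · exact absurd h'.2 h
  · intro a b s hab hp
    by_cases h : (a = x ∧ b = y) ∨ (a = y ∧ b = x)
    · rw [lenp_xy _ _ _ _ h]
      apply hv2
      rcases h with ⟨rfl, rfl⟩ | ⟨rfl, rfl⟩
      · exact hp
      · exact hp.symm
    · rw [lenp_ne _ _ _ _ h]
      rcases hab with h' | h'
      · exact hl.diff a b s h'.1 hp
      · exact absurd h'.2 h
  · intro a b h0 h1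
    by_cases h : (a = x ∧ b = y) ∨ (a = y ∧ b = x)
    · rw [lenp_xy _ _ _ _ h, lenp_xy _ _ _ _ h]; exact hv3
    · rw [lenp_ne _ _ _ _ h, lenp_ne _ _ _ _ h]
      rcases h0 with h' | h'
      · rcases h1 with h'' | h''
        · exact hl.dig a b h'.1 h''.1
        · exact absurd h''.2 h
      · exact absurd h'.2 h

theorem plus_supp {G : SG V} {S : Set V} {x y : V} {I1 I2 : Set V} (h : Sep G S x y I1 I2)
    (Q : ZMod 2 → Prop) :
    (G.plus (insert x (insert y I1)) x y h.hxy Q).Supp (insert x (insert y I1)) := by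
  rintro a b s (h' | ⟨_, ⟨rfl, rfl⟩ | ⟨rfl, rfl⟩⟩)
  · exact h'.2.1
  · exact Or.inl rfl
  · exact Or.inr (Or.inl rfl)

theorem Sep.ncard_lt [Finite V] {G : SG V} {S : Set V} {x y : V} {I1 I2 : Set V}
    (h : Sep G S x y I1 I2) : (insert x (insert y I1)).ncard < S.ncard := by
  refine Set.ncard_lt_ncard ⟨h.TS, fun h' => ?_⟩ (Set.toFinite _)
  obtain ⟨z, hz⟩ := h.h2
  have hzS := h.swap.IS hz
  rcases h' hzS with h'' | h'' | h''
  · exact h.swap.xI (h'' ▸ hz)
  · exact h.swap.yI (h'' ▸ hz)
  · exact h.disj z h'' hz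

theorem LenOK.sigma {G : SG V} {par : V → ZMod 2} {len : V → V → ZMod 2 → ℕ}
    (hl : G.LenOK par len) (a b : V) :
    ∃ σ : ZMod 2, ∀ t, G.E a b t → vlen (par a) (par b) σ t ≤ len a b t := by
  by_cases hp : par a = par b
  · refine ⟨0, fun t ht => ?_⟩
    rw [vlen, if_pos hp, hl.same a b t ht hp]
  · by_cases h1 : ∃ σ, G.E a b σ ∧ len a b σ = 1
    · obtain ⟨σ, hσ, hσ1⟩ := h1
      refine ⟨σ, fun t ht => ?_⟩
      rw [vlen, if_neg hp]
      by_cases hts : t = σ
      · rw [if_pos hts, hts, hσ1]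
      · rw [if_neg hts]
        rcases hl.diff a b t ht hp with h | h
        · exfalso
          rcases zmod2_cases t with h0 | h0 <;> rcases zmod2_cases σ with h2 | h2
          · exact hts (h0.trans h2.symm)
          · rw [h0] at ht h
            rw [h2] at hσ hσ1
            have := hl.dig a b ht hσ
            omega
          · rw [h0] at ht h
            rw [h2] at hσ hσ1
            have := hl.dig a b hσ ht
            omega
          · exact hts (h0.trans h2.symm)
        · omega
    · refine ⟨0, fun t ht => ?_⟩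
      rw [vlen, if_neg hp]
      rcases hl.diff a b t ht hp with h | h
      · exact absurd ⟨t, ht, h⟩ h1
      · rw [h]; split_ifs <;> norm_num

/-- the induction statement -/
def Stmt (V : Type*) (n : ℕ) : Prop := ∀ (G : SG V) (S : Set V) (par : V → ZMod 2)
  (len : V → V → ZMod 2 → ℕ), S.ncard = n → G.Supp S → G.LenOK par len → ¬ G.OddK4 →
  ∀ e, ∃ c, G.Col len e c

/-- gluing two colourings -/
theorem Sep.glue {G : SG V} {S : Set V} {x y : V} {I1 I2 : Set V} (h : Sep G S x y I1 I2)
    {len : V → V → ZMod 2 → ℕ} {e : V × V × ZMod 2} {c1 c2 : V → ZMod 6}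
    (h1 : ∀ a ∈ insert x (insert y I1), ∀ b ∈ insert x (insert y I1), ∀ s, G.E a b s →
      nd (c1 b - c1 a + h3 s) + ind e a b s ≤ len a b s)
    (h2 : ∀ a b s, (G.Hs I2).E a b s →
      nd (c2 b - c2 a + h3 s) + ind e a b s ≤ len a b s)
    (hx : c1 x = c2 x) (hy : c1 y = c2 y) : ∃ c, G.Col len e c := by
  classical
  refine ⟨fun z => if z ∈ I2 then c2 z else c1 z, ?_⟩
  intro a b s hs
  dsimp only
  have hcase : ∀ a b s, G.E a b s → a ∈ I2 → (if b ∈ I2 then c2 b else c1 b) = c2 b := by
    intro a b s hs ha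
    by_cases hb : b ∈ I2
    · rw [if_pos hb]
    · rw [if_neg hb]
      rcases h.swap.edge ha hs with h' | h' | h'
      · exact absurd h' hb
      · rw [h']; exact hx
      · rw [h']; exact hy
  by_cases ha : a ∈ I2
  · rw [if_pos ha, hcase a b s hs ha]
    exact h2 a b s ⟨hs, Or.inl ha⟩
  · by_cases hb : b ∈ I2
    · have := hcase b a s (G.symm hs) hb
      rw [if_neg ha] at this
      rw [if_neg ha, if_pos hb, this]
      exact h2 a b s ⟨hs, Or.inr hb⟩
    · rw [if_neg ha, if_neg hb]
      have hT : ∀ z ∈ S, z ∉ I2 → z ∈ insert x (insert y I1) := by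
        intro z hz hzI
        by_cases hzx : z = x
        · exact Or.inl hzx
        · by_cases hzy : z = y
          · exact Or.inr (Or.inl hzy)
          · rcases (h.un z).mpr ⟨hz, hzx, hzy⟩ with h' | h'
            · exact Or.inr (Or.inr h')
            · exact absurd h' hzI
      exact h1 a (hT a (h.supp _ _ _ hs) ha) b (hT b (h.supp.right hs) hb) s hs

/-- one side has only one real sign -/
theorem Sep.caseI [Finite V] {G : SG V} {S : Set V} {x y : V} {I1 I2 : Set V}
    (h : Sep G S x y I1 I2) (ih : ∀ m < S.ncard, Stmt V m)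
    {par : V → ZMod 2} {len : V → V → ZMod 2 → ℕ} (hl : G.LenOK par len) (hno : ¬ G.OddK4)
    (e : V × V × ZMod 2) {s' : ZMod 2} (hs' : ¬ G.Real I2 x y s') : ∃ c, G.Col len e c := by
  classical
  obtain ⟨f, hbal, hfxy⟩ := h.swap.balanced hs'
  set s := s' + 1 with hs
  have hreal : G.Real I2 x y s := by
    obtain ⟨t, ht⟩ := h.swap.exists_real
    have : t = s := by
      have hne : t ≠ s' := fun h' => hs' (h' ▸ ht)
      rw [hs]
      clear * - hne
      revert t s'; decide
    exact this ▸ ht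
  have hno1 : ¬ (G.plus (insert x (insert y I1)) x y h.hxy (fun t => t = s)).OddK4 :=
    fun h' => hno (h.oddK4_of_plus1 hreal h')
  -- m
  obtain ⟨m, hm2, hm3, hmv⟩ : ∃ m : ℕ, (par x = par y → m = 2) ∧ (par x ≠ par y → m = 3) ∧
      (m = 2 ∨ m = 3) := by
    by_cases hp : par x = par y
    · exact ⟨2, fun _ => rfl, fun h' => absurd hp h', Or.inl rfl⟩
    · exact ⟨3, fun h' => absurd h' hp, fun _ => rfl, Or.inr rfl⟩
  set vl : ZMod 2 → ℕ := fun t => if G.E x y t then len x y t else m with hvl
  have hvlG : ∀ t, G.E x y t → vl t = len x y t := fun t ht => by simp only [hvl, if_pos ht]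
  have hvln : ∀ t, ¬ G.E x y t → vl t = m := fun t ht => by simp only [hvl, if_neg ht]
  have hvm : ∀ t, vl t ≤ m := by
    intro t
    by_cases ht : G.E x y t
    · rw [hvlG t ht]
      by_cases hp : par x = par y
      · rw [hl.same x y t ht hp, hm2 hp]
      · rw [hm3 hp]
        rcases hl.diff x y t ht hp with h' | h' <;> omega
    · rw [hvln t ht]
  have hv1 : par x = par y → ∀ t, vl t = 2 := by
    intro hp t
    by_cases ht : G.E x y t
    · rw [hvlG t ht, hl.same x y t ht hp]
    · rw [hvln t ht, hm2 hp]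
  have hv2 : par x ≠ par y → ∀ t, vl t = 1 ∨ vl t = 3 := by
    intro hp t
    by_cases ht : G.E x y t
    · rw [hvlG t ht]; exact hl.diff x y t ht hp
    · rw [hvln t ht, hm3 hp]; right; rfl
  have hv3 : 4 ≤ vl 0 + vl 1 := by
    by_cases hp : par x = par y
    · rw [hv1 hp, hv1 hp]
    · by_cases h0 : G.E x y 0
      · by_cases h1 : G.E x y 1
        · rw [hvlG 0 h0, hvlG 1 h1]; exact hl.dig x y h0 h1
        · rw [hvln 1 h1, hm3 hp]
          rcases hv2 hp 0 with h' | h' <;> omega
      · rw [hvln 0 h0, hm3 hp]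
        rcases hv2 hp 1 with h' | h' <;> omega
  have hl1 := lenOK_plus (T := insert x (insert y I1)) (Q := fun t => t = s) hl h.hxy hv1 hv2 hv3
  set hit : Prop := ∃ a b t, (G.Hs I2).E a b t ∧ ind e a b t ≠ 0 with hhit
  set e1 : V × V × ZMod 2 := if hit then (x, y, s) else e with he1
  obtain ⟨c1, hc1⟩ := ih _ h.ncard_lt (G.plus (insert x (insert y I1)) x y h.hxy (fun t => t = s))
    (insert x (insert y I1)) par (lenp len x y vl) rfl (plus_supp h _) hl1 hno1 e1
  set δ := c1 y - c1 x + h3 s with hδ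
  have hδle : nd δ + (if hit then 1 else 0) ≤ m := by
    have h1 := hc1 x y s (Or.inr ⟨rfl, Or.inl ⟨rfl, rfl⟩⟩)
    rw [lenp_xy _ _ _ _ (Or.inl ⟨rfl, rfl⟩)] at h1
    have h2 := hvm s
    by_cases hh : hit
    · rw [if_pos hh]
      have : ind e1 x y s = 1 := by
        rw [he1, if_pos hh]
        simp [ind]
      rw [this] at h1
      exact h1.trans h2
    · rw [if_neg hh]
      exact (Nat.le_add_right _ _).trans (h1.trans h2)
  -- levels
  set lv : V → ℕ := fun z => if z = x then 0 else if z = y then m else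
    if par x = par y then 1 else if par z = par x then 2 else 1 with hlv
  have hlvx : lv x = 0 := by simp only [hlv, if_true]
  have hlvy : lv y = m := by simp only [hlv, if_neg h.hxy.symm, if_true]
  have hlv3 : ∀ z, lv z < 4 := by
    intro z
    simp only [hlv]
    split_ifs <;> omega
  have hlvle : ∀ a b t, (G.Hs I2).E a b t → a ∈ I2 → max (lv a) (lv b) - min (lv a) (lv b) ≤ len a b t := by
    intro a b t hab ha
    have hpos := hl.pos hab.1
    have hax : a ≠ x := fun h' => h.swap.xI (h' ▸ ha)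
    have hay : a ≠ y := fun h' => h.swap.yI (h' ▸ ha)
    have hlva : lv a = if par x = par y then 1 else if par a = par x then 2 else 1 := by
      simp only [hlv, if_neg hax, if_neg hay]
    rcases h.swap.edge ha hab.1 with hb | hb | hb
    · have hbx : b ≠ x := fun h' => h.swap.xI (h' ▸ hb)
      have hby : b ≠ y := fun h' => h.swap.yI (h' ▸ hb)
      have hlvb : lv b = if par x = par y then 1 else if par b = par x then 2 else 1 := by
        simp only [hlv, if_neg hbx, if_neg hby]
      rw [hlva, hlvb]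
      split_ifs <;> omega
    · have hlvb : lv b = 0 := by rw [hb]; exact hlvx
      rw [hlva, hlvb]
      by_cases hp : par x = par y
      · rw [if_pos hp]; omega
      · rw [if_neg hp]
        by_cases hpa : par a = par x
        · rw [if_pos hpa]
          have := hl.same a b t hab.1 (by rw [hb]; exact hpa)
          omega
        · rw [if_neg hpa]; omega
    · have hlvb : lv b = m := by rw [hb]; exact hlvy
      rw [hlva, hlvb]
      by_cases hp : par x = par y
      · rw [if_pos hp, hm2 hp]; omega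
      · rw [if_neg hp, hm3 hp]
        by_cases hpa : par a = par x
        · rw [if_pos hpa]; omega
        · rw [if_neg hpa]
          have : par a = par y := by
            generalize par a = u at hpa ⊢
            generalize par x = v at hpa hp
            generalize par y = w at hp ⊢
            revert u v w; decide
          have := hl.same a b t hab.1 (by rw [hb]; exact this)
          omega
  have hlvle' : ∀ a b t, (G.Hs I2).E a b t → max (lv a) (lv b) - min (lv a) (lv b) ≤ len a b t := by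
    rintro a b t ⟨hE, ha | hb⟩
    · exact hlvle a b t ⟨hE, Or.inl ha⟩ ha
    · have := hlvle b a t ⟨G.symm hE, Or.inl hb⟩ hb
      rw [hl.symm a b t hE, max_comm, min_comm] at this
      exact this
  -- the collapse index
  obtain ⟨i, hi1, hi2⟩ : ∃ i : Fin 4, ((i.val < m → hit)) ∧
      (∀ a b t, (G.Hs I2).E a b t → ind e a b t ≠ 0 → lv a ≠ lv b →
        min (lv a) (lv b) ≤ i.val ∧ i.val < max (lv a) (lv b)) := by
    by_cases hh : ∃ a b t, (G.Hs I2).E a b t ∧ ind e a b t ≠ 0 ∧ lv a ≠ lv b
    · obtain ⟨a, b, t, hE, hne, hlab⟩ := hh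
      refine ⟨⟨min (lv a) (lv b), by have := hlv3 a; omega⟩, fun _ => ⟨a, b, t, hE, hne⟩, ?_⟩
      intro a' b' t' hE' hne' hlab'
      obtain ⟨_, h1⟩ := ind_pos hne
      obtain ⟨_, h2⟩ := ind_pos hne'
      have : (a' = a ∧ b' = b) ∨ (a' = b ∧ b' = a) := by
        rcases h1 with ⟨r1, r2⟩ | ⟨r1, r2⟩ <;> rcases h2 with ⟨r3, r4⟩ | ⟨r3, r4⟩
        · exact Or.inl ⟨r3.trans r1.symm, r4.trans r2.symm⟩
        · exact Or.inr ⟨r3.trans r2.symm, r4.trans r1.symm⟩
        · exact Or.inr ⟨r3.trans r2.symm, r4.trans r1.symm⟩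
        · exact Or.inl ⟨r3.trans r1.symm, r4.trans r2.symm⟩
      dsimp only
      rcases this with ⟨rfl, rfl⟩ | ⟨rfl, rfl⟩ <;> omega
    · push Not at hh
      refine ⟨3, fun h' => ?_, ?_⟩
      · exfalso
        have h3 : ((3 : Fin 4) : ℕ) = 3 := rfl
        omega
      · intro a b t hE hne hlab
        exact absurd (hh a b t hE hne) hlab
  set c2 : V → ZMod 6 := fun z => c1 x + h3 (f x) + gmap i δ (lv z) + h3 (f z) with hc2
  have hm4 : m < 4 := by omega
  have hc2x : c2 x = c1 x := by
    have h1 := gmap_zero i δ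
    have h2 := h3_self (f x)
    simp only [hc2, hlvx, h1]
    linear_combination h2
  have hc2y : c2 y = c1 y := by
    have h1 := gmap_top ⟨m, hm4⟩ i δ (by dsimp only; omega) (by
      refine le_trans ?_ hδle
      have : (if i < (⟨m, hm4⟩ : Fin 4) then 1 else 0) ≤ (if hit then 1 else 0) := by
        by_cases him : i < (⟨m, hm4⟩ : Fin 4)
        · rw [if_pos him, if_pos (hi1 him)]
        · rw [if_neg him]; exact Nat.zero_le _
      omega)
    simp only at h1
    simp only [hc2, hlvy]
    rw [h1, hδ]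
    have h2 := h3_self (f x + f y)
    rw [← hfxy]
    rw [h3_add] at h2 ⊢
    linear_combination h2
  refine h.glue (c1 := c1) (c2 := c2) ?_ ?_ hc2x.symm hc2y.symm
  · intro a ha b hb t hE
    have h1 := hc1 a b t (Or.inl ⟨hE, ha, hb⟩)
    have h2 : lenp len x y vl a b t ≤ len a b t := by
      by_cases h' : (a = x ∧ b = y) ∨ (a = y ∧ b = x)
      · rw [lenp_xy _ _ _ _ h']
        rcases h' with ⟨rfl, rfl⟩ | ⟨rfl, rfl⟩
        · rw [hvlG t hE]
        · rw [hvlG t (G.symm hE), hl.symm _ _ _ hE]
      · rw [lenp_ne _ _ _ _ h']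
    have h3 : ind e a b t ≤ ind e1 a b t := by
      by_cases hh : hit
      · have : ind e a b t = 0 := by
          by_contra hne
          obtain ⟨a', b', t', hE', hne'⟩ := hh
          obtain ⟨_, h1⟩ := ind_pos hne
          obtain ⟨_, h2⟩ := ind_pos hne'
          have hI : a ∈ I2 ∨ b ∈ I2 := by
            have : (a' = a ∧ b' = b) ∨ (a' = b ∧ b' = a) := by
              rcases h1 with ⟨r1, r2⟩ | ⟨r1, r2⟩ <;> rcases h2 with ⟨r3, r4⟩ | ⟨r3, r4⟩
              · exact Or.inl ⟨r3.trans r1.symm, r4.trans r2.symm⟩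
              · exact Or.inr ⟨r3.trans r2.symm, r4.trans r1.symm⟩
              · exact Or.inr ⟨r3.trans r2.symm, r4.trans r1.symm⟩
              · exact Or.inl ⟨r3.trans r1.symm, r4.trans r2.symm⟩
            rcases this with ⟨r1, r2⟩ | ⟨r1, r2⟩ <;> rcases hE'.2 with h' | h'
            · exact Or.inl (r1 ▸ h')
            · exact Or.inr (r2 ▸ h')
            · exact Or.inr (r1 ▸ h')
            · exact Or.inl (r2 ▸ h')
          have hTI : ∀ z ∈ insert x (insert y I1), z ∉ I2 := by
            rintro z (h' | h' | h') hz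
            · exact h.swap.xI (h' ▸ hz)
            · exact h.swap.yI (h' ▸ hz)
            · exact h.disj z h' hz
          rcases hI with h' | h'
          · exact hTI a ha h'
          · exact hTI b hb h'
        rw [this]; exact Nat.zero_le _
      · rw [he1, if_neg hh]
    omega
  · intro a b t hE
    have hab := hbal a b t hE
    have e2 : c2 b - c2 a + h3 t = gmap i δ (lv b) - gmap i δ (lv a) := by
      simp only [hc2]
      rw [hab, h3_add]
      have h2 := h3_self (f b)
      linear_combination h2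
    rw [e2]
    have h1 := gmap_lip i ⟨lv a, hlv3 a⟩ ⟨lv b, hlv3 b⟩ δ
    dsimp only at h1
    have h2 := hlvle' a b t hE
    have hpos := hl.pos hE.1
    have h4 := ind_le e a b t
    by_cases hne : ind e a b t = 0
    · rw [hne]
      have : (0 : ℕ) ≤ (if min (lv a) (lv b) ≤ i.val ∧ i.val < max (lv a) (lv b) then 1 else 0) :=
        Nat.zero_le _
      omega
    · by_cases hlab : lv a = lv b
      · rw [hlab, sub_self]
        have : nd 0 = 0 := by decide
        rw [this]; omega
      · rw [if_pos (hi2 a b t hE hne hlab)] at h1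
        omega

/-- both sides have both signs real -/
theorem Sep.caseII [Finite V] {G : SG V} {S : Set V} {x y : V} {I1 I2 : Set V}
    (h : Sep G S x y I1 I2) (ih : ∀ m < S.ncard, Stmt V m)
    {par : V → ZMod 2} {len : V → V → ZMod 2 → ℕ} (hl : G.LenOK par len) (hno : ¬ G.OddK4)
    (e : V × V × ZMod 2) (hr1 : ∀ s, G.Real I1 x y s) (hr2 : ∀ s, G.Real I2 x y s)
    (hhit : ∀ a b t, (G.Hs I2).E a b t → ind e a b t = 0) : ∃ c, G.Col len e c := by
  classical
  obtain ⟨σ, hσ⟩ := hl.sigma x y
  set vl : ZMod 2 → ℕ := vlen (par x) (par y) σ with hvl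
  have hv1 : par x = par y → ∀ t, vl t = 2 := fun hp t => by simp only [hvl, vlen, if_pos hp]
  have hv2 : par x ≠ par y → ∀ t, vl t = 1 ∨ vl t = 3 := fun hp t => by
    simp only [hvl, vlen, if_neg hp]
    split_ifs <;> simp
  have hv4 : vl σ + vl (σ + 1) = 4 := by
    simp only [hvl]
    clear * -
    generalize par x = u
    generalize par y = v
    revert u v σ; decide
  have hv3 : 4 ≤ vl 0 + vl 1 := by
    rcases zmod2_cases σ with h0 | h0
    · rw [h0] at hv4
      have : (0 : ZMod 2) + 1 = 1 := by decide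
      rw [this] at hv4; omega
    · rw [h0] at hv4
      have : (1 : ZMod 2) + 1 = 0 := by decide
      rw [this] at hv4; omega
  have hno1 : ¬ (G.plus (insert x (insert y I1)) x y h.hxy (fun _ => True)).OddK4 :=
    fun h' => hno (h.oddK4_of_plus (fun s _ => hr2 s) h')
  have hno2 : ¬ (G.plus (insert x (insert y I2)) x y h.hxy (fun _ => True)).OddK4 :=
    fun h' => hno (h.swap.oddK4_of_plus (fun s _ => hr1 s) h')
  have hl1 := lenOK_plus (T := insert x (insert y I1)) (Q := fun _ => True) hl h.hxy hv1 hv2 hv3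
  have hl2 := lenOK_plus (T := insert x (insert y I2)) (Q := fun _ => True) hl h.hxy hv1 hv2 hv3
  obtain ⟨c1, hc1⟩ := ih _ h.ncard_lt (G.plus (insert x (insert y I1)) x y h.hxy (fun _ => True))
    (insert x (insert y I1)) par (lenp len x y vl) rfl (plus_supp h _) hl1 hno1 e
  -- bounds on side 1
  have hb : ∀ t, nd (c1 y - c1 x + h3 t) ≤ vl t := by
    intro t
    have h1 := hc1 x y t (Or.inr ⟨trivial, Or.inl ⟨rfl, rfl⟩⟩)
    rw [lenp_xy _ _ _ _ (Or.inl ⟨rfl, rfl⟩)] at h1
    exact (Nat.le_add_right _ _).trans h1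
  set r := nd (c1 y - c1 x + h3 σ) with hr
  have hrσ : r ≤ vl σ := hb σ
  have hrσ1 : 3 ≤ r + vl (σ + 1) := by
    have h1 := hb (σ + 1)
    have h2 := nd_h3 (c1 y - c1 x) σ
    omega
  set e2 : V × V × ZMod 2 := if r < vl σ then (x, y, σ) else (x, y, σ + 1) with he2
  obtain ⟨c2, hc2⟩ := ih _ h.swap.ncard_lt
    (G.plus (insert x (insert y I2)) x y h.hxy (fun _ => True))
    (insert x (insert y I2)) par (lenp len x y vl) rfl (plus_supp h.swap _) hl2 hno2 e2
  have hb2 : ∀ t, nd (c2 y - c2 x + h3 t) + ind e2 x y t ≤ vl t := by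
    intro t
    have h1 := hc2 x y t (Or.inr ⟨trivial, Or.inl ⟨rfl, rfl⟩⟩)
    rw [lenp_xy _ _ _ _ (Or.inl ⟨rfl, rfl⟩)] at h1
    exact h1
  have hr2' : nd (c1 y - c1 x + h3 σ) = nd (c2 y - c2 x + h3 σ) := by
    rw [← hr]
    have h1 := hb2 σ
    have h2 := hb2 (σ + 1)
    have h3 := nd_h3 (c2 y - c2 x) σ
    by_cases hlt : r < vl σ
    · have : ind e2 x y σ = 1 := by
        rw [he2, if_pos hlt]; simp [ind]
      rw [this] at h1
      omega
    · have : ind e2 x y (σ + 1) = 1 := by
        rw [he2, if_neg hlt]; simp [ind]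
      rw [this] at h2
      omega
  have hind2 : ∀ a b t, nd (c2 b - c2 a + h3 t) ≤ nd (c2 b - c2 a + h3 t) + ind e2 a b t :=
    fun a b t => Nat.le_add_right _ _
  have hHs : ∀ a b t, (G.Hs I2).E a b t → nd (c2 b - c2 a + h3 t) ≤ len a b t := by
    intro a b t hE
    have hab : ¬ ((a = x ∧ b = y) ∨ (a = y ∧ b = x)) := by
      rintro (⟨rfl, rfl⟩ | ⟨rfl, rfl⟩)
      · rcases hE.2 with h' | h'
        · exact h.swap.xI h'
        · exact h.swap.yI h'
      · rcases hE.2 with h' | h'
        · exact h.swap.yI h'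
        · exact h.swap.xI h'
    have hT : a ∈ insert x (insert y I2) ∧ b ∈ insert x (insert y I2) := by
      rcases hE.2 with h' | h'
      · refine ⟨Or.inr (Or.inr h'), ?_⟩
        rcases h.swap.edge h' hE.1 with h'' | h'' | h''
        · exact Or.inr (Or.inr h'')
        · exact Or.inl h''
        · exact Or.inr (Or.inl h'')
      · refine ⟨?_, Or.inr (Or.inr h')⟩
        rcases h.swap.edge h' (G.symm hE.1) with h'' | h'' | h''
        · exact Or.inr (Or.inr h'')
        · exact Or.inl h''
        · exact Or.inr (Or.inl h'')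
    have h1 := hc2 a b t (Or.inl ⟨hE.1, hT.1, hT.2⟩)
    rw [lenp_ne _ _ _ _ hab] at h1
    exact (hind2 a b t).trans h1
  have h1' : ∀ a ∈ insert x (insert y I1), ∀ b ∈ insert x (insert y I1), ∀ s, G.E a b s →
      nd (c1 b - c1 a + h3 s) + ind e a b s ≤ len a b s := by
    intro a ha b hb t hE
    have h1 := hc1 a b t (Or.inl ⟨hE, ha, hb⟩)
    have h2 : lenp len x y vl a b t ≤ len a b t := by
      by_cases h' : (a = x ∧ b = y) ∨ (a = y ∧ b = x)
      · rw [lenp_xy _ _ _ _ h']
        rcases h' with ⟨rfl, rfl⟩ | ⟨rfl, rfl⟩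
        · exact hσ t hE
        · rw [← hl.symm _ _ _ hE]; exact hσ t (G.symm hE)
      · rw [lenp_ne _ _ _ _ h']
    omega
  rcases nd_eq _ _ _ hr2' with hΔ | hΔ
  · refine h.glue (c1 := c1) (c2 := fun z => c2 z - c2 x + c1 x) h1' ?_ ?_ ?_
    · intro a b t hE
      have e3 : (c2 b - c2 x + c1 x) - (c2 a - c2 x + c1 x) + h3 t = c2 b - c2 a + h3 t := by ring
      rw [e3, hhit a b t hE]
      exact hHs a b t hE
    · ring
    · rw [← hΔ]; ring
  · refine h.glue (c1 := c1) (c2 := fun z => - (c2 z - c2 x) + c1 x) h1' ?_ ?_ ?_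
    · intro a b t hE
      have e3 : (-(c2 b - c2 x) + c1 x) - (-(c2 a - c2 x) + c1 x) + h3 t = -(c2 b - c2 a + h3 t) := by
        have := h3_self t
        linear_combination this
      rw [e3, hhit a b t hE, nd_neg]
      exact hHs a b t hE
    · ring
    · rw [← hΔ]; ring

/-- separations of order two -/
theorem Sep.step [Finite V] {G : SG V} {S : Set V} {x y : V} {I1 I2 : Set V}
    (h : Sep G S x y I1 I2) (ih : ∀ m < S.ncard, Stmt V m)
    {par : V → ZMod 2} {len : V → V → ZMod 2 → ℕ} (hl : G.LenOK par len) (hno : ¬ G.OddK4)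
    (e : V × V × ZMod 2) : ∃ c, G.Col len e c := by
  by_cases h2 : ∀ s, G.Real I2 x y s
  · by_cases h1 : ∀ s, G.Real I1 x y s
    · by_cases hh : ∀ a b t, (G.Hs I2).E a b t → ind e a b t = 0
      · exact h.caseII ih hl hno e h1 h2 hh
      · refine h.swap.caseII ih hl hno e h2 h1 ?_
        intro a b t hE
        by_contra hne
        apply hh
        intro a' b' t' hE'
        by_contra hne'
        obtain ⟨_, r1⟩ := ind_pos hne
        obtain ⟨_, r2⟩ := ind_pos hne'
        have : (a' = a ∧ b' = b) ∨ (a' = b ∧ b' = a) := by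
          rcases r1 with ⟨r1, r3⟩ | ⟨r1, r3⟩ <;> rcases r2 with ⟨r2, r4⟩ | ⟨r2, r4⟩
          · exact Or.inl ⟨r2.trans r1.symm, r4.trans r3.symm⟩
          · exact Or.inr ⟨r2.trans r3.symm, r4.trans r1.symm⟩
          · exact Or.inr ⟨r2.trans r3.symm, r4.trans r1.symm⟩
          · exact Or.inl ⟨r2.trans r1.symm, r4.trans r3.symm⟩
        have hab : a ∈ I1 ∨ b ∈ I1 := hE.2
        have hab' : a ∈ I2 ∨ b ∈ I2 := by
          rcases this with ⟨r1, r2⟩ | ⟨r1, r2⟩ <;> rcases hE'.2 with h' | h'
          · exact Or.inl (r1 ▸ h')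
          · exact Or.inr (r2 ▸ h')
          · exact Or.inr (r1 ▸ h')
          · exact Or.inl (r2 ▸ h')
        rcases hab with h3 | h3 <;> rcases hab' with h4 | h4
        · exact h.disj _ h3 h4
        · exact h.no a h3 b h4 t hE.1
        · exact h.no b h3 a h4 t (G.symm hE.1)
        · exact h.disj _ h3 h4
    · push Not at h1
      obtain ⟨s', hs'⟩ := h1
      exact h.swap.caseI ih hl hno e hs'
  · push Not at h2
    obtain ⟨s', hs'⟩ := h2
    exact h.caseI ih hl hno e hs'

theorem LenOK.restr {G : SG V} {par : V → ZMod 2} {len : V → V → ZMod 2 → ℕ}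
    (hl : G.LenOK par len) (T : Set V) : (G.restr T).LenOK par len :=
  ⟨fun a b s h => hl.symm a b s h.1, fun a b s h => hl.same a b s h.1,
    fun a b s h => hl.diff a b s h.1, fun a b h h' => hl.dig a b h.1 h'.1⟩

/-- small vertex sets -/
theorem small_case [Finite V] {G : SG V} {S : Set V} {par : V → ZMod 2}
    {len : V → V → ZMod 2 → ℕ} (hS : S.ncard ≤ 3) (hSupp : G.Supp S) (hl : G.LenOK par len)
    (e : V × V × ZMod 2) : ∃ c, G.Col len e c := by
  classical
  -- put S in a set {x, y, z}
  by_cases h1 : S.ncard ≤ 1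
  · refine ⟨fun _ => 0, fun a b s hs => ?_⟩
    exfalso
    rw [Set.ncard_le_one (Set.toFinite S)] at h1
    exact G.irr hs (h1 a (hSupp _ _ _ hs) b (hSupp.right hs))
  -- a general colouring from three distinct vertices
  have gen : ∀ x y z : V, x ≠ y → x ≠ z → y ≠ z → S ⊆ {x, y, z} → ∃ c, G.Col len e c := by
    intro x y z hxy hxz hyz hS
    obtain ⟨s0, hs0⟩ := hl.sigma x y
    obtain ⟨s1, hs1⟩ := hl.sigma x z
    obtain ⟨s2, hs2⟩ := hl.sigma y z
    -- which pair is hit
    obtain ⟨k, t0, hk0, hk1, hk2⟩ : ∃ (k : Fin 4) (t0 : ZMod 2),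
        (∀ t, ind e x y t ≤ if k = 0 ∧ t = t0 then 1 else 0) ∧
        (∀ t, ind e x z t ≤ if k = 1 ∧ t = t0 then 1 else 0) ∧
        (∀ t, ind e y z t ≤ if k = 2 ∧ t = t0 then 1 else 0) := by
      have hle : ∀ (a b : V) (t : ZMod 2) (p : Prop) [Decidable p], (ind e a b t ≠ 0 → p) →
          ind e a b t ≤ if p then 1 else 0 := by
        intro a b t p _ hp
        by_cases h0 : ind e a b t = 0
        · rw [h0]; exact Nat.zero_le _
        · rw [if_pos (hp h0)]; exact ind_le _ _ _ _
      by_cases c0 : ∃ t, ind e x y t ≠ 0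
      · obtain ⟨t, ht⟩ := c0
        obtain ⟨q1, q2⟩ := ind_pos ht
        refine ⟨0, t, fun t' => hle _ _ _ _ fun h => ⟨rfl, (ind_pos h).1.trans q1.symm⟩,
          fun t' => hle _ _ _ _ fun h => ?_, fun t' => hle _ _ _ _ fun h => ?_⟩
        · exfalso
          obtain ⟨_, q3⟩ := ind_pos h
          rcases q2 with ⟨a1, a2⟩ | ⟨a1, a2⟩ <;> rcases q3 with ⟨b1, b2⟩ | ⟨b1, b2⟩
          · exact hyz (a2.trans b2.symm)
          · exact hxz (a1.trans b2.symm)
          · exact hxz (a1.trans b2.symm)
          · exact hyz (a2.trans b2.symm)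
        · exfalso
          obtain ⟨_, q3⟩ := ind_pos h
          rcases q2 with ⟨a1, a2⟩ | ⟨a1, a2⟩ <;> rcases q3 with ⟨b1, b2⟩ | ⟨b1, b2⟩
          · exact hxy (a1.trans b1.symm)
          · exact hxz (a1.trans b2.symm)
          · exact hxz (a1.trans b2.symm)
          · exact hxy (a1.trans b1.symm)
      · by_cases c1 : ∃ t, ind e x z t ≠ 0
        · obtain ⟨t, ht⟩ := c1
          obtain ⟨q1, q2⟩ := ind_pos ht
          refine ⟨1, t, fun t' => hle _ _ _ _ fun h => absurd ⟨t', h⟩ c0,
            fun t' => hle _ _ _ _ fun h => ⟨rfl, (ind_pos h).1.trans q1.symm⟩,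
            fun t' => hle _ _ _ _ fun h => ?_⟩
          exfalso
          obtain ⟨_, q3⟩ := ind_pos h
          rcases q2 with ⟨a1, a2⟩ | ⟨a1, a2⟩ <;> rcases q3 with ⟨b1, b2⟩ | ⟨b1, b2⟩
          · exact hxy (a1.trans b1.symm)
          · exact hxz (a1.trans b2.symm)
          · exact hxz (a1.trans b2.symm)
          · exact hxy (a1.trans b1.symm)
        · by_cases c2 : ∃ t, ind e y z t ≠ 0
          · obtain ⟨t, ht⟩ := c2
            obtain ⟨q1, q2⟩ := ind_pos ht
            exact ⟨2, t, fun t' => hle _ _ _ _ fun h => absurd ⟨t', h⟩ c0,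
              fun t' => hle _ _ _ _ fun h => absurd ⟨t', h⟩ c1,
              fun t' => hle _ _ _ _ fun h => ⟨rfl, (ind_pos h).1.trans q1.symm⟩⟩
          · exact ⟨3, 0, fun t' => hle _ _ _ _ fun h => absurd ⟨t', h⟩ c0,
              fun t' => hle _ _ _ _ fun h => absurd ⟨t', h⟩ c1,
              fun t' => hle _ _ _ _ fun h => absurd ⟨t', h⟩ c2⟩
    obtain ⟨d1, d2, hd⟩ := fin3 (par x) (par y) (par z) s0 s1 s2 k t0
    set c : V → ZMod 6 := fun v => if v = y then d1 else if v = z then d2 else 0 with hc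
    have hcx : c x = 0 := by simp only [hc, if_neg hxy, if_neg hxz]
    have hcy : c y = d1 := by simp only [hc, if_true]
    have hcz : c z = d2 := by simp only [hc, if_neg hyz.symm, if_true]
    have hflip : ∀ a b : V, (∀ s, G.E a b s → nd (c b - c a + h3 s) + ind e a b s ≤ len a b s) →
        ∀ s, G.E b a s → nd (c a - c b + h3 s) + ind e b a s ≤ len b a s := by
      intro a b h s hs
      have h1 := h s (G.symm hs)
      rw [hl.symm _ _ _ (G.symm hs), ind_symm]
      have e3 : c a - c b + h3 s = - (c b - c a + h3 s) := by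
        have := h3_self s
        linear_combination this
      rw [e3, nd_neg]; exact h1
    have f1 : ∀ s, G.E x y s → nd (c y - c x + h3 s) + ind e x y s ≤ len x y s := by
      intro s hs
      have h1 := (hd s).1
      have h2 := hk0 s
      have h4 := hs0 s hs
      rw [hcx, hcy, sub_zero]; omega
    have f2 : ∀ s, G.E x z s → nd (c z - c x + h3 s) + ind e x z s ≤ len x z s := by
      intro s hs
      have h1 := (hd s).2.1
      have h2 := hk1 s
      have h4 := hs1 s hs
      rw [hcx, hcz, sub_zero]; omega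
    have f3 : ∀ s, G.E y z s → nd (c z - c y + h3 s) + ind e y z s ≤ len y z s := by
      intro s hs
      have h1 := (hd s).2.2
      have h2 := hk2 s
      have h4 := hs2 s hs
      rw [hcy, hcz]; omega
    refine ⟨c, fun a b s hs => ?_⟩
    rcases hS (hSupp _ _ _ hs) with ha | ha | ha <;>
      rcases hS (hSupp.right hs) with hb | hb | hb
    · exact absurd (ha.trans hb.symm) (G.irr hs)
    · subst ha hb; exact f1 s hs
    · have hb' : b = z := hb
      subst ha hb'; exact f2 s hs
    · subst ha hb; exact hflip _ _ f1 s hs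
    · exact absurd (ha.trans hb.symm) (G.irr hs)
    · have hb' : b = z := hb
      subst ha hb'; exact f3 s hs
    · have ha' : a = z := ha
      subst ha' hb; exact hflip _ _ f2 s hs
    · have ha' : a = z := ha
      subst ha' hb; exact hflip _ _ f3 s hs
    · have ha' : a = z := ha
      have hb' : b = z := hb
      exact absurd (ha'.trans hb'.symm) (G.irr hs)
  by_cases hS3 : S.ncard = 3
  · obtain ⟨x, y, z, hxy, hxz, hyz, hS⟩ := Set.ncard_eq_three.mp hS3
    exact gen x y z hxy hxz hyz hS.subset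
  · have h2 : S.ncard = 2 := by omega
    obtain ⟨x, y, hxy, hSxy⟩ := Set.ncard_eq_two.mp h2
    by_cases hz : ∃ z, z ≠ x ∧ z ≠ y
    · obtain ⟨z, hzx, hzy⟩ := hz
      refine gen x y z hxy hzx.symm hzy.symm ?_
      rw [hSxy]
      rintro w (hw | hw)
      · exact Or.inl hw
      · exact Or.inr (Or.inl hw)
    · obtain ⟨s0, hs0⟩ := hl.sigma x y
      obtain ⟨k, t0, hk0⟩ : ∃ (k : Fin 4) (t0 : ZMod 2),
          (∀ t, ind e x y t ≤ if k = 0 ∧ t = t0 then 1 else 0) := by
        by_cases c0 : ∃ t, ind e x y t ≠ 0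
        · obtain ⟨t, ht⟩ := c0
          obtain ⟨q1, q2⟩ := ind_pos ht
          refine ⟨0, t, fun t' => ?_⟩
          by_cases h0 : ind e x y t' = 0
          · rw [h0]; exact Nat.zero_le _
          · rw [if_pos ⟨rfl, (ind_pos h0).1.trans q1.symm⟩]; exact ind_le _ _ _ _
        · push Not at c0
          refine ⟨3, 0, fun t' => ?_⟩
          rw [c0 t']; exact Nat.zero_le _
      obtain ⟨d1, d2, hd⟩ := fin3 (par x) (par y) 0 s0 0 0 k t0
      set c : V → ZMod 6 := fun v => if v = y then d1 else 0 with hc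
      have hcx : c x = 0 := by simp only [hc, if_neg hxy]
      have hcy : c y = d1 := by simp only [hc, if_true]
      have f1 : ∀ s, G.E x y s → nd (c y - c x + h3 s) + ind e x y s ≤ len x y s := by
        intro s hs
        have h1 := (hd s).1
        have h2 := hk0 s
        have h4 := hs0 s hs
        rw [hcx, hcy, sub_zero]; omega
      refine ⟨c, fun a b s hs => ?_⟩
      have ha := hSupp _ _ _ hs
      have hb := hSupp.right hs
      rw [hSxy] at ha hb
      rcases ha with ha | ha <;> rcases hb with hb | hb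
      · exact absurd (ha.trans hb.symm) (G.irr hs)
      · have hb' : b = y := hb
        subst ha hb'; exact f1 s hs
      · have ha' : a = y := ha
        subst ha' hb
        have h1 := f1 s (G.symm hs)
        rw [hl.symm _ _ _ (G.symm hs), ind_symm]
        have e3 : c b - c a + h3 s = - (c a - c b + h3 s) := by
          have := h3_self s
          linear_combination this
        rw [e3, nd_neg]; exact h1
      · have ha' : a = y := ha
        have hb' : b = y := hb
        exact absurd (ha'.trans hb'.symm) (G.irr hs)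

/-- the main theorem -/
theorem main [Finite V] : ∀ n, Stmt V n := by
  classical
  intro n
  induction n using Nat.strong_induction_on with
  | _ n ih =>
  intro G S par len hn hSupp hl hno e
  have ih' : ∀ m < S.ncard, Stmt V m := by rw [hn]; exact ih
  by_cases hS3 : S.ncard ≤ 3
  · exact small_case hS3 hSupp hl e
  by_cases g1 : Cn G.Adj S
  swap
  · unfold Cn at g1
    push Not at g1
    obtain ⟨B, hB, hB1, hB2, hB3⟩ := g1
    have hcol : ∀ T : Set V, T ⊆ S → (S \ T).Nonempty → ∃ c, (G.restr T).Col len e c := by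
      intro T hT hT'
      refine ih' T.ncard (Set.ncard_lt_ncard ⟨hT, ?_⟩ (Set.toFinite _)) (G.restr T) T par len rfl
        (fun a b s h => h.2.1) (hl.restr T)
        (fun h => hno (oddK4_mono (H := G.restr T) (fun a b s h => h.1) h)) e
      intro h
      obtain ⟨z, hz, hz'⟩ := hT'
      exact hz' (h hz)
    obtain ⟨c1, hc1⟩ := hcol B hB hB2
    obtain ⟨c2, hc2⟩ := hcol (S \ B) Set.sdiff_subset (by
      rw [Set.sdiff_sdiff_cancel_left hB]; exact hB1)
    refine ⟨fun z => if z ∈ B then c1 z else c2 z, fun a b s hs => ?_⟩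
    have haS := hSupp _ _ _ hs
    have hbS := hSupp.right hs
    dsimp only
    by_cases ha : a ∈ B
    · have hb : b ∈ B := by
        by_contra hb
        exact hB3 a ha b ⟨hbS, hb⟩ ⟨s, hs⟩
      rw [if_pos ha, if_pos hb]
      exact hc1 a b s ⟨hs, ha, hb⟩
    · have hb : b ∉ B := by
        intro hb
        exact hB3 b hb a ⟨haS, ha⟩ ⟨s, G.symm hs⟩
      rw [if_neg ha, if_neg hb]
      exact hc2 a b s ⟨hs, ⟨haS, ha⟩, ⟨hbS, hb⟩⟩
  by_cases g2 : ∀ p ∈ S, Cn G.Adj (S \ {p})
  swap
  · push Not at g2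
    obtain ⟨p, hp, g2⟩ := g2
    unfold Cn at g2
    push Not at g2
    obtain ⟨B, hB, hB1, hB2, hB3⟩ := g2
    have hpB : p ∉ B := fun h => (hB h).2 rfl
    have hcol : ∀ T : Set V, T ⊆ S → (S \ T).Nonempty → ∃ c, (G.restr T).Col len e c := by
      intro T hT hT'
      refine ih' T.ncard (Set.ncard_lt_ncard ⟨hT, ?_⟩ (Set.toFinite _)) (G.restr T) T par len rfl
        (fun a b s h => h.2.1) (hl.restr T)
        (fun h => hno (oddK4_mono (H := G.restr T) (fun a b s h => h.1) h)) e
      intro h
      obtain ⟨z, hz, hz'⟩ := hT'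
      exact hz' (h hz)
    obtain ⟨c1, hc1⟩ := hcol (insert p B) (by
        rintro z (rfl | hz)
        · exact hp
        · exact (hB hz).1) (by
        obtain ⟨z, hz⟩ := hB2
        exact ⟨z, hz.1.1, fun h => by
          rcases h with h | h
          · exact hz.1.2 h
          · exact hz.2 h⟩)
    obtain ⟨c2, hc2⟩ := hcol (S \ B) Set.sdiff_subset (by
      rw [Set.sdiff_sdiff_cancel_left (hB.trans Set.sdiff_subset)]; exact hB1)
    refine ⟨fun z => if z ∈ B then c1 z else c2 z - c2 p + c1 p, fun a b s hs => ?_⟩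
    have haS := hSupp _ _ _ hs
    have hbS := hSupp.right hs
    dsimp only
    by_cases ha : a ∈ B
    · have hb : b ∈ B ∨ b = p := by
        by_contra hb
        push Not at hb
        exact hB3 a ha b ⟨⟨hbS, hb.2⟩, hb.1⟩ ⟨s, hs⟩
      rw [if_pos ha]
      have hb' : (if b ∈ B then c1 b else c2 b - c2 p + c1 p) = c1 b := by
        by_cases hbB : b ∈ B
        · rw [if_pos hbB]
        · have hbp : b = p := hb.resolve_left hbB
          rw [if_neg hbB, hbp]; ring
      rw [hb']
      exact hc1 a b s ⟨hs, Or.inr ha, hb.symm⟩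
    · by_cases hb : b ∈ B
      · have ha' : a = p := by
          by_contra ha'
          exact hB3 b hb a ⟨⟨haS, ha'⟩, ha⟩ ⟨s, G.symm hs⟩
        rw [if_neg ha, if_pos hb, ha']
        have := hc1 a b s ⟨hs, Or.inl ha', Or.inr hb⟩
        rw [ha'] at this
        have e3 : c1 b - (c2 p - c2 p + c1 p) + h3 s = c1 b - c1 p + h3 s := by ring
        rw [e3]; exact this
      · rw [if_neg ha, if_neg hb]
        have := hc2 a b s ⟨hs, ⟨haS, ha⟩, ⟨hbS, hb⟩⟩
        have e3 : (c2 b - c2 p + c1 p) - (c2 a - c2 p + c1 p) + h3 s = c2 b - c2 a + h3 s := by ring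
        rw [e3]; exact this
  by_cases g3 : ∀ x ∈ S, ∀ y ∈ S, x ≠ y → Cn G.Adj (S \ {x, y})
  swap
  · push Not at g3
    obtain ⟨x, hx, y, hy, hxy, g3⟩ := g3
    unfold Cn at g3
    push Not at g3
    obtain ⟨B, hB, hB1, hB2, hB3⟩ := g3
    have hsep : Sep G S x y B ((S \ {x, y}) \ B) := by
      refine ⟨hSupp, hx, hy, hxy, hB1, hB2, fun z hz h => h.2 hz, ?_, ?_, g1, g2⟩
      · intro z
        constructor
        · rintro (hz | hz)
          · exact ⟨(hB hz).1, fun h => (hB hz).2 (Or.inl h), fun h => (hB hz).2 (Or.inr h)⟩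
          · exact ⟨hz.1.1, fun h => hz.1.2 (Or.inl h), fun h => hz.1.2 (Or.inr h)⟩
        · rintro ⟨hz, hzx, hzy⟩
          by_cases hzB : z ∈ B
          · exact Or.inl hzB
          · refine Or.inr ⟨⟨hz, ?_⟩, hzB⟩
            rintro (h | h)
            · exact hzx h
            · exact hzy h
      · intro a ha b hb s hs
        exact hB3 a ha b hb ⟨s, hs⟩
    exact hsep.step ih' hl hno e
  -- 3-connected
  have hc3 : G.Conn3 S := by
    refine ⟨by omega, fun w w' => ?_⟩
    by_cases hw : w ∈ S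
    · by_cases hw' : w' ∈ S
      · by_cases hww : w = w'
        · have : S \ {w, w'} = S \ {w} := by
            rw [← hww]; simp
          rw [this]; exact g2 w hw
        · exact g3 w hw w' hw' hww
      · have : S \ {w, w'} = S \ {w} := by
          ext z
          simp only [Set.mem_sdiff, Set.mem_insert_iff, Set.mem_singleton_iff]
          constructor
          · rintro ⟨h1, h2⟩
            exact ⟨h1, fun h => h2 (Or.inl h)⟩
          · rintro ⟨h1, h2⟩
            refine ⟨h1, ?_⟩
            rintro (h | h)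
            · exact h2 h
            · exact hw' (h ▸ h1)
        rw [this]; exact g2 w hw
    · by_cases hw' : w' ∈ S
      · have : S \ {w, w'} = S \ {w'} := by
          ext z
          simp only [Set.mem_sdiff, Set.mem_insert_iff, Set.mem_singleton_iff]
          constructor
          · rintro ⟨h1, h2⟩
            exact ⟨h1, fun h => h2 (Or.inr h)⟩
          · rintro ⟨h1, h2⟩
            refine ⟨h1, ?_⟩
            rintro (h | h)
            · exact hw (h ▸ h1)
            · exact h2 h
        rw [this]; exact g2 w' hw'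
      · have : S \ {w, w'} = S := by
          ext z
          simp only [Set.mem_sdiff, Set.mem_insert_iff, Set.mem_singleton_iff]
          constructor
          · rintro ⟨h1, _⟩; exact h1
          · intro h1
            refine ⟨h1, ?_⟩
            rintro (h | h)
            · exact hw (h ▸ h1)
            · exact hw' (h ▸ h1)
        rw [this]; exact g1
  obtain ⟨x, hx⟩ := thm1 _ G S rfl hSupp hc3 hno
  exact col_of_good hl hx e

end SG

end Pool.Agent.H55.K4
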