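import Pool.Agent.H55.K4.LemmaX

set_option autoImplicit false

namespace Pool.Agent.H55.K4

variable {V : Type*}

/-- signed multigraphs -/
structure SG (V : Type*) where
  E : V → V → ZMod 2 → Prop
  symm : ∀ {a b : V} {s : ZMod 2}, E a b s → E b a s
  irr : ∀ {a b : V} {s : ZMod 2}, E a b s → a ≠ b

namespace SG

def Adj (G : SG V) (a b : V) : Prop := ∃ s, G.E a b s

theorem adj_symm (G : SG V) (a b : V) (h : G.Adj a b) : G.Adj b a := by
  obtain ⟨s, hs⟩ := h
  exact ⟨s, G.symm hs⟩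

def Supp (G : SG V) (S : Set V) : Prop := ∀ a b s, G.E a b s → a ∈ S

theorem Supp.right {G : SG V} {S : Set V} (h : G.Supp S) {a b : V} {s : ZMod 2}
    (hab : G.E a b s) : b ∈ S := h b a s (G.symm hab)

/-- odd K4 minor -/
def OddK4 (G : SG V) : Prop := ∃ (X : V → ZMod 2) (B : Fin 4 → Set V),
  (∀ i, (B i).Nonempty) ∧ (∀ i j, i ≠ j → ∀ v ∈ B i, v ∉ B j) ∧
  (∀ i, Cn (fun a b => G.E a b (X a + X b)) (B i)) ∧
  (∀ i j, i ≠ j → ∃ a ∈ B i, ∃ b ∈ B j, G.E a b (X a + X b + 1))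

/-- general minor lemma -/
theorem oddK4_of_quot {V W : Type*} (G : SG V) (H : SG W) (U : Set V) (φ : V → W)
    (F : V → ZMod 2)
    (hfib : ∀ w, Cn (fun p q => G.E p q (F p + F q)) {p | p ∈ U ∧ φ p = w})
    (hE : ∀ a b t, H.E a b t → ∃ p ∈ U, ∃ q ∈ U, φ p = a ∧ φ q = b ∧ G.E p q (t + F p + F q))
    (h : OddK4 H) : OddK4 G := by
  obtain ⟨X, B, hne, hdis, hcn, hcr⟩ := h
  refine ⟨fun p => X (φ p) + F p, fun i => {p | p ∈ U ∧ φ p ∈ B i}, ?_, ?_, ?_, ?_⟩
  · intro i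
    obtain ⟨j, hj⟩ : ∃ j, i ≠ j := ⟨i + 1, by revert i; decide⟩
    obtain ⟨a, ha, b, hb, hab⟩ := hcr i j hj
    obtain ⟨p, hp, q, hq, hpa, _, _⟩ := hE _ _ _ hab
    exact ⟨p, hp, by rw [hpa]; exact ha⟩
  · intro i j hij v hv hv'
    exact hdis i j hij _ hv.2 hv'.2
  · intro i T hT hT1 hT2
    by_cases hsat : ∃ p ∈ T, ∃ q, q ∈ U ∧ φ q = φ p ∧ q ∉ T
    · obtain ⟨p, hp, q, hqU, hqp, hqT⟩ := hsat
      obtain ⟨a, ha, b, hb, hab⟩ := hfib (φ p) {z | z ∈ T ∧ φ z = φ p}
        (fun z hz => ⟨(hT hz.1).1, hz.2⟩) ⟨p, hp, rfl⟩ ⟨q, ⟨hqU, hqp⟩, fun h => hqT h.1⟩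
      refine ⟨a, ha.1, b, ⟨⟨hb.1.1, ?_⟩, fun h => hb.2 ⟨h, hb.1.2⟩⟩, ?_⟩
      · rw [hb.1.2]; exact (hT hp).2
      · have : X (φ a) + F a + (X (φ b) + F b) = F a + F b := by
          rw [ha.2, hb.1.2]
          have := CharTwo.add_self_eq_zero (X (φ p))
          linear_combination this
        show G.E a b (X (φ a) + F a + (X (φ b) + F b))
        rw [this]; exact hab
    · push Not at hsat
      obtain ⟨a, ha, b, hb, hab⟩ := hcn i {w | w ∈ B i ∧ ∃ p ∈ T, φ p = w}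
        (fun z hz => hz.1)
        (by obtain ⟨p, hp⟩ := hT1; exact ⟨φ p, (hT hp).2, p, hp, rfl⟩)
        (by
          obtain ⟨p, hp, hpT⟩ := hT2
          refine ⟨φ p, hp.2, ?_⟩
          rintro ⟨_, q, hq, hqp⟩
          exact hpT (hsat q hq p hp.1 hqp.symm))
      obtain ⟨p, hp, q, hq, hpa, hqb, hpq⟩ := hE _ _ _ hab
      refine ⟨p, ?_, q, ⟨⟨hq, by rw [hqb]; exact hb.1⟩, ?_⟩, ?_⟩
      · obtain ⟨_, r, hr, hra⟩ := ha
        exact hsat r hr p hp (hpa.trans hra.symm)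
      · intro hqT
        exact hb.2 ⟨hb.1, q, hqT, hqb⟩
      · have : X (φ p) + F p + (X (φ q) + F q) = X a + X b + F p + F q := by
          rw [hpa, hqb]; ring
        show G.E p q (X (φ p) + F p + (X (φ q) + F q))
        rw [this]; exact hpq
  · intro i j hij
    obtain ⟨a, ha, b, hb, hab⟩ := hcr i j hij
    obtain ⟨p, hp, q, hq, hpa, hqb, hpq⟩ := hE _ _ _ hab
    refine ⟨p, ⟨hp, by rw [hpa]; exact ha⟩, q, ⟨hq, by rw [hqb]; exact hb⟩, ?_⟩
    have : X (φ p) + F p + (X (φ q) + F q) + 1 = X a + X b + 1 + F p + F q := by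
      rw [hpa, hqb]; ring
    rw [this]; exact hpq

theorem oddK4_mono {G H : SG V} (hle : ∀ a b s, H.E a b s → G.E a b s) (h : OddK4 H) :
    OddK4 G := by
  obtain ⟨X, B, hne, hdis, hcn, hcr⟩ := h
  refine ⟨X, B, hne, hdis, fun i => (hcn i).mono fun p q h => hle _ _ _ h, fun i j hij => ?_⟩
  obtain ⟨a, ha, b, hb, hab⟩ := hcr i j hij
  exact ⟨a, ha, b, hb, hle _ _ _ hab⟩

/-- switching -/
def sw (G : SG V) (F : V → ZMod 2) : SG V where
  E a b s := G.E a b (s + F a + F b)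
  symm := fun {a b s} h => by
    have := G.symm h
    have e : s + F b + F a = s + F a + F b := by ring
    rw [e]; exact this
  irr := fun {a b s} h => G.irr h

theorem sw_adj (G : SG V) (F : V → ZMod 2) (a b : V) : (G.sw F).Adj a b ↔ G.Adj a b := by
  constructor
  · rintro ⟨s, hs⟩; exact ⟨_, hs⟩
  · rintro ⟨s, hs⟩
    refine ⟨s + F a + F b, ?_⟩
    show G.E a b (s + F a + F b + F a + F b)
    have e : s + F a + F b + F a + F b = s := by
      have h1 := CharTwo.add_self_eq_zero (F a)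
      have h2 := CharTwo.add_self_eq_zero (F b)
      linear_combination h1 + h2
    rw [e]; exact hs

theorem oddK4_of_sw (G : SG V) (F : V → ZMod 2) (h : OddK4 (G.sw F)) : OddK4 G := by
  refine oddK4_of_quot G (G.sw F) Set.univ id F ?_ ?_ h
  · intro w
    have : {p | p ∈ Set.univ ∧ id p = w} = {w} := by ext; simp
    rw [this]; exact Cn_singleton _ _
  · intro a b t ht
    exact ⟨a, trivial, b, trivial, rfl, rfl, ht⟩

/-- branch sets lie in the support -/
theorem oddK4_subset {G : SG V} {S : Set V} (hS : G.Supp S) {X : V → ZMod 2} {B : Fin 4 → Set V}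
    (hcn : ∀ i, Cn (fun a b => G.E a b (X a + X b)) (B i))
    (hcr : ∀ i j, i ≠ j → ∃ a ∈ B i, ∃ b ∈ B j, G.E a b (X a + X b + 1)) (i : Fin 4) :
    B i ⊆ S := by
  intro z hz
  obtain ⟨j, hj⟩ : ∃ j, i ≠ j := ⟨i + 1, by clear hz; revert i; decide⟩
  obtain ⟨a, ha, b, hb, hab⟩ := hcr i j hj
  by_cases h : z = a
  · rw [h]; exact hS _ _ _ hab
  · obtain ⟨p, hp, q, hq, hpq⟩ := hcn i {z} (by simpa using hz) ⟨z, rfl⟩
      ⟨a, ha, fun h' => h (by
        have : a = z := h'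
        exact this.symm)⟩
    have : p = z := hp
    rw [← this]; exact hS _ _ _ hpq

/-- zero relation -/
def Zr (G : SG V) (x : V → V → ZMod 2 → ℤ) (π : V → ℤ) (a b : V) : Prop :=
  ∃ s, G.E a b s ∧ x a b s + π b - π a = 0

def Anti (G : SG V) (x : V → V → ZMod 2 → ℤ) : Prop := ∀ a b s, G.E a b s → x b a s = - x a b s

def Good (G : SG V) (x : V → V → ZMod 2 → ℤ) : Prop :=
  ∀ (π : V → ℤ) (A : Set V), Cn (G.Zr x π) A → ∀ a ∈ A, ∀ b ∈ A, ∀ s, G.E a b s →
    |x a b s + π b - π a| ≤ 1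

theorem Zr_symm {G : SG V} {x : V → V → ZMod 2 → ℤ} (hx : G.Anti x) (π : V → ℤ) (a b : V)
    (h : G.Zr x π a b) : G.Zr x π b a := by
  obtain ⟨s, hs, h0⟩ := h
  refine ⟨s, G.symm hs, ?_⟩
  rw [hx a b s hs]
  omega

/-- add a potential -/
def sh (x : V → V → ZMod 2 → ℤ) (π : V → ℤ) : V → V → ZMod 2 → ℤ :=
  fun a b s => x a b s + π b - π a

theorem Anti.sh {G : SG V} {x : V → V → ZMod 2 → ℤ} (hx : G.Anti x) (π : V → ℤ) :
    G.Anti (SG.sh x π) := by
  intro a b s h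
  simp only [SG.sh, hx a b s h]
  ring

theorem Good.sh {G : SG V} {x : V → V → ZMod 2 → ℤ} (hx : G.Good x) (π : V → ℤ) :
    G.Good (SG.sh x π) := by
  intro π' A hA a ha b hb s hs
  have := hx (fun v => π v + π' v) A (hA.mono (by
    rintro p q ⟨s, hs, h0⟩
    refine ⟨s, hs, ?_⟩
    simp only [SG.sh] at h0
    dsimp only
    omega)) a ha b hb s hs
  simp only [SG.sh]
  have e : x a b s + π b - π a + π' b - π' a = x a b s + (π b + π' b) - (π a + π' a) := by ring
  rw [e]; exact this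

theorem Anti.neg {G : SG V} {x : V → V → ZMod 2 → ℤ} (hx : G.Anti x) :
    G.Anti (fun a b s => - x a b s) := by
  intro a b s h
  simp only [hx a b s h]

theorem Good.neg {G : SG V} {x : V → V → ZMod 2 → ℤ} (hx : G.Good x) :
    G.Good (fun a b s => - x a b s) := by
  intro π A hA a ha b hb s hs
  have := hx (fun v => - π v) A (hA.mono (by
    rintro p q ⟨s, hs, h0⟩
    refine ⟨s, hs, ?_⟩
    dsimp only at h0 ⊢
    omega)) a ha b hb s hs
  rw [← abs_neg] at this
  have e : -(x a b s + -π b - -π a) = -x a b s + π b - π a := by ring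
  rw [e] at this
  exact this

/-- `Good` passes to subgraphs -/
theorem Good.mono {G H : SG V} {x : V → V → ZMod 2 → ℤ} (hx : G.Good x)
    (hle : ∀ a b s, H.E a b s → G.E a b s) : H.Good x := by
  intro π A hA a ha b hb s hs
  exact hx π A (hA.mono (by
    rintro p q ⟨s, hs, h0⟩
    exact ⟨s, hle _ _ _ hs, h0⟩)) a ha b hb s (hle _ _ _ hs)

/-- values on edges within a zero-connected set -/
theorem Good.le {G : SG V} {x : V → V → ZMod 2 → ℤ} (hx : G.Good x) {A : Set V}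
    (hA : Cn (G.Zr x (fun _ => 0)) A) {a b : V} (ha : a ∈ A) (hb : b ∈ A) {s : ZMod 2}
    (hs : G.E a b s) : |x a b s| ≤ 1 := by
  have := hx (fun _ => 0) A hA a ha b hb s hs
  simpa using this

/-- good labelling with the right parity -/
structure GoodX (G : SG V) (x : V → V → ZMod 2 → ℤ) : Prop where
  anti : G.Anti x
  par : ∀ a b s, G.E a b s → ((x a b s : ℤ) : ZMod 2) = s
  good : G.Good x

theorem goodX_of_sw (G : SG V) (F : V → ZMod 2) {x : V → V → ZMod 2 → ℤ}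
    (hx : (G.sw F).GoodX x) : ∃ x', G.GoodX x' := by
  have e : ∀ (s : ZMod 2) (a b : V), s + F a + F b + F a + F b = s := by
    intro s a b
    have h1 := CharTwo.add_self_eq_zero (F a)
    have h2 := CharTwo.add_self_eq_zero (F b)
    linear_combination h1 + h2
  have hE : ∀ a b s, G.E a b s → (G.sw F).E a b (s + F a + F b) := by
    intro a b s h
    show G.E a b (s + F a + F b + F a + F b)
    rw [e]; exact h
  set L : V → ℤ := fun z => ((F z).val : ℤ) with hL
  have hLc : ∀ z, ((L z : ℤ) : ZMod 2) = F z := by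
    intro z
    simp [hL]
  refine ⟨fun a b s => x a b (s + F a + F b) + L b - L a, ?_, ?_, ?_⟩
  · intro a b s h
    have h1 := hx.anti a b _ (hE a b s h)
    have e2 : s + F b + F a = s + F a + F b := by ring
    dsimp only
    rw [e2, h1]; ring
  · intro a b s h
    have h1 := hx.par a b _ (hE a b s h)
    push_cast
    rw [h1, hLc, hLc]
    have h1 := CharTwo.add_self_eq_zero (F b)
    linear_combination h1
  · intro π A hA a ha b hb s hs
    have := hx.good (fun v => L v + π v) A (hA.mono (by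
      rintro p q ⟨s, hs, h0⟩
      refine ⟨s + F p + F q, hE _ _ _ hs, ?_⟩
      dsimp only at h0 ⊢
      omega)) a ha b hb _ (hE _ _ _ hs)
    dsimp only at this ⊢
    have e3 : x a b (s + F a + F b) + L b - L a + π b - π a =
      x a b (s + F a + F b) + (L b + π b) - (L a + π a) := by ring
    rw [e3]; exact this

/-- simultaneous normalisation of two labellings -/
theorem norm2 [Finite V] {G : SG V} {S : Set V} (hS : Cn G.Adj S)
    {x1 x2 : V → V → ZMod 2 → ℤ} (h1 : G.Anti x1) (h2 : G.Anti x2)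
    (hp : ∀ a b s, G.E a b s → ((x1 a b s : ℤ) : ZMod 2) = ((x2 a b s : ℤ) : ZMod 2)) :
    ∃ π1 π2 : V → ℤ, (∀ v, ((π1 v : ℤ) : ZMod 2) = ((π2 v : ℤ) : ZMod 2)) ∧
      Cn (fun a b => ∃ s, G.E a b s ∧ x1 a b s + π1 b - π1 a = 0 ∧ x2 a b s + π2 b - π2 a = 0)
        S := by
  classical
  rcases S.eq_empty_or_nonempty with rfl | ⟨v0, hv0⟩
  · exact ⟨fun _ => 0, fun _ => 0, fun _ => rfl, Cn_empty _⟩
  set Q : Set V → Prop := fun A => A ⊆ S ∧ A.Nonempty ∧ ∃ π1 π2 : V → ℤ,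
    (∀ v, ((π1 v : ℤ) : ZMod 2) = ((π2 v : ℤ) : ZMod 2)) ∧
      Cn (fun a b => ∃ s, G.E a b s ∧ x1 a b s + π1 b - π1 a = 0 ∧ x2 a b s + π2 b - π2 a = 0)
        A with hQ
  obtain ⟨A, ⟨hAS, hAne, π1, π2, hpi, hA⟩, hmin⟩ :=
    exists_min Q (fun A => S.ncard - A.ncard) ⟨{v0}, by simpa using hv0, ⟨v0, rfl⟩,
      fun _ => 0, fun _ => 0, fun _ => rfl, Cn_singleton _ _⟩
  by_cases hAS' : A = S
  · rw [hAS'] at hA
    exact ⟨π1, π2, hpi, hA⟩
  exfalso
  have hne : (S \ A).Nonempty := by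
    by_contra h
    rw [Set.not_nonempty_iff_eq_empty, Set.sdiff_eq_empty] at h
    exact hAS' (Set.Subset.antisymm hAS h)
  obtain ⟨p, hp', q, hq, s, hs⟩ := hS A hAS hAne hne
  have hpq : p ≠ q := G.irr hs
  set π1' := Function.update π1 q (π1 p - x1 p q s) with h1'
  set π2' := Function.update π2 q (π2 p - x2 p q s) with h2'
  have hsym : ∀ a b, (∃ s, G.E a b s ∧ x1 a b s + π1' b - π1' a = 0 ∧
      x2 a b s + π2' b - π2' a = 0) → (∃ s, G.E b a s ∧ x1 b a s + π1' a - π1' b = 0 ∧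
      x2 b a s + π2' a - π2' b = 0) := by
    rintro a b ⟨s, hs, h01, h02⟩
    refine ⟨s, G.symm hs, ?_, ?_⟩
    · rw [h1 a b s hs]; omega
    · rw [h2 a b s hs]; omega
  have hQ' : Q (insert q A) := by
    refine ⟨?_, ⟨q, Or.inl rfl⟩, π1', π2', ?_, ?_⟩
    · rintro z (rfl | hz)
      · exact hq.1
      · exact hAS hz
    · intro v
      by_cases hv : v = q
      · subst hv
        simp only [h1', h2', Function.update_self]
        push_cast
        rw [hp _ _ _ hs, hpi p]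
      · simp only [h1', h2', Function.update_of_ne hv]
        exact hpi v
    · refine Cn.insert hsym (hA.mono' ?_) hp' (q := q) ?_
      · rintro a ha b hb ⟨s, hs, h01, h02⟩
        have haq : a ≠ q := by rintro rfl; exact hq.2 ha
        have hbq : b ≠ q := by rintro rfl; exact hq.2 hb
        refine ⟨s, hs, ?_, ?_⟩
        · simp only [h1', Function.update_of_ne haq, Function.update_of_ne hbq]
          exact h01
        · simp only [h2', Function.update_of_ne haq, Function.update_of_ne hbq]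
          exact h02
      · refine ⟨s, hs, ?_, ?_⟩
        · simp only [h1', Function.update_self, Function.update_of_ne hpq]
          ring
        · simp only [h2', Function.update_self, Function.update_of_ne hpq]
          ring
  have hlt : (insert q A).ncard = A.ncard + 1 := Set.ncard_insert_of_notMem hq.2 (Set.toFinite _)
  have hle : (insert q A).ncard ≤ S.ncard := Set.ncard_le_ncard hQ'.1 (Set.toFinite _)
  have := hmin _ hQ'
  omega

/-- uniqueness up to sign -/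
theorem lemmaU [Finite V] {G : SG V} {S : Set V} (hSupp : G.Supp S)
    (h2 : ∀ p ∈ S, Cn G.Adj (S \ {p}))
    {y1 y2 : V → V → ZMod 2 → ℤ} (ha1 : G.Anti y1) (ha2 : G.Anti y2)
    (hg1 : G.Good y1) (hg2 : G.Good y2)
    (hp : ∀ a b s, G.E a b s → ((y1 a b s : ℤ) : ZMod 2) = ((y2 a b s : ℤ) : ZMod 2))
    (hZ : Cn (fun a b => ∃ s, G.E a b s ∧ y1 a b s = 0 ∧ y2 a b s = 0) S) :
    (∀ a b s, G.E a b s → y2 a b s = y1 a b s) ∨ (∀ a b s, G.E a b s → y2 a b s = - y1 a b s) := by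
  classical
  set Z : V → V → Prop := fun a b => ∃ s, G.E a b s ∧ y1 a b s = 0 ∧ y2 a b s = 0 with hZd
  set P : V → V → Prop := fun a b => ∃ s, G.E a b s ∧ y1 a b s ≠ 0 ∧ y2 a b s = y1 a b s with hPd
  set N : V → V → Prop := fun a b => ∃ s, G.E a b s ∧ y1 a b s ≠ 0 ∧ y2 a b s = - y1 a b s with hNd
  have hz1 : Cn (G.Zr y1 (fun _ => 0)) S := hZ.mono (by
    rintro a b ⟨s, hs, h, _⟩; exact ⟨s, hs, by simpa using h⟩)
  have hz2 : Cn (G.Zr y2 (fun _ => 0)) S := hZ.mono (by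
    rintro a b ⟨s, hs, _, h⟩; exact ⟨s, hs, by simpa using h⟩)
  have hcase : ∀ a b s, G.E a b s → (y1 a b s = 0 ∧ y2 a b s = 0) ∨
      (y1 a b s ≠ 0 ∧ y2 a b s = y1 a b s) ∨ (y1 a b s ≠ 0 ∧ y2 a b s = - y1 a b s) := by
    intro a b s hs
    have h1 := abs_le.mp (hg1.le hz1 (hSupp _ _ _ hs) (hSupp.right hs) hs)
    have h2 := abs_le.mp (hg2.le hz2 (hSupp _ _ _ hs) (hSupp.right hs) hs)
    have h3 := hp a b s hs
    rw [ZMod.intCast_eq_intCast_iff] at h3
    have h4 : (y1 a b s) % 2 = (y2 a b s) % 2 := h3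
    omega
  by_cases hPe : ∃ a b, P a b
  · by_cases hNe : ∃ a b, N a b
    · exfalso
      have hZs : ∀ a b, Z a b → Z b a := by
        rintro a b ⟨s, hs, h1, h2⟩
        exact ⟨s, G.symm hs, by rw [ha1 a b s hs, h1]; rfl, by rw [ha2 a b s hs, h2]; rfl⟩
      have hPs : ∀ a b, P a b → P b a := by
        rintro a b ⟨s, hs, h1, h2⟩
        exact ⟨s, G.symm hs, by rw [ha1 a b s hs]; simpa using h1,
          by rw [ha1 a b s hs, ha2 a b s hs, h2]⟩
      have hNs : ∀ a b, N a b → N b a := by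
        rintro a b ⟨s, hs, h1, h2⟩
        exact ⟨s, G.symm hs, by rw [ha1 a b s hs]; simpa using h1,
          by rw [ha1 a b s hs, ha2 a b s hs, h2]⟩
      obtain ⟨A, hAS, hA, hSA, ⟨a, ha, b, hb, s, hs, hab1, hab2⟩, ⟨c, hc, d, hd, t, ht, hcd1, hcd2⟩⟩ :=
        lemmaX hZs hPs hNs
          (by rintro a b ⟨s, hs, _⟩; exact ⟨hSupp _ _ _ hs, hSupp.right hs, G.irr hs⟩)
          (by rintro a b ⟨s, hs, _⟩; exact ⟨hSupp _ _ _ hs, hSupp.right hs, G.irr hs⟩)
          hZ
          (fun p hp => (h2 p hp).mono (by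
            rintro a b ⟨s, hs⟩
            rcases hcase a b s hs with h | h | h
            · exact Or.inl ⟨s, hs, h⟩
            · exact Or.inr (Or.inl ⟨s, hs, h⟩)
            · exact Or.inr (Or.inr ⟨s, hs, h⟩))) hPe hNe
      set ε := y1 a b s with hε
      set δ := y1 c d t with hδ
      set π : V → ℤ := fun v => if v ∈ A then 0 else -ε with hπ
      have hπA : ∀ v ∈ A, π v = 0 := fun v hv => by simp [hπ, hv]
      have hπB : ∀ v ∈ S \ A, π v = -ε := fun v hv => by simp [hπ, hv.2]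
      have hunion : A ∪ (S \ A) = S := Set.union_sdiff_cancel hAS
      have hc1 : Cn (G.Zr y1 π) S := by
        rw [← hunion]
        refine Cn.union_edge (Zr_symm ha1 π) (hA.mono' ?_) (hSA.mono' ?_) ha hb ?_
        · rintro p hp q hq ⟨s, hs, h1, h2⟩
          exact ⟨s, hs, by rw [hπA p hp, hπA q hq, h1]; rfl⟩
        · rintro p hp q hq ⟨s, hs, h1, h2⟩
          exact ⟨s, hs, by rw [hπB p hp, hπB q hq, h1]; ring⟩
        · exact ⟨s, hs, by rw [hπA a ha, hπB b hb]; ring⟩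
      have hc2 : Cn (G.Zr y2 π) S := by
        rw [← hunion]
        refine Cn.union_edge (Zr_symm ha2 π) (hA.mono' ?_) (hSA.mono' ?_) ha hb ?_
        · rintro p hp q hq ⟨s, hs, h1, h2⟩
          exact ⟨s, hs, by rw [hπA p hp, hπA q hq, h2]; rfl⟩
        · rintro p hp q hq ⟨s, hs, h1, h2⟩
          exact ⟨s, hs, by rw [hπB p hp, hπB q hq, h2]; ring⟩
        · exact ⟨s, hs, by rw [hπA a ha, hπB b hb, hab2]; ring⟩
      have k1 := abs_le.mp (hg1 π S hc1 c (hAS hc) d hd.1 t ht)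
      have k2 := abs_le.mp (hg2 π S hc2 c (hAS hc) d hd.1 t ht)
      rw [hπA c hc, hπB d hd] at k1 k2
      rw [hcd2] at k2
      have b1 := abs_le.mp (hg1.le hz1 (hSupp _ _ _ hs) (hSupp.right hs) hs)
      have b2 := abs_le.mp (hg1.le hz1 (hSupp _ _ _ ht) (hSupp.right ht) ht)
      rw [← hε] at b1
      rw [← hδ] at b2 k1
      omega
    · left
      intro a b s hs
      rcases hcase a b s hs with h | h | h
      · rw [h.1, h.2]
      · exact h.2
      · exact absurd ⟨a, b, s, hs, h⟩ hNe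
  · right
    intro a b s hs
    rcases hcase a b s hs with h | h | h
    · rw [h.1, h.2]; rfl
    · exact absurd ⟨a, b, s, hs, h⟩ hPe
    · exact h.2

end SG

end Pool.Agent.H55.K4
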