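import Pool.Agent.H55.K4.Finite

set_option autoImplicit false

namespace Pool.Agent.H55.K4

namespace SG

variable {V : Type*}

/-- restriction -/
def restr (G : SG V) (T : Set V) : SG V where
  E a b s := G.E a b s ∧ a ∈ T ∧ b ∈ T
  symm := fun h => ⟨G.symm h.1, h.2.2, h.2.1⟩
  irr := fun h => G.irr h.1

/-- adding virtual edges between `x` and `y` -/
def plus (G : SG V) (T : Set V) (x y : V) (hxy : x ≠ y) (Q : ZMod 2 → Prop) : SG V where
  E a b t := (G.E a b t ∧ a ∈ T ∧ b ∈ T) ∨ (Q t ∧ ((a = x ∧ b = y) ∨ (a = y ∧ b = x)))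
  symm := by
    rintro a b s (⟨h, ha, hb⟩ | ⟨h, h'⟩)
    · exact Or.inl ⟨G.symm h, hb, ha⟩
    · exact Or.inr ⟨h, by tauto⟩
  irr := by
    rintro a b s (⟨h, ha, hb⟩ | ⟨h, ⟨rfl, rfl⟩ | ⟨rfl, rfl⟩⟩)
    · exact G.irr h
    · exact hxy
    · exact hxy.symm

/-- edges meeting `I` -/
def Hs (G : SG V) (I : Set V) : SG V where
  E a b s := G.E a b s ∧ (a ∈ I ∨ b ∈ I)
  symm := fun h => ⟨G.symm h.1, h.2.symm⟩
  irr := fun h => G.irr h.1

/-- normalisation mod 2 -/
theorem norm1 [Finite V] {G : SG V} {S : Set V} (hS : Cn G.Adj S) :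
    ∃ f : V → ZMod 2, Cn (fun a b => G.E a b (f a + f b)) S := by
  classical
  rcases S.eq_empty_or_nonempty with rfl | ⟨v0, hv0⟩
  · exact ⟨fun _ => 0, Cn_empty _⟩
  set Q : Set V → Prop := fun A => A ⊆ S ∧ A.Nonempty ∧ ∃ f : V → ZMod 2,
      Cn (fun a b => G.E a b (f a + f b)) A with hQ
  obtain ⟨A, ⟨hAS, hAne, f, hA⟩, hmin⟩ :=
    exists_min Q (fun A => S.ncard - A.ncard) ⟨{v0}, by simpa using hv0, ⟨v0, rfl⟩,
      fun _ => 0, Cn_singleton _ _⟩
  by_cases hAS' : A = S
  · rw [hAS'] at hA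
    exact ⟨f, hA⟩
  exfalso
  have hne : (S \ A).Nonempty := by
    by_contra h
    rw [Set.not_nonempty_iff_eq_empty, Set.sdiff_eq_empty] at h
    exact hAS' (Set.Subset.antisymm hAS h)
  obtain ⟨p, hp', q, hq, s, hs⟩ := hS A hAS hAne hne
  have hpq : p ≠ q := G.irr hs
  set f' := Function.update f q (f p + s) with hf'
  have hsym : ∀ a b, G.E a b (f' a + f' b) → G.E b a (f' b + f' a) := by
    intro a b h
    rw [add_comm (f' b)]; exact G.symm h
  have hQ' : Q (insert q A) := by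
    refine ⟨?_, ⟨q, Or.inl rfl⟩, f', ?_⟩
    · rintro z (rfl | hz)
      · exact hq.1
      · exact hAS hz
    · refine Cn.insert hsym (hA.mono' ?_) hp' (q := q) ?_
      · intro a ha b hb h
        have haq : a ≠ q := by rintro rfl; exact hq.2 ha
        have hbq : b ≠ q := by rintro rfl; exact hq.2 hb
        simp only [hf', Function.update_of_ne haq, Function.update_of_ne hbq]
        exact h
      · simp only [hf', Function.update_self, Function.update_of_ne hpq]
        have : f p + (f p + s) = s := by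
          have := CharTwo.add_self_eq_zero (f p)
          linear_combination this
        rw [this]; exact hs
  have hlt : (insert q A).ncard = A.ncard + 1 := Set.ncard_insert_of_notMem hq.2 (Set.toFinite _)
  have hle : (insert q A).ncard ≤ S.ncard := Set.ncard_le_ncard hQ'.1 (Set.toFinite _)
  have := hmin _ hQ'
  omega

/-- separations of order two -/
structure Sep (G : SG V) (S : Set V) (x y : V) (I1 I2 : Set V) : Prop where
  supp : G.Supp S
  hx : x ∈ S
  hy : y ∈ S
  hxy : x ≠ y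
  h1 : I1.Nonempty
  h2 : I2.Nonempty
  disj : ∀ z ∈ I1, z ∉ I2
  un : ∀ z, (z ∈ I1 ∨ z ∈ I2) ↔ (z ∈ S ∧ z ≠ x ∧ z ≠ y)
  no : ∀ a ∈ I1, ∀ b ∈ I2, ∀ s, ¬ G.E a b s
  g1 : Cn G.Adj S
  g2 : ∀ p ∈ S, Cn G.Adj (S \ {p})

namespace Sep

variable {G : SG V} {S : Set V} {x y : V} {I1 I2 : Set V}

theorem swap (h : Sep G S x y I1 I2) : Sep G S x y I2 I1 where
  supp := h.supp
  hx := h.hx
  hy := h.hy
  hxy := h.hxy
  h1 := h.h2
  h2 := h.h1
  disj := fun z hz hz' => h.disj z hz' hz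
  un := fun z => by rw [← h.un z]; exact or_comm
  no := fun a ha b hb s hs => h.no b hb a ha s (G.symm hs)
  g1 := h.g1
  g2 := h.g2

theorem xI (h : Sep G S x y I1 I2) : x ∉ I1 := fun hx => ((h.un x).mp (Or.inl hx)).2.1 rfl
theorem yI (h : Sep G S x y I1 I2) : y ∉ I1 := fun hy => ((h.un y).mp (Or.inl hy)).2.2 rfl
theorem IS (h : Sep G S x y I1 I2) : I1 ⊆ S := fun z hz => ((h.un z).mp (Or.inl hz)).1

theorem edge (h : Sep G S x y I1 I2) {a b : V} {s : ZMod 2} (ha : a ∈ I1) (hab : G.E a b s) :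
    b ∈ I1 ∨ b = x ∨ b = y := by
  have hb : b ∈ S := h.supp.right hab
  by_cases hbx : b = x
  · exact Or.inr (Or.inl hbx)
  · by_cases hby : b = y
    · exact Or.inr (Or.inr hby)
    · rcases (h.un b).mpr ⟨hb, hbx, hby⟩ with h' | h'
      · exact Or.inl h'
      · exact absurd hab (h.no a ha b h' s)

theorem TS (h : Sep G S x y I1 I2) : insert x (insert y I1) ⊆ S := by
  rintro z (rfl | rfl | hz)
  · exact h.hx
  · exact h.hy
  · exact h.IS hz

/-- edges leaving a set which meets the interior and does not contain both ends -/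
theorem leave (h : Sep G S x y I1 I2) {B : Set V} (hB : B ⊆ insert x (insert y I1)) {k : V}
    (hk : k ∈ B) (hkI : k ∈ I1) (hxy : ¬ (x ∈ B ∧ y ∈ B)) :
    ∃ a ∈ B, a ∈ I1 ∧ ∃ b ∈ insert x (insert y I1) \ B, G.Adj a b := by
  have hkx : k ≠ x := by rintro rfl; exact h.xI hkI
  have hky : k ≠ y := by rintro rfl; exact h.yI hkI
  by_cases hxB : x ∈ B
  · have hyB : y ∉ B := fun hy => hxy ⟨hxB, hy⟩
    obtain ⟨a, ha, b, hb, s, hs⟩ := h.g2 x h.hx (B \ {x}) (fun z hz => ⟨h.TS (hB hz.1), hz.2⟩)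
      ⟨k, hk, hkx⟩ ⟨y, ⟨h.hy, h.hxy.symm⟩, fun h' => hyB h'.1⟩
    have haI : a ∈ I1 := by
      rcases hB ha.1 with h' | h' | h'
      · exact absurd h' ha.2
      · rw [h'] at ha; exact absurd ha.1 hyB
      · exact h'
    refine ⟨a, ha.1, haI, b, ⟨?_, fun h' => hb.2 ⟨h', hb.1.2⟩⟩, s, hs⟩
    rcases h.edge haI hs with h' | h' | h'
    · exact Or.inr (Or.inr h')
    · exact Or.inl h'
    · exact Or.inr (Or.inl h')
  · by_cases hyB : y ∈ B
    · obtain ⟨a, ha, b, hb, s, hs⟩ := h.g2 y h.hy (B \ {y}) (fun z hz => ⟨h.TS (hB hz.1), hz.2⟩)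
        ⟨k, hk, hky⟩ ⟨x, ⟨h.hx, h.hxy⟩, fun h' => hxB h'.1⟩
      have haI : a ∈ I1 := by
        rcases hB ha.1 with h' | h' | h'
        · rw [h'] at ha; exact absurd ha.1 hxB
        · exact absurd h' ha.2
        · exact h'
      refine ⟨a, ha.1, haI, b, ⟨?_, fun h' => hb.2 ⟨h', hb.1.2⟩⟩, s, hs⟩
      rcases h.edge haI hs with h' | h' | h'
      · exact Or.inr (Or.inr h')
      · exact Or.inl h'
      · exact Or.inr (Or.inl h')
    · obtain ⟨a, ha, b, hb, s, hs⟩ := h.g1 B (fun z hz => h.TS (hB hz))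
        ⟨k, hk⟩ ⟨x, h.hx, hxB⟩
      have haI : a ∈ I1 := by
        rcases hB ha with h' | h' | h'
        · rw [h'] at ha; exact absurd ha hxB
        · rw [h'] at ha; exact absurd ha hyB
        · exact h'
      refine ⟨a, ha, haI, b, ⟨?_, hb.2⟩, s, hs⟩
      rcases h.edge haI hs with h' | h' | h'
      · exact Or.inr (Or.inr h')
      · exact Or.inl h'
      · exact Or.inr (Or.inl h')

theorem s1 (h : Sep G S x y I1 I2) : Cn (G.Hs I1).Adj (insert x (insert y I1)) := by
  intro B hB h1 h2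
  by_cases c1 : (∃ k ∈ B, k ∈ I1) ∧ ¬ (x ∈ B ∧ y ∈ B)
  · obtain ⟨⟨k, hk, hkI⟩, hxy⟩ := c1
    obtain ⟨a, ha, haI, b, hb, s, hs⟩ := h.leave hB hk hkI hxy
    exact ⟨a, ha, b, hb, s, hs, Or.inl haI⟩
  · by_cases c2 : (∃ k ∈ insert x (insert y I1) \ B, k ∈ I1) ∧
        ¬ (x ∈ insert x (insert y I1) \ B ∧ y ∈ insert x (insert y I1) \ B)
    · obtain ⟨⟨k, hk, hkI⟩, hxy⟩ := c2
      obtain ⟨a, ha, haI, b, hb, s, hs⟩ := h.leave Set.sdiff_subset hk hkI hxy
      refine ⟨b, ?_, a, ha, s, G.symm hs, Or.inr haI⟩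
      by_contra hbB
      exact hb.2 ⟨hb.1, hbB⟩
    · exfalso
      have hxT : x ∈ insert x (insert y I1) := Or.inl rfl
      have hyT : y ∈ insert x (insert y I1) := Or.inr (Or.inl rfl)
      obtain ⟨k, hk⟩ := h.h1
      have hkT : k ∈ insert x (insert y I1) := Or.inr (Or.inr hk)
      by_cases hkB : k ∈ B
      · have hxyB : x ∈ B ∧ y ∈ B := by
          by_contra h'
          exact c1 ⟨⟨k, hkB, hk⟩, h'⟩
        obtain ⟨z, hz⟩ := h2
        have hzI : z ∈ I1 := by
          rcases hz.1 with h' | h' | h'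
          · rw [h'] at hz; exact absurd hxyB.1 hz.2
          · rw [h'] at hz; exact absurd hxyB.2 hz.2
          · exact h'
        exact c2 ⟨⟨z, hz, hzI⟩, fun h' => h'.1.2 hxyB.1⟩
      · have hxyB : x ∉ B ∧ y ∉ B := by
          by_contra h'
          apply c2
          refine ⟨⟨k, ⟨hkT, hkB⟩, hk⟩, fun h'' => h' ⟨h''.1.2, h''.2.2⟩⟩
        obtain ⟨z, hz⟩ := h1
        have hzI : z ∈ I1 := by
          rcases hB hz with h' | h' | h'
          · rw [h'] at hz; exact absurd hz hxyB.1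
          · rw [h'] at hz; exact absurd hz hxyB.2
          · exact h'
        exact c1 ⟨⟨z, hz, hzI⟩, fun h' => hxyB.1 h'.1⟩

theorem s2 (h : Sep G S x y I1 I2) {p : V} (hp : p ∈ insert x (insert y I1)) :
    Cn (fun a b => (G.Hs I1).Adj a b ∨ ((a = x ∧ b = y) ∨ (a = y ∧ b = x)))
      (insert x (insert y I1) \ {p}) := by
  have key : ∀ B ⊆ insert x (insert y I1) \ {p}, B.Nonempty →
      ((insert x (insert y I1) \ {p}) \ B).Nonempty → x ∉ B → y ∉ B →
      ∃ a ∈ B, a ∈ I1 ∧ ∃ b ∈ (insert x (insert y I1) \ {p}) \ B, G.Adj a b := by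
    intro B hB h1 h2 hxB hyB
    obtain ⟨z, hz⟩ := h2
    obtain ⟨a, ha, b, hb, s, hs⟩ := h.g2 p (h.TS hp) B (fun z hz => ⟨h.TS (hB hz).1, (hB hz).2⟩) h1
      ⟨z, ⟨h.TS hz.1.1, hz.1.2⟩, hz.2⟩
    have haI : a ∈ I1 := by
      rcases (hB ha).1 with h' | h' | h'
      · rw [h'] at ha; exact absurd ha hxB
      · rw [h'] at ha; exact absurd ha hyB
      · exact h'
    refine ⟨a, ha, haI, b, ⟨⟨?_, hb.1.2⟩, hb.2⟩, s, hs⟩
    rcases h.edge haI hs with h' | h' | h'
    · exact Or.inr (Or.inr h')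
    · exact Or.inl h'
    · exact Or.inr (Or.inl h')
  intro B hB h1 h2
  by_cases c1 : x ∉ B ∧ y ∉ B
  · obtain ⟨a, ha, haI, b, hb, s, hs⟩ := key B hB h1 h2 c1.1 c1.2
    exact ⟨a, ha, b, hb, Or.inl ⟨s, hs, Or.inl haI⟩⟩
  · by_cases c2 : x ∉ (insert x (insert y I1) \ {p}) \ B ∧ y ∉ (insert x (insert y I1) \ {p}) \ B
    · obtain ⟨a, ha, haI, b, hb, s, hs⟩ := key _ Set.sdiff_subset h2 (by
        rw [Set.sdiff_sdiff_cancel_left hB]; exact h1) c2.1 c2.2
      rw [Set.sdiff_sdiff_cancel_left hB] at hb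
      exact ⟨b, hb, a, ha, Or.inl ⟨s, G.symm hs, Or.inr haI⟩⟩
    · have c1' : x ∈ B ∨ y ∈ B := by tauto
      have c2' : x ∈ (insert x (insert y I1) \ {p}) \ B ∨ y ∈ (insert x (insert y I1) \ {p}) \ B := by
        tauto
      rcases c1' with h3 | h3 <;> rcases c2' with h4 | h4
      · exact absurd h3 h4.2
      · exact ⟨x, h3, y, h4, Or.inr (Or.inl ⟨rfl, rfl⟩)⟩
      · exact ⟨y, h3, x, h4, Or.inr (Or.inr ⟨rfl, rfl⟩)⟩
      · exact absurd h3 h4.2

end Sep

/-- real signs of a side -/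
def Real (G : SG V) (I : Set V) (x y : V) (s : ZMod 2) : Prop :=
  ∃ (f : V → ZMod 2) (K : Set V), K ⊆ I ∧ K.Nonempty ∧ Cn (fun a b => G.E a b (f a + f b)) K ∧
    (∃ k ∈ K, G.E k x (f k + f x)) ∧ (∃ k ∈ K, G.E k y (f k + f y)) ∧ f x + f y = s

variable {G : SG V} {S : Set V} {x y : V} {I1 I2 : Set V}

theorem Sep.real_of_cn (h : Sep G S x y I1 I2) {f : V → ZMod 2}
    (hf : Cn (fun a b => (G.Hs I1).E a b (f a + f b)) (insert x (insert y I1))) :
    G.Real I1 x y (f x + f y) := by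
  have hsym : ∀ a b, (G.Hs I1).E a b (f a + f b) → (G.Hs I1).E b a (f b + f a) := by
    intro a b h
    rw [add_comm (f b)]; exact (G.Hs I1).symm h
  obtain ⟨w, hw, _, hwy, m, hm, hmx⟩ := Mtrick hsym hf (Or.inl rfl) (Or.inr (Or.inl rfl)) h.hxy
    (by
      rintro ⟨_, h' | h'⟩
      · exact h.xI h'
      · exact h.yI h')
  have hMs := comp_subset (r := fun a b => (G.Hs I1).E a b (f a + f b)) hw
  refine ⟨f, comp (fun a b => (G.Hs I1).E a b (f a + f b)) (insert x (insert y I1) \ {x, y}) w,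
    ?_, ⟨w, mem_comp_self _ _ _⟩, (Cn_comp hsym hw).mono fun a b h => h.1, ⟨m, hm, hmx.1⟩,
    ⟨w, mem_comp_self _ _ _, hwy.1⟩, rfl⟩
  intro z hz
  have := hMs hz
  rcases this.1 with h' | h' | h'
  · exact absurd (Or.inl h') this.2
  · exact absurd (Or.inr h') this.2
  · exact h'

theorem Sep.exists_real [Finite V] (h : Sep G S x y I1 I2) : ∃ s, G.Real I1 x y s := by
  obtain ⟨f, hf⟩ := norm1 h.s1
  exact ⟨_, h.real_of_cn hf⟩

/-- a side with only one real sign is balanced -/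
theorem Sep.balanced [Finite V] (h : Sep G S x y I1 I2) {s' : ZMod 2}
    (hs' : ¬ G.Real I1 x y s') :
    ∃ f : V → ZMod 2, (∀ a b s, (G.Hs I1).E a b s → s = f a + f b) ∧ f x + f y = s' + 1 := by
  classical
  obtain ⟨f, hf⟩ := norm1 h.s1
  have hreal := h.real_of_cn hf
  have hfxy : f x + f y = s' + 1 := by
    have hne : f x + f y ≠ s' := fun h' => hs' (h' ▸ hreal)
    generalize f x + f y = u at hne
    clear * - hne
    revert u s'; decide
  refine ⟨f, ?_, hfxy⟩
  by_contra hcon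
  push Not at hcon
  obtain ⟨a0, b0, s0, hab0, hs0⟩ := hcon
  have hT : ∀ a b s, (G.Hs I1).E a b s → a ∈ insert x (insert y I1) := by
    rintro a b s ⟨hE, ha | hb⟩
    · exact Or.inr (Or.inr ha)
    · rcases h.edge hb (G.symm hE) with h' | h' | h'
      · exact Or.inr (Or.inr h')
      · exact Or.inl h'
      · exact Or.inr (Or.inl h')
  set Z : V → V → Prop := fun a b => (G.Hs I1).E a b (f a + f b) with hZ
  set N : V → V → Prop := fun a b => (G.Hs I1).E a b (f a + f b + 1) with hN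
  set P : V → V → Prop := fun a b => (a = x ∧ b = y) ∨ (a = y ∧ b = x) with hP
  have hone : ∀ a b : V, ∀ s : ZMod 2, s ≠ f a + f b → s = f a + f b + 1 := by
    intro a b s
    generalize f a + f b = u
    revert u s; decide
  have hZs : ∀ a b, Z a b → Z b a := by
    intro a b h
    show (G.Hs I1).E b a (f b + f a)
    rw [add_comm (f b)]; exact (G.Hs I1).symm h
  have hNs : ∀ a b, N a b → N b a := by
    intro a b h
    show (G.Hs I1).E b a (f b + f a + 1)
    rw [add_comm (f b)]; exact (G.Hs I1).symm h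
  have hPs : ∀ a b, P a b → P b a := by
    rintro a b (h | h)
    · exact Or.inr ⟨h.2, h.1⟩
    · exact Or.inl ⟨h.2, h.1⟩
  obtain ⟨A, hAT, hA, hTA, ⟨a, ha, b, hb, hab⟩, ⟨c, hc, d, hd, hcd⟩⟩ :=
    lemmaX (S := insert x (insert y I1)) hZs hPs hNs
      (fun a b h' => ⟨hT _ _ _ h', hT _ _ _ ((G.Hs I1).symm h'), (G.Hs I1).irr h'⟩)
      (by
        rintro a b (⟨rfl, rfl⟩ | ⟨rfl, rfl⟩)
        · exact ⟨Or.inl rfl, Or.inr (Or.inl rfl), h.hxy⟩
        · exact ⟨Or.inr (Or.inl rfl), Or.inl rfl, h.hxy.symm⟩)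
      hf
      (fun p hp => (h.s2 hp).mono (by
        rintro a b (⟨s, hs⟩ | h')
        · by_cases hh : s = f a + f b
          · rw [hh] at hs
            exact Or.inl hs
          · rw [hone a b s hh] at hs
            exact Or.inr (Or.inr hs)
        · exact Or.inr (Or.inl h')))
      ⟨x, y, Or.inl ⟨rfl, rfl⟩⟩ ⟨a0, b0, by
        show (G.Hs I1).E a0 b0 (f a0 + f b0 + 1)
        rw [← hone a0 b0 s0 hs0]; exact hab0⟩
  set f1 : V → ZMod 2 := fun z => if z ∈ A then f z else f z + 1 with hf1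
  have hin : ∀ z ∈ A, f1 z = f z := fun z hz => by simp only [hf1, if_pos hz]
  have hout : ∀ z, z ∉ A → f1 z = f z + 1 := fun z hz => by simp only [hf1, if_neg hz]
  have h11 : (1 : ZMod 2) + 1 = 0 := by decide
  have hunion : A ∪ (insert x (insert y I1) \ A) = insert x (insert y I1) :=
    Set.union_sdiff_cancel hAT
  have hcn : Cn (fun a b => (G.Hs I1).E a b (f1 a + f1 b)) (insert x (insert y I1)) := by
    rw [← hunion]
    refine Cn.union_edge ?_ (hA.mono' ?_) (hTA.mono' ?_) hc hd ?_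
    · intro a b h
      rw [add_comm (f1 b)]; exact (G.Hs I1).symm h
    · intro p hp q hq h'
      rw [hin p hp, hin q hq]; exact h'
    · intro p hp q hq h'
      rw [hout p hp.2, hout q hq.2]
      have : f p + 1 + (f q + 1) = f p + f q := by linear_combination h11
      rw [this]; exact h'
    · rw [hin c hc, hout d hd.2]
      have : f c + (f d + 1) = f c + f d + 1 := by ring
      rw [this]; exact hcd
  have hreal1 := h.real_of_cn hcn
  have hf1xy : f1 x + f1 y = s' := by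
    have : f1 x + f1 y = f x + f y + 1 := by
      rcases hab with ⟨rfl, rfl⟩ | ⟨rfl, rfl⟩
      · rw [hin _ ha, hout _ hb.2]; ring
      · rw [hin _ ha, hout _ hb.2]; ring
    rw [this, hfxy]
    linear_combination h11
  exact hs' (hf1xy ▸ hreal1)

/-- odd K4 of one side plus one real virtual edge -/
theorem Sep.oddK4_of_plus1 (h : Sep G S x y I1 I2) {s : ZMod 2} (hreal : G.Real I2 x y s)
    (hodd : (G.plus (insert x (insert y I1)) x y h.hxy (fun t => t = s)).OddK4) : G.OddK4 := by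
  classical
  obtain ⟨f, K, hKI, hKne, hKcn, ⟨k1, hk1, hk1x⟩, ⟨k2, hk2, hk2y⟩, hfs⟩ := hreal
  have hKT : ∀ z ∈ insert x (insert y I1), z ∉ K := by
    rintro z hz hzK
    rcases hz with h' | h' | h'
    · exact h.swap.xI (h' ▸ hKI hzK)
    · exact h.swap.yI (h' ▸ hKI hzK)
    · exact h.disj z h' (hKI hzK)
  set φ : V → V := fun p => if p ∈ K then x else p with hφ
  set F : V → ZMod 2 := fun p => if p ∈ K then f p + f x else 0 with hF
  have hφK : ∀ p ∈ K, φ p = x := fun p hp => by simp only [hφ, if_pos hp]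
  have hφn : ∀ p, p ∉ K → φ p = p := fun p hp => by simp only [hφ, if_neg hp]
  have hFK : ∀ p ∈ K, F p = f p + f x := fun p hp => by simp only [hF, if_pos hp]
  have hFn : ∀ p, p ∉ K → F p = 0 := fun p hp => by simp only [hF, if_neg hp]
  have hxK : x ∉ K := hKT x (Or.inl rfl)
  have hyK : y ∉ K := hKT y (Or.inr (Or.inl rfl))
  have h2 : ∀ z : ZMod 2, z + z = 0 := fun z => CharTwo.add_self_eq_zero z
  refine oddK4_of_quot G _ (insert x (insert y I1) ∪ K) φ F ?_ ?_ hodd
  · intro w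
    by_cases hw : w = x
    · have : {p | p ∈ insert x (insert y I1) ∪ K ∧ φ p = w} = insert x K := by
        ext z
        constructor
        · rintro ⟨hz, hzw⟩
          by_cases hzK : z ∈ K
          · exact Or.inr hzK
          · rw [hφn z hzK] at hzw
            exact Or.inl (hzw.trans hw)
        · rintro (rfl | hz)
          · exact ⟨Or.inl (Or.inl rfl), by rw [hφn _ hxK]; exact hw.symm⟩
          · exact ⟨Or.inr hz, by rw [hφK z hz]; exact hw.symm⟩
      rw [this]
      refine Cn.insert ?_ (hKcn.mono' ?_) hk1 ?_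
      · intro a b h
        rw [add_comm (F b)]; exact G.symm h
      · intro p hp q hq h'
        rw [hFK p hp, hFK q hq]
        have : f p + f x + (f q + f x) = f p + f q := by linear_combination h2 (f x)
        rw [this]; exact h'
      · rw [hFK k1 hk1, hFn x hxK, add_zero]; exact hk1x
    · by_cases hwT : w ∈ insert x (insert y I1)
      · have : {p | p ∈ insert x (insert y I1) ∪ K ∧ φ p = w} = {w} := by
          ext z
          constructor
          · rintro ⟨hz, hzw⟩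
            by_cases hzK : z ∈ K
            · rw [hφK z hzK] at hzw; exact absurd hzw.symm hw
            · rw [hφn z hzK] at hzw; exact hzw
          · rintro rfl
            exact ⟨Or.inl hwT, hφn _ (hKT _ hwT)⟩
        rw [this]; exact Cn_singleton _ _
      · have : {p | p ∈ insert x (insert y I1) ∪ K ∧ φ p = w} = ∅ := by
          ext z
          simp only [Set.mem_ofPred_eq, Set.mem_empty_iff_false, iff_false]
          rintro ⟨hz, hzw⟩
          by_cases hzK : z ∈ K
          · rw [hφK z hzK] at hzw; exact absurd hzw.symm hw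
          · rw [hφn z hzK] at hzw
            rcases hz with h' | h'
            · exact hwT (hzw ▸ h')
            · exact hzK h'
        rw [this]; exact Cn_empty _
  · have hkey : G.E k2 y (s + F k2 + F y) := by
      rw [hFK k2 hk2, hFn y hyK]
      have : s + (f k2 + f x) + 0 = f k2 + f y := by rw [← hfs]; linear_combination h2 (f x)
      rw [this]; exact hk2y
    rintro a b t (⟨hE, ha, hb⟩ | ⟨rfl, ⟨rfl, rfl⟩ | ⟨rfl, rfl⟩⟩)
    · refine ⟨a, Or.inl ha, b, Or.inl hb, hφn _ (hKT a ha), hφn _ (hKT b hb), ?_⟩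
      rw [hFn _ (hKT a ha), hFn _ (hKT b hb)]; simpa using hE
    · exact ⟨k2, Or.inr hk2, b, Or.inl (Or.inr (Or.inl rfl)), hφK k2 hk2, hφn _ hyK, hkey⟩
    · refine ⟨a, Or.inl (Or.inr (Or.inl rfl)), k2, Or.inr hk2, hφn _ hyK, hφK k2 hk2, ?_⟩
      have := G.symm hkey
      have e : t + F k2 + F a = t + F a + F k2 := by ring
      rw [← e]; exact this

/-- odd K4 of one side plus real virtual edges -/
theorem Sep.oddK4_of_plus (h : Sep G S x y I1 I2) {Q : ZMod 2 → Prop}
    (hQ : ∀ s, Q s → G.Real I2 x y s)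
    (hodd : (G.plus (insert x (insert y I1)) x y h.hxy Q).OddK4) : G.OddK4 := by
  classical
  obtain ⟨X, B, hne, hdis, hcn, hcr⟩ := hodd
  set s0 : ZMod 2 := if ∃ i, x ∈ B i ∧ y ∈ B i then X x + X y else X x + X y + 1 with hs0
  have hodd' : (G.plus (insert x (insert y I1)) x y h.hxy (fun t => t = s0 ∧ Q t)).OddK4 := by
    refine ⟨X, B, hne, hdis, ?_, ?_⟩
    · intro i
      refine (hcn i).mono' ?_
      rintro a ha b hb (h' | ⟨hq, hab⟩)
      · exact Or.inl h'
      · refine Or.inr ⟨⟨?_, hq⟩, hab⟩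
        rcases hab with ⟨rfl, rfl⟩ | ⟨rfl, rfl⟩
        · rw [hs0, if_pos ⟨i, ha, hb⟩]
        · rw [hs0, if_pos ⟨i, hb, ha⟩, add_comm]
    · intro i j hij
      obtain ⟨a, ha, b, hb, hab⟩ := hcr i j hij
      refine ⟨a, ha, b, hb, ?_⟩
      rcases hab with h' | ⟨hq, hab⟩
      · exact Or.inl h'
      · refine Or.inr ⟨⟨?_, hq⟩, hab⟩
        rcases hab with ⟨rfl, rfl⟩ | ⟨rfl, rfl⟩
        · rw [hs0, if_neg]
          rintro ⟨k, hk1, hk2⟩
          have e1 : i = k := by
            by_contra hne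
            exact hdis i k hne a ha hk1
          have e2 : j = k := by
            by_contra hne
            exact hdis j k hne b hb hk2
          exact hij (e1.trans e2.symm)
        · rw [hs0, if_neg]
          · ring
          rintro ⟨k, hk1, hk2⟩
          have e1 : i = k := by
            by_contra hne
            exact hdis i k hne a ha hk2
          have e2 : j = k := by
            by_contra hne
            exact hdis j k hne b hb hk1
          exact hij (e1.trans e2.symm)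
  by_cases hqs : Q s0
  · refine h.oddK4_of_plus1 (hQ s0 hqs) (oddK4_mono ?_ hodd')
    rintro a b t (h' | ⟨hq, hab⟩)
    · exact Or.inl h'
    · exact Or.inr ⟨hq.1, hab⟩
  · refine oddK4_mono ?_ hodd'
    rintro a b t (h' | ⟨hq, hab⟩)
    · exact h'.1
    · exact absurd (hq.1 ▸ hq.2) hqs

end SG

end Pool.Agent.H55.K4
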