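import Pool.Agent.H55.K4.LemmaC

set_option autoImplicit false

namespace Pool.Agent.H55.K4

/-- contractible edges in 3-connected graphs -/
theorem thomassen {V : Type*} [Finite V] {r : V → V → Prop} (hr : ∀ a b, r a b → r b a) {S : Set V}
    (hrS : ∀ a b, r a b → a ∈ S ∧ b ∈ S ∧ a ≠ b)
    (h3 : ∀ w w', Cn r (S \ {w, w'})) (hcard : 4 ≤ S.ncard) :
    ∃ u v, r u v ∧ ∀ z, Cn r (S \ {u, v, z}) := by
  by_contra hcon
  have hcon' : ∀ u v, r u v → ∃ z ∈ S, z ≠ u ∧ z ≠ v ∧ ∃ C ⊆ S \ {u, v, z}, C.Nonempty ∧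
      ((S \ {u, v, z}) \ C).Nonempty ∧ ∀ p ∈ C, ∀ q ∈ (S \ {u, v, z}) \ C, ¬ r p q := by
    intro u v huv
    have h1 : ∃ z, ¬ Cn r (S \ {u, v, z}) := by
      by_contra h
      push Not at h
      exact hcon ⟨u, v, huv, h⟩
    obtain ⟨z, hz⟩ := h1
    have hz1 : z ∈ S ∧ z ≠ u ∧ z ≠ v := by
      by_contra h
      apply hz
      have : S \ {u, v, z} = S \ {u, v} := by
        ext y
        simp only [Set.mem_sdiff, Set.mem_insert_iff, Set.mem_singleton_iff]
        constructor
        · rintro ⟨h1, h2⟩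
          exact ⟨h1, fun h3 => h2 (by tauto)⟩
        · rintro ⟨h1, h2⟩
          refine ⟨h1, fun h3 => ?_⟩
          rcases h3 with h3 | h3 | h3
          · exact h2 (Or.inl h3)
          · exact h2 (Or.inr h3)
          · subst h3
            exact h ⟨h1, fun h4 => h2 (Or.inl h4), fun h4 => h2 (Or.inr h4)⟩
      rw [this]; exact h3 u v
    refine ⟨z, hz1.1, hz1.2.1, hz1.2.2, ?_⟩
    unfold Cn at hz
    push Not at hz
    exact hz
  clear hcon
  set Bad : V × V × V × Set V → Prop := fun d => r d.1 d.2.1 ∧ d.2.2.1 ∈ S ∧ d.2.2.1 ≠ d.1 ∧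
    d.2.2.1 ≠ d.2.1 ∧ d.2.2.2 ⊆ S \ {d.1, d.2.1, d.2.2.1} ∧ d.2.2.2.Nonempty ∧
    ((S \ {d.1, d.2.1, d.2.2.1}) \ d.2.2.2).Nonempty ∧
    ∀ p ∈ d.2.2.2, ∀ q ∈ (S \ {d.1, d.2.1, d.2.2.1}) \ d.2.2.2, ¬ r p q with hBad
  have hedge : ∃ u v, r u v := by
    have hne : S.Nonempty := Set.nonempty_of_ncard_ne_zero (by omega)
    obtain ⟨p, hp⟩ := hne
    have h1 : ∃ w ∈ S, w ≠ p := by
      by_contra h
      push Not at h
      have : S ⊆ {p} := fun z hz => h z hz
      have := Set.ncard_le_ncard this (Set.toFinite _)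
      rw [Set.ncard_singleton] at this
      omega
    obtain ⟨w, hw, hwp⟩ := h1
    have h2 : ∃ q ∈ S, q ≠ p ∧ q ≠ w := by
      by_contra h
      push Not at h
      have : S ⊆ {p, w} := fun z hz => by
        by_cases hz' : z = p
        · exact Or.inl hz'
        · exact Or.inr (h z hz hz')
      have := Set.ncard_le_ncard this (Set.toFinite _)
      have h3 := Set.ncard_insert_le p {w}
      rw [Set.ncard_singleton] at h3
      omega
    obtain ⟨q, hq, hqp, hqw⟩ := h2
    obtain ⟨a, _, b, _, hab⟩ := h3 w w {p} (by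
      rintro z rfl
      exact ⟨hp, by simp [Ne.symm hwp]⟩) ⟨p, rfl⟩ ⟨q, ⟨hq, by simp [hqw]⟩, hqp⟩
    exact ⟨a, b, hab⟩
  have hBe : ∃ d, Bad d := by
    obtain ⟨u, v, huv⟩ := hedge
    obtain ⟨z, hz, hzu, hzv, C, hC⟩ := hcon' u v huv
    exact ⟨(u, v, z, C), huv, hz, hzu, hzv, hC⟩
  obtain ⟨⟨u, v, z, C⟩, ⟨huv, hz, hzu, hzv, hCs, hCne, hDne, hnoe⟩, hmin⟩ :=
    exists_min Bad (fun d => d.2.2.2.ncard) hBe
  dsimp only at huv hz hzu hzv hCs hCne hDne hnoe hmin
  -- a neighbour of z in C
  obtain ⟨w, hw, q, hq, hwq⟩ := h3 u v C (fun y hy => ⟨(hCs hy).1, fun h => (hCs hy).2 (by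
      rcases h with h | h
      · exact Or.inl h
      · exact Or.inr (Or.inl h))⟩) hCne ⟨z, ⟨hz, by simp [hzu, hzv]⟩, fun h => (hCs h).2 (by simp)⟩
  have hqz : q = z := by
    by_contra h
    refine hnoe w hw q ⟨⟨hq.1.1, ?_⟩, hq.2⟩ hwq
    rintro (h' | h' | h')
    · exact hq.1.2 (Or.inl h')
    · exact hq.1.2 (Or.inr h')
    · exact h h'
  rw [hqz] at hwq
  clear hqz hq
  have hwS := (hCs hw).1
  obtain ⟨z', hz', hz'z, hz'w, C', hC's, hC'ne, hD'ne, hnoe'⟩ := hcon' z w (hr _ _ hwq)
  have claim : ∀ D' ⊆ S \ {z, w, z'}, D'.Nonempty → ((S \ {z, w, z'}) \ D').Nonempty →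
      (∀ p ∈ D', ∀ q ∈ (S \ {z, w, z'}) \ D', ¬ r p q) → u ∉ D' → v ∉ D' → False := by
    intro D' hD's hD'ne hE'ne hnoe' hu hv
    have hwD' : w ∉ D' := fun h => (hD's h).2 (by simp)
    obtain ⟨d', hd', q, hq, hdq⟩ := h3 z z' D' (fun y hy => ⟨(hD's hy).1, fun h => (hD's hy).2 (by
      rcases h with h | h
      · exact Or.inl h
      · exact Or.inr (Or.inr h))⟩) hD'ne
      ⟨w, ⟨hwS, by
        rintro (h | h)
        · subst h
          exact (hrS _ _ hwq).2.2 rfl
        · exact hz'w h.symm⟩, hwD'⟩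
    have hqw : q = w := by
      by_contra h
      refine hnoe' d' hd' q ⟨⟨hq.1.1, ?_⟩, hq.2⟩ hdq
      rintro (h' | h' | h')
      · exact hq.1.2 (Or.inl h')
      · exact h h'
      · exact hq.1.2 (Or.inr h')
    rw [hqw] at hdq
    have hinC : ∀ y ∈ D', y ∉ C → y ∈ (S \ {u, v, z}) \ C := by
      intro y hy hyC
      refine ⟨⟨(hD's hy).1, ?_⟩, hyC⟩
      rintro (h' | h' | h')
      · subst h'; exact hu hy
      · subst h'; exact hv hy
      · exact (hD's hy).2 (Or.inl h')
    have hd'C : d' ∈ C := by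
      by_contra h
      exact hnoe w hw d' (hinC d' hd' h) (hr _ _ hdq)
    have hbad : Bad (z, w, z', D' ∩ C) := by
      refine ⟨hr _ _ hwq, hz', hz'z, hz'w, fun y hy => hD's hy.1, ⟨d', hd', hd'C⟩, ?_, ?_⟩
      · obtain ⟨y, hy, hy'⟩ := hE'ne
        exact ⟨y, hy, fun h => hy' h.1⟩
      · dsimp only
        intro p hp q hq hpq
        by_cases hqD : q ∈ D'
        · exact hnoe p hp.2 q (hinC q hqD fun h => hq.2 ⟨hqD, h⟩) hpq
        · exact hnoe' p hp.1 q ⟨hq.1, hqD⟩ hpq
    have hlt : (D' ∩ C).ncard < C.ncard :=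
      Set.ncard_lt_ncard ⟨Set.inter_subset_right, fun h => hwD' (h hw).1⟩ (Set.toFinite _)
    have := hmin _ hbad
    dsimp only at this
    omega
  by_cases hcase : u ∈ C' ∨ v ∈ C'
  · refine claim ((S \ {z, w, z'}) \ C') Set.sdiff_subset hD'ne ?_ ?_ ?_ ?_
    · rw [Set.sdiff_sdiff_cancel_left hC's]; exact hC'ne
    · rw [Set.sdiff_sdiff_cancel_left hC's]
      intro p hp q hq hpq
      exact hnoe' q hq p hp (hr _ _ hpq)
    · intro h
      rcases hcase with h' | h'
      · exact h.2 h'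
      · exact hnoe' v h' u h (hr _ _ huv)
    · intro h
      rcases hcase with h' | h'
      · exact hnoe' u h' v h huv
      · exact h.2 h'
  · push Not at hcase
    exact claim C' hC's hC'ne hD'ne hnoe' hcase.1 hcase.2

namespace SG

variable {V : Type*}

def Conn3 (G : SG V) (S : Set V) : Prop := 4 ≤ S.ncard ∧ ∀ w w', Cn G.Adj (S \ {w, w'})

open Classical in
/-- contraction map -/
noncomputable def cphi (u v z : V) : V := if z = v then u else z

theorem cphi_v (u v : V) : cphi u v v = u := by simp [cphi]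
theorem cphi_ne {u v z : V} (h : z ≠ v) : cphi u v z = z := by simp [cphi, h]
theorem cphi_ne_v {u v : V} (huv : u ≠ v) (z : V) : cphi u v z ≠ v := by
  unfold cphi
  split_ifs with h
  · exact huv
  · exact h
theorem cphi_eq {u v p q : V} (hpq : p ≠ q) (h : cphi u v p = cphi u v q) :
    (p = u ∧ q = v) ∨ (p = v ∧ q = u) := by
  unfold cphi at h
  split_ifs at h with h1 h2 h2
  · exact absurd (h1.trans h2.symm) hpq
  · exact Or.inr ⟨h1, h.symm⟩
  · exact Or.inl ⟨h, h2⟩
  · exact absurd h hpq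

/-- contraction of `v` into `u` -/
noncomputable def contr (G : SG V) (u v : V) : SG V where
  E a b s := a ≠ b ∧ ∃ p q, cphi u v p = a ∧ cphi u v q = b ∧ G.E p q s
  symm := by
    rintro a b s ⟨h, p, q, h1, h2, h3⟩
    exact ⟨h.symm, q, p, h2, h1, G.symm h3⟩
  irr := fun h => h.1

theorem contr_supp {G : SG V} {S : Set V} (hS : G.Supp S) {u v : V} (hu : u ∈ S) (huv : u ≠ v) :
    (G.contr u v).Supp (S \ {v}) := by
  rintro a b s ⟨h, p, q, h1, h2, h3⟩
  rw [← h1]
  refine ⟨?_, fun h' => cphi_ne_v huv p h'⟩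
  by_cases hp : p = v
  · rw [hp, cphi_v]; exact hu
  · rw [cphi_ne hp]; exact hS _ _ _ h3

theorem oddK4_of_contr {G : SG V} {u v : V} (huv : G.E u v 0) (h : (G.contr u v).OddK4) :
    G.OddK4 := by
  have hne : u ≠ v := G.irr huv
  refine oddK4_of_quot G (G.contr u v) Set.univ (cphi u v) (fun _ => 0) ?_ ?_ h
  · intro w
    by_cases hw : w = u
    · have : {p | p ∈ Set.univ ∧ cphi u v p = w} = {u} ∪ {v} := by
        ext z
        simp only [Set.mem_univ, true_and, Set.mem_ofPred_eq, Set.mem_union, Set.mem_singleton_iff]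
        constructor
        · intro h
          by_cases hz : z = v
          · exact Or.inr hz
          · rw [cphi_ne hz] at h; exact Or.inl (h.trans hw)
        · rintro (h | h)
          · rw [h, cphi_ne hne]; exact hw.symm
          · rw [h, cphi_v]; exact hw.symm
      rw [this]
      refine Cn.union_edge ?_ (Cn_singleton _ _) (Cn_singleton _ _) rfl rfl ?_
      · intro a b hab
        exact G.symm hab
      · simpa using huv
    · by_cases hwv : w = v
      · have : {p | p ∈ Set.univ ∧ cphi u v p = w} = ∅ := by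
          ext z
          simp only [Set.mem_univ, true_and, Set.mem_ofPred_eq, Set.mem_empty_iff_false, iff_false]
          rw [hwv]; exact cphi_ne_v hne z
        rw [this]; exact Cn_empty _
      · have : {p | p ∈ Set.univ ∧ cphi u v p = w} = {w} := by
          ext z
          simp only [Set.mem_univ, true_and, Set.mem_ofPred_eq, Set.mem_singleton_iff]
          constructor
          · intro h
            by_cases hz : z = v
            · rw [hz, cphi_v] at h; exact absurd h.symm hw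
            · rw [cphi_ne hz] at h; exact h
          · rintro rfl
            exact cphi_ne hwv
        rw [this]; exact Cn_singleton _ _
  · rintro a b t ⟨_, p, q, h1, h2, h3⟩
    exact ⟨p, trivial, q, trivial, h1, h2, by simpa using h3⟩

/-- connectivity of a quotient -/
theorem Cn_contr {G : SG V} {u v : V} {T T' : Set V} (hT : Cn G.Adj T)
    (hTT : ∀ p ∈ T, cphi u v p ∈ T') (hTT' : ∀ a ∈ T', ∃ p ∈ T, cphi u v p = a) :
    Cn (G.contr u v).Adj T' := by
  intro B hB h1 h2
  obtain ⟨p, hp, q, hq, s, hs⟩ := hT {z | z ∈ T ∧ cphi u v z ∈ B} (fun z hz => hz.1)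
    (by
      obtain ⟨b, hb⟩ := h1
      obtain ⟨p, hp, hpb⟩ := hTT' b (hB hb)
      exact ⟨p, hp, by rw [hpb]; exact hb⟩)
    (by
      obtain ⟨b, hb, hbB⟩ := h2
      obtain ⟨p, hp, hpb⟩ := hTT' b hb
      exact ⟨p, hp, fun h => hbB (by rw [← hpb]; exact h.2)⟩)
  have hqB : cphi u v q ∉ B := fun h => hq.2 ⟨hq.1, h⟩
  refine ⟨cphi u v p, hp.2, cphi u v q, ⟨hTT q hq.1, hqB⟩, s, ?_, p, q, rfl, rfl, hs⟩
  intro h
  exact hqB (h ▸ hp.2)

theorem contr_conn3 [Finite V] {G : SG V} {S : Set V} {u v : V} (hu : u ∈ S) (hv : v ∈ S)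
    (huv : u ≠ v)
    (h3 : ∀ w w', Cn G.Adj (S \ {w, w'})) (hcard : 5 ≤ S.ncard)
    (hth : ∀ z, Cn G.Adj (S \ {u, v, z})) : (G.contr u v).Conn3 (S \ {v}) := by
  constructor
  · have := Set.ncard_sdiff_singleton_of_mem hv
    omega
  · -- main case
    have main : ∀ w w', w ≠ v → w' ≠ v → Cn (G.contr u v).Adj ((S \ {v}) \ {w, w'}) := by
      intro w w' hw hw'
      by_cases hwu : u = w ∨ u = w'
      · obtain ⟨z, hz, hzv⟩ : ∃ z, ({w, w'} : Set V) = {u, z} ∧ z ≠ v := by
          rcases hwu with h | h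
          · exact ⟨w', by rw [h], hw'⟩
          · exact ⟨w, by rw [h, Set.pair_comm], hw⟩
        rw [hz]
        refine Cn_contr (hth z) ?_ ?_
        · intro p hp
          have hpv : p ≠ v := fun h => hp.2 (by simp [h])
          rw [cphi_ne hpv]
          refine ⟨⟨hp.1, hpv⟩, ?_⟩
          rintro (h | h)
          · exact hp.2 (Or.inl h)
          · exact hp.2 (Or.inr (Or.inr h))
        · intro a ha
          have hav : a ≠ v := ha.1.2
          refine ⟨a, ⟨ha.1.1, ?_⟩, cphi_ne hav⟩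
          rintro (h | h | h)
          · exact ha.2 (Or.inl h)
          · exact hav h
          · exact ha.2 (Or.inr h)
      · push Not at hwu
        refine Cn_contr (h3 w w') ?_ ?_
        · intro p hp
          by_cases hpv : p = v
          · rw [hpv, cphi_v]
            refine ⟨⟨hu, huv⟩, ?_⟩
            rintro (h | h)
            · exact hwu.1 h
            · exact hwu.2 h
          · rw [cphi_ne hpv]
            exact ⟨⟨hp.1, hpv⟩, hp.2⟩
        · intro a ha
          exact ⟨a, ⟨ha.1.1, ha.2⟩, cphi_ne ha.1.2⟩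
    intro w w'
    by_cases hw : w = v
    · by_cases hw' : w' = v
      · -- both equal v
        have h1 : (S \ {v}) \ {w, w'} = S \ {v} := by
          rw [hw, hw']
          ext z; simp
        rw [h1]
        refine Cn_contr (T := S \ {v, v}) (h3 v v) ?_ ?_
        · intro p hp
          have hpv : p ≠ v := fun h => hp.2 (by simp [h])
          rw [cphi_ne hpv]
          exact ⟨hp.1, hpv⟩
        · intro a ha
          exact ⟨a, ⟨ha.1, by simpa using ha.2⟩, cphi_ne ha.2⟩
      · have h1 : (S \ {v}) \ {w, w'} = (S \ {v}) \ {w', w'} := by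
          rw [hw]
          ext z; simp only [Set.mem_sdiff, Set.mem_insert_iff, Set.mem_singleton_iff]; tauto
        rw [h1]; exact main w' w' hw' hw'
    · by_cases hw' : w' = v
      · have h1 : (S \ {v}) \ {w, w'} = (S \ {v}) \ {w, w} := by
          rw [hw']
          ext z; simp only [Set.mem_sdiff, Set.mem_insert_iff, Set.mem_singleton_iff]; tauto
        rw [h1]; exact main w w hw hw
      · exact main w w' hw hw'

/-- lifting a good labelling through a contraction -/
theorem lift_contr [Finite V] {G : SG V} {S : Set V} (hSupp : G.Supp S) {u v : V}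
    (huv : G.E u v 0) (huv1 : ¬ G.E u v 1) (hcn : Cn G.Adj (S \ {u, v})) (hno : ¬ G.OddK4)
    {x' : V → V → ZMod 2 → ℤ} (hx' : (G.contr u v).GoodX x') : ∃ x, G.GoodX x := by
  classical
  have hne : u ≠ v := G.irr huv
  set x : V → V → ZMod 2 → ℤ := fun p q s =>
    if cphi u v p = cphi u v q then 0 else x' (cphi u v p) (cphi u v q) s with hx
  have hxe : ∀ p q s, cphi u v p = cphi u v q → x p q s = 0 := fun p q s h => by simp [hx, h]
  have hxn : ∀ p q s, cphi u v p ≠ cphi u v q → x p q s = x' (cphi u v p) (cphi u v q) s :=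
    fun p q s h => by simp [hx, h]
  have hE : ∀ p q s, G.E p q s → cphi u v p ≠ cphi u v q →
      (G.contr u v).E (cphi u v p) (cphi u v q) s := fun p q s h hne => ⟨hne, p, q, rfl, rfl, h⟩
  have hanti : G.Anti x := by
    intro p q s hs
    by_cases h : cphi u v p = cphi u v q
    · rw [hxe p q s h, hxe q p s h.symm]; rfl
    · rw [hxn p q s h, hxn q p s (Ne.symm h)]
      exact hx'.anti _ _ _ (hE p q s hs h)
  have hpar : ∀ a b s, G.E a b s → ((x a b s : ℤ) : ZMod 2) = s := by
    intro p q s hs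
    by_cases h : cphi u v p = cphi u v q
    · rw [hxe p q s h]
      have hs0 : s = 0 := by
        rcases zmod2_cases s with h0 | h1
        · exact h0
        · exfalso
          rw [h1] at hs
          rcases cphi_eq (G.irr hs) h with ⟨rfl, rfl⟩ | ⟨rfl, rfl⟩
          · exact huv1 hs
          · exact huv1 (G.symm hs)
      rw [hs0]; rfl
    · rw [hxn p q s h]
      exact hx'.par _ _ _ (hE p q s hs h)
  refine ⟨x, hanti, hpar, ?_⟩
  refine lemmaC hSupp hanti hpar huv huv1 (hxe _ _ _ (by rw [cphi_v, cphi_ne hne])) hcn ?_ hno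
  intro π hπ A hA a ha b hb s hs
  have hπφ : ∀ z, π (cphi u v z) = π z := by
    intro z
    by_cases hz : z = v
    · rw [hz, cphi_v]; exact hπ
    · rw [cphi_ne hz]
  by_cases h : cphi u v a = cphi u v b
  · rw [hxe a b s h, ← hπφ a, ← hπφ b, h]
    simp
  · rw [hxn a b s h, ← hπφ a, ← hπφ b]
    refine hx'.good π (cphi u v '' A) ?_ _ ⟨a, ha, rfl⟩ _ ⟨b, hb, rfl⟩ s (hE a b s hs h)
    intro B hB h1 h2
    obtain ⟨p, hp, q, hq, t, ht, h0⟩ := hA {z | z ∈ A ∧ cphi u v z ∈ B} (fun z hz => hz.1)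
      (by
        obtain ⟨b, hb⟩ := h1
        obtain ⟨p, hp, hpb⟩ := hB hb
        exact ⟨p, hp, by rw [hpb]; exact hb⟩)
      (by
        obtain ⟨b, ⟨p, hp, hpb⟩, hbB⟩ := h2
        exact ⟨p, hp, fun h => hbB (by rw [← hpb]; exact h.2)⟩)
    have hqB : cphi u v q ∉ B := fun h => hq.2 ⟨hq.1, h⟩
    have hpq : cphi u v p ≠ cphi u v q := fun h => hqB (h ▸ hp.2)
    refine ⟨cphi u v p, hp.2, cphi u v q, ⟨⟨q, hq.1, rfl⟩, hqB⟩, t, hE p q t ht hpq, ?_⟩
    rw [hxn p q t hpq] at h0
    rw [hπφ, hπφ]; exact h0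

/-- deletion of one edge -/
def del (G : SG V) (u v : V) (t : ZMod 2) : SG V where
  E a b s := G.E a b s ∧ ¬ (s = t ∧ ((a = u ∧ b = v) ∨ (a = v ∧ b = u)))
  symm := by
    rintro a b s ⟨h, h'⟩
    exact ⟨G.symm h, by tauto⟩
  irr := fun h => G.irr h.1

/-- deletion of all the edges between `u` and `v` -/
def delp (G : SG V) (u v : V) : SG V where
  E a b s := G.E a b s ∧ ¬ ((a = u ∧ b = v) ∨ (a = v ∧ b = u))
  symm := by
    rintro a b s ⟨h, h'⟩
    exact ⟨G.symm h, by tauto⟩
  irr := fun h => G.irr h.1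

theorem Cn_delp [Finite V] {G : SG V} {u v : V} {T : Set V} (hcard : 3 ≤ T.ncard)
    (h : ∀ w, Cn G.Adj (T \ {w})) : Cn (G.delp u v).Adj T := by
  intro B hB h1 h2
  by_contra hcon
  push Not at hcon
  have hex : ∀ b ∈ B, ∀ r ∈ T \ B, ∃ z ∈ T, z ≠ b ∧ z ≠ r := by
    intro b hb r hr
    by_contra h
    push Not at h
    have : T ⊆ {b, r} := fun z hz => by
      by_cases hz' : z = b
      · exact Or.inl hz'
      · exact Or.inr (h z hz hz')
    have := Set.ncard_le_ncard this (Set.toFinite _)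
    have h3 := Set.ncard_insert_le b {r}
    rw [Set.ncard_singleton] at h3
    omega
  have huv : ∀ p ∈ B, ∀ q ∈ T \ B, G.Adj p q → (p = u ∧ q = v) ∨ (p = v ∧ q = u) := by
    rintro p hp q hq ⟨s, hs⟩
    by_contra h
    exact hcon p hp q hq ⟨s, hs, h⟩
  -- removing a vertex on the left
  have left : ∀ b ∈ B, ∀ z ∈ B, z ≠ b → ∃ p ∈ B, p ≠ b ∧ ∃ q ∈ T \ B, G.Adj p q := by
    intro b hb z hz hzb
    obtain ⟨y, hy⟩ := h2
    obtain ⟨p, hp, q, hq, hpq⟩ := h b (B \ {b}) (fun w hw => ⟨hB hw.1, hw.2⟩) ⟨z, hz, hzb⟩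
      ⟨y, ⟨hy.1, fun h => hy.2 (by
        have : y = b := h
        rw [this]; exact hb)⟩, fun h => hy.2 h.1⟩
    exact ⟨p, hp.1, hp.2, q, ⟨hq.1.1, fun h => hq.2 ⟨h, hq.1.2⟩⟩, hpq⟩
  have right : ∀ b ∈ T \ B, ∀ z ∈ T \ B, z ≠ b → ∃ p ∈ B, ∃ q ∈ T \ B, q ≠ b ∧ G.Adj p q := by
    intro b hb z hz hzb
    obtain ⟨p, hp, q, hq, hpq⟩ := h b B (fun w hw => ⟨hB hw, fun h => hb.2 (by
        have : w = b := h
        rw [← this]; exact hw)⟩) h1 ⟨z, ⟨hz.1, hzb⟩, hz.2⟩
    exact ⟨p, hp, q, ⟨hq.1.1, hq.2⟩, hq.1.2, hpq⟩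
  obtain ⟨b0, hb0⟩ := h1
  obtain ⟨r0, hr0⟩ := h2
  obtain ⟨z, hz, hzb, hzr⟩ := hex b0 hb0 r0 hr0
  -- some adjacent pair
  have hadj : ∃ b ∈ B, ∃ r ∈ T \ B, G.Adj b r := by
    by_cases hzB : z ∈ B
    · obtain ⟨p, hp, _, q, hq, hpq⟩ := left b0 hb0 z hzB hzb
      exact ⟨p, hp, q, hq, hpq⟩
    · obtain ⟨p, hp, q, hq, _, hpq⟩ := right r0 hr0 z ⟨hz, hzB⟩ hzr
      exact ⟨p, hp, q, hq, hpq⟩
  obtain ⟨b, hb, r, hr, hbr⟩ := hadj
  have h1 := huv b hb r hr hbr
  obtain ⟨z, hz, hzb, hzr⟩ := hex b hb r hr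
  by_cases hzB : z ∈ B
  · obtain ⟨p, hp, hpb, q, hq, hpq⟩ := left b hb z hzB hzb
    have h2 := huv p hp q hq hpq
    have : p = r := by
      rcases h1 with ⟨h3, h4⟩ | ⟨h3, h4⟩ <;> rcases h2 with ⟨h5, h6⟩ | ⟨h5, h6⟩
      · exact absurd (h5.trans h3.symm) hpb
      · exact h5.trans h4.symm
      · exact h5.trans h4.symm
      · exact absurd (h5.trans h3.symm) hpb
    rw [this] at hp
    exact hr.2 hp
  · obtain ⟨p, hp, q, hq, hqr, hpq⟩ := right r hr z ⟨hz, hzB⟩ hzr
    have h2 := huv p hp q hq hpq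
    have : q = b := by
      rcases h1 with ⟨h3, h4⟩ | ⟨h3, h4⟩ <;> rcases h2 with ⟨h5, h6⟩ | ⟨h5, h6⟩
      · exact absurd (h6.trans h4.symm) hqr
      · exact h6.trans h3.symm
      · exact h6.trans h3.symm
      · exact absurd (h6.trans h4.symm) hqr
    rw [this] at hq
    exact hq.2 hb

/-- the digon step -/
theorem digon_step [Finite V] {G : SG V} {S : Set V} (hSupp : G.Supp S) (h3 : G.Conn3 S)
    {u v : V} (h0 : G.E u v 0) (h1 : G.E u v 1)
    {x1 x2 : V → V → ZMod 2 → ℤ} (hx1 : (G.del u v 1).GoodX x1) (hx2 : (G.del u v 0).GoodX x2) :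
    ∃ x, G.GoodX x := by
  classical
  set G0 := G.delp u v with hG0
  have hne : u ≠ v := G.irr h0
  have hle1 : ∀ a b s, G0.E a b s → (G.del u v 1).E a b s := by
    rintro a b s ⟨h, h'⟩
    exact ⟨h, fun h'' => h' h''.2⟩
  have hle0 : ∀ a b s, G0.E a b s → (G.del u v 0).E a b s := by
    rintro a b s ⟨h, h'⟩
    exact ⟨h, fun h'' => h' h''.2⟩
  have hT : ∀ p ∈ S, Cn G0.Adj (S \ {p}) := by
    intro p hp
    refine Cn_delp ?_ ?_
    · have := Set.ncard_sdiff_singleton_of_mem hp
      have := h3.1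
      omega
    · intro w
      have : (S \ {p}) \ {w} = S \ {p, w} := by
        ext z; simp only [Set.mem_sdiff, Set.mem_singleton_iff, Set.mem_insert_iff]; tauto
      rw [this]; exact h3.2 p w
  have hTS : Cn G0.Adj S := by
    refine Cn_delp (by have := h3.1; omega) ?_
    intro w
    have : S \ {w} = S \ {w, w} := by simp
    rw [this]; exact h3.2 w w
  have ha1 : G0.Anti x1 := fun a b s h => hx1.anti a b s (hle1 a b s h)
  have ha2 : G0.Anti x2 := fun a b s h => hx2.anti a b s (hle0 a b s h)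
  obtain ⟨π1, π2, hπ, hcn⟩ := norm2 hTS ha1 ha2 (fun a b s h => by
    rw [hx1.par a b s (hle1 a b s h), hx2.par a b s (hle0 a b s h)])
  set y1 := sh x1 π1 with hy1
  have hy1a : (G.del u v 1).Anti y1 := hx1.anti.sh π1
  have hy1g : (G.del u v 1).Good y1 := hx1.good.sh π1
  have hy1p : ∀ a b s, (G.del u v 1).E a b s →
      ((y1 a b s : ℤ) : ZMod 2) = s + (π1 b : ZMod 2) - (π1 a : ZMod 2) := by
    intro a b s h
    simp only [hy1, sh]
    push_cast
    rw [hx1.par a b s h]
  have hZ0 : Cn (fun a b => ∃ s, G0.E a b s ∧ y1 a b s = 0) S := hcn.mono (by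
    rintro a b ⟨s, hs, h, _⟩
    exact ⟨s, hs, h⟩)
  obtain ⟨y2, hy2a, hy2g, hy2p, heq⟩ : ∃ y2 : V → V → ZMod 2 → ℤ, (G.del u v 0).Anti y2 ∧
      (G.del u v 0).Good y2 ∧ (∀ a b s, (G.del u v 0).E a b s →
        ((y2 a b s : ℤ) : ZMod 2) = s + (π1 b : ZMod 2) - (π1 a : ZMod 2)) ∧
      (∀ a b s, G0.E a b s → y2 a b s = y1 a b s) := by
    have hb2a : (G.del u v 0).Anti (sh x2 π2) := hx2.anti.sh π2
    have hb2g : (G.del u v 0).Good (sh x2 π2) := hx2.good.sh π2
    have hb2p : ∀ a b s, (G.del u v 0).E a b s →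
        ((sh x2 π2 a b s : ℤ) : ZMod 2) = s + (π1 b : ZMod 2) - (π1 a : ZMod 2) := by
      intro a b s h
      simp only [sh]
      push_cast
      rw [hx2.par a b s h, hπ a, hπ b]
    have hU := lemmaU (G := G0) (S := S) (fun a b s h => hSupp a b s h.1) hT
      (y1 := y1) (y2 := sh x2 π2)
      (fun a b s h => hy1a a b s (hle1 a b s h)) (fun a b s h => hb2a a b s (hle0 a b s h))
      (hy1g.mono hle1) (hb2g.mono hle0)
      (fun a b s h => by rw [hy1p a b s (hle1 a b s h), hb2p a b s (hle0 a b s h)]) hcn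
    rcases hU with hU | hU
    · exact ⟨sh x2 π2, hb2a, hb2g, hb2p, hU⟩
    · refine ⟨fun a b s => - sh x2 π2 a b s, hb2a.neg, hb2g.neg, ?_, ?_⟩
      · intro a b s h
        push_cast
        rw [hb2p a b s h]
        exact CharTwo.neg_eq _
      · intro a b s h
        show - sh x2 π2 a b s = y1 a b s
        rw [hU a b s h]; ring
  -- the two values
  have hc1 : (G.del u v 1).E u v 0 := ⟨h0, fun h => absurd h.1 (by decide)⟩
  have hf0 : (G.del u v 0).E u v 1 := ⟨h1, fun h => absurd h.1 (by decide)⟩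
  have huS : u ∈ S := hSupp _ _ _ h0
  have hvS : v ∈ S := hSupp.right h0
  set tc := y1 u v 0 with htc
  set tf := y2 u v 1 with htf
  have htc1 : |tc| ≤ 1 := hy1g.le (hZ0.mono (by
    rintro a b ⟨s, hs, h⟩
    exact ⟨s, hle1 _ _ _ hs, by simpa using h⟩)) huS hvS hc1
  have htf1 : |tf| ≤ 1 := hy2g.le (hZ0.mono (by
    rintro a b ⟨s, hs, h⟩
    exact ⟨s, hle0 _ _ _ hs, by rw [heq a b s hs]; simpa using h⟩)) huS hvS hf0
  have hpar : (tc + tf) % 2 = 1 := by
    have e1 := hy1p u v 0 hc1
    have e2 := hy2p u v 1 hf0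
    rw [← htc] at e1
    rw [← htf] at e2
    have e3 : ((tc + tf : ℤ) : ZMod 2) = ((1 : ℤ) : ZMod 2) := by
      push_cast
      rw [e1, e2]
      have k1 := CharTwo.add_self_eq_zero (π1 v : ZMod 2)
      have k2 := CharTwo.add_self_eq_zero (π1 u : ZMod 2)
      linear_combination k1 - k2
    rw [ZMod.intCast_eq_intCast_iff] at e3
    exact e3
  have hdiff : |tf - tc| ≤ 1 := by
    rw [abs_le] at *
    omega
  -- the combined labelling
  set isf : V → V → ZMod 2 → Prop := fun a b s => s = 1 ∧ ((a = u ∧ b = v) ∨ (a = v ∧ b = u))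
    with hisf
  set y : V → V → ZMod 2 → ℤ := fun a b s => if isf a b s then y2 a b s else y1 a b s with hy
  have hyf : ∀ a b s, isf a b s → y a b s = y2 a b s := fun a b s h => by simp only [hy, if_pos h]
  have hyn : ∀ a b s, ¬ isf a b s → y a b s = y1 a b s := fun a b s h => by
    simp only [hy, if_neg h]
  have hfsym : ∀ a b s, isf a b s → isf b a s := by
    rintro a b s ⟨h, h'⟩
    exact ⟨h, by tauto⟩
  have hdel1 : ∀ a b s, G.E a b s → ¬ isf a b s → (G.del u v 1).E a b s := fun a b s h h' => ⟨h, h'⟩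
  have hdel0 : ∀ a b s, G.E a b s → isf a b s → (G.del u v 0).E a b s := by
    rintro a b s h ⟨h', _⟩
    exact ⟨h, fun h'' => absurd (h'.symm.trans h''.1) (by decide)⟩
  have hyanti : G.Anti y := by
    intro a b s h
    by_cases hf : isf a b s
    · rw [hyf a b s hf, hyf b a s (hfsym a b s hf)]
      exact hy2a a b s (hdel0 a b s h hf)
    · rw [hyn a b s hf, hyn b a s (fun h => hf (hfsym b a s h))]
      exact hy1a a b s (hdel1 a b s h hf)
  have hyf' : ∀ π : V → ℤ, ∀ a b s, isf a b s → (y a b s + π b - π a = tf + π v - π u ∨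
      y a b s + π b - π a = -(tf + π v - π u)) := by
    intro π a b s hf
    rw [hyf a b s hf]
    obtain ⟨hs, ⟨ha, hb⟩ | ⟨ha, hb⟩⟩ := hf
    · subst hs ha hb
      left; rfl
    · subst hs ha hb
      right
      have := hy2a _ _ _ hf0
      rw [this]; ring
  -- edges which are c
  have hcase : ∀ a b s, G.E a b s → ¬ isf a b s → G0.E a b s ∨ (s = 0 ∧ ((a = u ∧ b = v) ∨ (a = v ∧ b = u))) := by
    intro a b s h hf
    by_cases h' : (a = u ∧ b = v) ∨ (a = v ∧ b = u)
    · right
      refine ⟨?_, h'⟩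
      rcases zmod2_cases s with hs | hs
      · exact hs
      · exact absurd ⟨hs, h'⟩ hf
    · exact Or.inl ⟨h, h'⟩
  have hyc' : ∀ π : V → ℤ, ∀ a b s, (s = 0 ∧ ((a = u ∧ b = v) ∨ (a = v ∧ b = u))) →
      (y a b s + π b - π a = tc + π v - π u ∨
      y a b s + π b - π a = -(tc + π v - π u)) := by
    rintro π a b s ⟨hs, hab⟩
    rw [hyn a b s (fun h => absurd (hs.symm.trans h.1) (by decide))]
    rcases hab with ⟨ha, hb⟩ | ⟨ha, hb⟩
    · subst hs ha hb
      left; rfl
    · subst hs ha hb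
      right
      have := hy1a _ _ _ hc1
      rw [this]; ring
  have hygood : G.Good y := by
    intro π A hA a ha b hb s hs
    have claim1 : tf + π v - π u ≠ 0 → Cn ((G.del u v 1).Zr y1 π) A := by
      intro hf
      refine hA.mono ?_
      rintro p q ⟨t, ht, h0⟩
      have hnf : ¬ isf p q t := by
        intro h
        rcases hyf' π p q t h with h' | h' <;> omega
      exact ⟨t, hdel1 p q t ht hnf, by rw [← hyn p q t hnf]; exact h0⟩
    have claim2 : tc + π v - π u ≠ 0 → Cn ((G.del u v 0).Zr y2 π) A := by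
      intro hf
      refine hA.mono ?_
      rintro p q ⟨t, ht, h0⟩
      by_cases hnf : isf p q t
      · exact ⟨t, hdel0 p q t ht hnf, by rw [← hyf p q t hnf]; exact h0⟩
      · rcases hcase p q t ht hnf with h | h
        · refine ⟨t, hle0 _ _ _ h, ?_⟩
          rw [heq _ _ _ h, ← hyn p q t hnf]; exact h0
        · rcases hyc' π p q t h with h' | h' <;> omega
    by_cases hf : isf a b s
    · by_cases hc : tc + π v - π u = 0
      · rw [abs_le] at hdiff ⊢
        rcases hyf' π a b s hf with h | h <;> omega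
      · rw [hyf a b s hf]
        exact hy2g π A (claim2 hc) a ha b hb s (hdel0 a b s hs hf)
    · by_cases hf' : tf + π v - π u = 0
      · rcases hcase a b s hs hf with h | h
        · rw [hyn a b s hf, ← heq a b s h]
          refine hy2g π A (claim2 ?_) a ha b hb s (hle0 _ _ _ h)
          omega
        · rw [abs_le] at hdiff ⊢
          rcases hyc' π a b s h with h | h <;> omega
      · rw [hyn a b s hf]
        exact hy1g π A (claim1 hf') a ha b hb s (hdel1 a b s hs hf)
  refine ⟨sh y (fun z => - π1 z), hyanti.sh _, ?_, hygood.sh _⟩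
  intro a b s hs
  simp only [sh]
  have : ((y a b s : ℤ) : ZMod 2) = s + (π1 b : ZMod 2) - (π1 a : ZMod 2) := by
    by_cases hf : isf a b s
    · rw [hyf a b s hf]; exact hy2p a b s (hdel0 a b s hs hf)
    · rw [hyn a b s hf]; exact hy1p a b s (hdel1 a b s hs hf)
  push_cast
  rw [this]; ring

/-- all edges even except at one vertex -/
theorem goodX_apex {G : SG V} {r : V}
    (h : ∀ a b s, G.E a b s → a ≠ r → b ≠ r → s = 0) : ∃ x, G.GoodX x := by
  classical
  set x : V → V → ZMod 2 → ℤ := fun a b s => if a = r then (s.val : ℤ) else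
    if b = r then -(s.val : ℤ) else 0 with hx
  have hxr : ∀ b s, x r b s = (s.val : ℤ) := fun b s => by simp [hx]
  have hxr' : ∀ a s, a ≠ r → x a r s = - (s.val : ℤ) := fun a s h => by simp [hx, h]
  have hxn : ∀ a b s, a ≠ r → b ≠ r → x a b s = 0 := fun a b s h h' => by simp [hx, h, h']
  have hval : ∀ s : ZMod 2, ((s.val : ℤ) : ZMod 2) = s := by decide
  have hval2 : ∀ s : ZMod 2, (s.val : ℤ) = 0 ∨ (s.val : ℤ) = 1 := by decide
  have hanti : G.Anti x := by
    intro a b s hs
    have hab := G.irr hs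
    by_cases ha : a = r
    · have hb : b ≠ r := fun hb => hab (ha.trans hb.symm)
      rw [ha, hxr, hxr' b s hb]
    · by_cases hb : b = r
      · rw [hb, hxr, hxr' a s ha]; ring
      · rw [hxn a b s ha hb, hxn b a s hb ha]; rfl
  refine ⟨x, hanti, ?_, ?_⟩
  · intro a b s hs
    have hab := G.irr hs
    by_cases ha : a = r
    · rw [ha, hxr, hval]
    · by_cases hb : b = r
      · rw [hb, hxr' a s ha]
        push_cast
        rw [CharTwo.neg_eq]
        exact_mod_cast hval s
      · rw [hxn a b s ha hb, h a b s hs ha hb]; rfl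
  · intro π A hA a ha b hb s hs
    by_cases hr : r ∈ A
    · have claim : ∀ z ∈ A, π z = π r ∨ π z = π r - 1 := by
        by_contra hcon
        push Not at hcon
        obtain ⟨z, hz, hz1, hz2⟩ := hcon
        obtain ⟨p, hp, q, hq, t, ht, h0⟩ := hA {z | z ∈ A ∧ (π z = π r ∨ π z = π r - 1)}
          (fun z hz => hz.1) ⟨r, hr, Or.inl rfl⟩ ⟨z, hz, fun h => by
            rcases h.2 with h | h
            · exact hz1 h
            · exact hz2 h⟩
        apply hq.2
        refine ⟨hq.1, ?_⟩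
        have hqr : q ≠ r := by
          rintro rfl
          exact hq.2 ⟨hq.1, Or.inl rfl⟩
        by_cases hpr : p = r
        · rw [hpr, hxr] at h0
          rcases hval2 t with h | h <;> omega
        · rw [hxn p q t hpr hqr] at h0
          rcases hp.2 with h | h <;> omega
      have c1 := claim a ha
      have c2 := claim b hb
      have hab := G.irr hs
      rw [abs_le]
      by_cases har : a = r
      · rw [har, hxr]
        rcases hval2 s with h | h <;> omega
      · by_cases hbr : b = r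
        · rw [hbr, hxr' a s har]
          rcases hval2 s with h | h <;> omega
        · rw [hxn a b s har hbr]
          omega
    · have claim : ∀ z ∈ A, π z = π a := by
        by_contra hcon
        push Not at hcon
        obtain ⟨z, hz, hz1⟩ := hcon
        obtain ⟨p, hp, q, hq, t, ht, h0⟩ := hA {z | z ∈ A ∧ π z = π a}
          (fun z hz => hz.1) ⟨a, ha, rfl⟩ ⟨z, hz, fun h => hz1 h.2⟩
        apply hq.2
        refine ⟨hq.1, ?_⟩
        have hqr : q ≠ r := by rintro rfl; exact hr hq.1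
        have hpr : p ≠ r := by rintro rfl; exact hr hp.1
        rw [hxn p q t hpr hqr] at h0
        have := hp.2
        omega
      have har : a ≠ r := by rintro rfl; exact hr ha
      have hbr : b ≠ r := by rintro rfl; exact hr hb
      rw [hxn a b s har hbr, claim b hb]
      simp

/-- the base case -/
theorem base_case [Finite V] {G : SG V} {S : Set V} (hSupp : G.Supp S) (hcard : S.ncard = 4)
    (h3 : ∀ w w', Cn G.Adj (S \ {w, w'})) (hdig : ∀ a b, ¬ (G.E a b 0 ∧ G.E a b 1))
    (hno : ¬ G.OddK4) : ∃ x, G.GoodX x := by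
  classical
  have hcard' : Nat.card S = 4 := hcard
  set e := Finite.equivFinOfCardEq hcard' with he
  set p : Fin 4 → V := fun i => ((e.symm i : S) : V) with hp
  have hpinj : Function.Injective p := by
    intro i j hij
    exact e.symm.injective (Subtype.ext hij)
  have hpS : ∀ i, p i ∈ S := fun i => (e.symm i).2
  have hpsurj : ∀ z ∈ S, ∃ i, p i = z := by
    intro z hz
    exact ⟨e ⟨z, hz⟩, by simp [hp]⟩
  have huniq : ∀ a b s t, G.E a b s → G.E a b t → s = t := by
    intro a b s t hs ht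
    rcases zmod2_cases s with h | h <;> rcases zmod2_cases t with h' | h'
    · rw [h, h']
    · exact absurd ⟨h ▸ hs, h' ▸ ht⟩ (hdig a b)
    · exact absurd ⟨h' ▸ ht, h ▸ hs⟩ (hdig a b)
    · rw [h, h']
  have hadj : ∀ i j, i ≠ j → ∃ s, G.E (p i) (p j) s := by
    intro i j hij
    obtain ⟨k, l, hkl, hki, hkj, hli, hlj⟩ : ∃ k l : Fin 4, (∀ m, m = i ∨ m = j ∨ m = k ∨ m = l) ∧
        i ≠ k ∧ j ≠ k ∧ i ≠ l ∧ j ≠ l := by
      revert i j; decide
    obtain ⟨a, ha, b, hb, hab⟩ := h3 (p k) (p l) {p i} (by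
      rintro z rfl
      refine ⟨hpS i, ?_⟩
      rintro (h | h)
      · exact hki (hpinj h)
      · exact hli (hpinj h)) ⟨p i, rfl⟩ ⟨p j, ⟨hpS j, by
        rintro (h | h)
        · exact hkj (hpinj h)
        · exact hlj (hpinj h)⟩, fun h => hij (hpinj h).symm⟩
    have ha' : a = p i := ha
    obtain ⟨m, hm⟩ := hpsurj b hb.1.1
    have hmj : m = j := by
      rcases hkl m with h | h | h | h
      · exfalso; apply hb.2; rw [← hm, h]; rfl
      · exact h
      · exfalso; apply hb.1.2; rw [← hm, h]; exact Or.inl rfl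
      · exfalso; apply hb.1.2; rw [← hm, h]; exact Or.inr rfl
    rw [ha', ← hm, hmj] at hab
    exact hab
  have hσ : ∃ σ : Fin 4 → Fin 4 → ZMod 2, ∀ i j, i ≠ j → G.E (p i) (p j) (σ i j) := by
    choose! σ hσ using hadj
    exact ⟨σ, hσ⟩
  obtain ⟨σ, hσ⟩ := hσ
  have hσs : ∀ i j, i ≠ j → σ i j = σ j i := fun i j hij =>
    huniq _ _ _ _ (hσ i j hij) (G.symm (hσ j i hij.symm))
  by_cases hneg : ∀ i j k, i ≠ j → j ≠ k → i ≠ k → σ i j + σ j k + σ i k = 1
  · exfalso
    apply hno
    set Y : Fin 4 → ZMod 2 := fun i => if i = 0 then 0 else σ 0 i + 1 with hY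
    have hX : ∀ i, Y (Function.invFun p (p i)) = Y i := fun i => by
      rw [Function.leftInverse_invFun hpinj i]
    refine ⟨fun z => Y (Function.invFun p z), fun i => {p i}, fun i => ⟨p i, rfl⟩, ?_, ?_, ?_⟩
    · rintro i j hij v rfl h
      exact hij (hpinj h)
    · intro i; exact Cn_singleton _ _
    · intro i j hij
      refine ⟨p i, rfl, p j, rfl, ?_⟩
      dsimp only
      rw [hX, hX]
      have h2 : (1 : ZMod 2) + 1 = 0 := by decide
      have key : Y i + Y j + 1 = σ i j := by
        by_cases hi : i = 0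
        · have hj : j ≠ 0 := fun h => hij (hi.trans h.symm)
          simp only [hY, hi, if_true, if_neg hj]
          linear_combination h2
        · by_cases hj : j = 0
          · simp only [hY, hj, if_true, if_neg hi]
            rw [hσs i 0 hi]
            linear_combination h2
          · simp only [hY, if_neg hi, if_neg hj]
            have := hneg 0 i j (Ne.symm hi) hij (Ne.symm hj)
            have h4 := CharTwo.add_self_eq_zero (σ i j)
            linear_combination this + 2 * h2 - h4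
      rw [key]; exact hσ i j hij
  · push Not at hneg
    obtain ⟨i, j, k, hij, hjk, hik, hpos⟩ := hneg
    have hpos' : σ i j + σ j k + σ i k = 0 := by
      rcases zmod2_cases (σ i j + σ j k + σ i k) with h | h
      · exact h
      · exact absurd h hpos
    obtain ⟨r, hr, hri, hrj, hrk⟩ : ∃ r : Fin 4, (∀ m, m = i ∨ m = j ∨ m = k ∨ m = r) ∧
        r ≠ i ∧ r ≠ j ∧ r ≠ k := by
      clear hpos hpos'
      revert i j k; decide
    set F : V → ZMod 2 := fun z => if z = p j then σ i j else if z = p k then σ i k else 0 with hF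
    have hFi : F (p i) = 0 := by
      simp only [hF, hpinj.eq_iff, if_neg hij, if_neg hik]
    have hFj : F (p j) = σ i j := by simp [hF]
    have hFk : F (p k) = σ i k := by
      simp only [hF, hpinj.eq_iff, if_neg (Ne.symm hjk), if_true]
    suffices hap : ∀ a b s, (G.sw F).E a b s → a ≠ p r → b ≠ p r → s = 0 by
      obtain ⟨x, hx⟩ := goodX_apex hap
      exact goodX_of_sw G F hx
    intro a b s hs har hbr
    have hs' : G.E a b (s + F a + F b) := hs
    obtain ⟨m, hm⟩ := hpsurj a (hSupp _ _ _ hs')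
    obtain ⟨n, hn⟩ := hpsurj b (hSupp.right hs')
    have hmr : m ≠ r := fun h => har (by rw [← hm, h])
    have hnr : n ≠ r := fun h => hbr (by rw [← hn, h])
    have hmn : m ≠ n := fun h => G.irr hs' (by rw [← hm, ← hn, h])
    rw [← hm, ← hn] at hs'
    have key := huniq _ _ _ _ hs' (hσ m n hmn)
    have k1 := CharTwo.add_self_eq_zero (σ i j)
    have k2 := CharTwo.add_self_eq_zero (σ i k)
    have k3 := CharTwo.add_self_eq_zero (σ j k)
    rcases hr m with h | h | h | h
    · rcases hr n with h' | h' | h' | h'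
      · exact absurd (h.trans h'.symm) hmn
      · subst h h'
        rw [hFi, hFj] at key
        linear_combination key
      · subst h h'
        rw [hFi, hFk] at key
        linear_combination key
      · exact absurd h' hnr
    · rcases hr n with h' | h' | h' | h'
      · subst h h'
        rw [hFi, hFj, hσs _ _ hmn] at key
        linear_combination key
      · exact absurd (h.trans h'.symm) hmn
      · subst h h'
        rw [hFj, hFk] at key
        linear_combination key - hpos' + k3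
      · exact absurd h' hnr
    · rcases hr n with h' | h' | h' | h'
      · subst h h'
        rw [hFi, hFk, hσs _ _ hmn] at key
        linear_combination key
      · subst h h'
        rw [hFj, hFk, hσs _ _ hmn] at key
        linear_combination key - hpos' + k3
      · exact absurd (h.trans h'.symm) hmn
      · exact absurd h' hnr
    · exact absurd h hmr

/-- Theorem 1 -/
theorem thm1 [Finite V] : ∀ (n : ℕ) (G : SG V) (S : Set V), S.ncard = n → G.Supp S → G.Conn3 S →
    ¬ G.OddK4 → ∃ x, G.GoodX x := by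
  classical
  intro n
  induction n using Nat.strong_induction_on with
  | _ n ihn =>
  have inner : ∀ (m : ℕ) (G : SG V) (S : Set V),
      ({e : V × V × ZMod 2 | G.E e.1 e.2.1 e.2.2}).ncard = m → S.ncard = n → G.Supp S →
      G.Conn3 S → ¬ G.OddK4 → ∃ x, G.GoodX x := by
    intro m
    induction m using Nat.strong_induction_on with
    | _ m ihm =>
    intro G S hm hn hSupp h3 hno
    by_cases hdig : ∃ u v, G.E u v 0 ∧ G.E u v 1
    · obtain ⟨u, v, h0, h1⟩ := hdig
      have hdel : ∀ t, G.E u v t → (∃ t', G.E u v t' ∧ t' ≠ t) → ∃ x, (G.del u v t).GoodX x := by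
        intro t ht ⟨t', ht', htt⟩
        refine ihm _ ?_ (G.del u v t) S rfl hn (fun a b s h => hSupp a b s h.1) ⟨h3.1, ?_⟩
          (fun h => hno (oddK4_mono (H := G.del u v t) (fun a b s h => h.1) h))
        · rw [← hm]
          refine Set.ncard_lt_ncard ⟨fun e he => he.1, fun h => ?_⟩ (Set.toFinite _)
          exact (h (show (u, v, t) ∈ {e : V × V × ZMod 2 | G.E e.1 e.2.1 e.2.2} from ht)).2
            ⟨rfl, Or.inl ⟨rfl, rfl⟩⟩
        · intro w w'
          refine (h3.2 w w').mono ?_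
          rintro p q ⟨s, hs⟩
          by_cases hpq : (p = u ∧ q = v) ∨ (p = v ∧ q = u)
          · refine ⟨t', ?_, fun h => htt h.1⟩
            rcases hpq with ⟨rfl, rfl⟩ | ⟨rfl, rfl⟩
            · exact ht'
            · exact G.symm ht'
          · exact ⟨s, hs, fun h => hpq h.2⟩
      obtain ⟨x1, hx1⟩ := hdel 1 h1 ⟨0, h0, by decide⟩
      obtain ⟨x2, hx2⟩ := hdel 0 h0 ⟨1, h1, by decide⟩
      exact digon_step hSupp h3 h0 h1 hx1 hx2
    · have hdig' : ∀ a b, ¬ (G.E a b 0 ∧ G.E a b 1) := fun a b h => hdig ⟨a, b, h⟩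
      by_cases h4 : S.ncard = 4
      · exact base_case hSupp h4 h3.2 hdig' hno
      · have h5 : 5 ≤ S.ncard := by have := h3.1; omega
        obtain ⟨u, v, ⟨σ, huv⟩, hth⟩ := thomassen G.adj_symm (S := S) (by
          rintro a b ⟨s, hs⟩
          exact ⟨hSupp _ _ _ hs, hSupp.right hs, G.irr hs⟩) h3.2 h3.1
        have hne : u ≠ v := G.irr huv
        set F : V → ZMod 2 := fun z => if z = v then σ else 0 with hF
        have hFu : F u = 0 := by simp [hF, hne]
        have hFv : F v = σ := by simp [hF]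
        set H := G.sw F with hH
        have hadj : ∀ T : Set V, Cn G.Adj T → Cn H.Adj T := fun T hT =>
          hT.mono fun p q h => (sw_adj G F p q).mpr h
        have hHs : H.Supp S := fun a b s h => hSupp a b _ h
        have hHno : ¬ H.OddK4 := fun h => hno (oddK4_of_sw G F h)
        have huv0 : H.E u v 0 := by
          show G.E u v (0 + F u + F v)
          rw [hFu, hFv]; simpa using huv
        have huv1 : ¬ H.E u v 1 := by
          intro h
          have h' : G.E u v (1 + F u + F v) := h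
          rw [hFu, hFv] at h'
          apply hdig' u v
          rcases zmod2_cases σ with hσ | hσ
          · rw [hσ] at h' huv
            exact ⟨huv, by simpa using h'⟩
          · rw [hσ] at h' huv
            exact ⟨by
              have e : (1 : ZMod 2) + 0 + 1 = 0 := by decide
              rw [e] at h'; exact h', huv⟩
        have hc3 : (H.contr u v).Conn3 (S \ {v}) :=
          contr_conn3 (hHs _ _ _ huv0) (hHs.right huv0) hne (fun w w' => hadj _ (h3.2 w w')) h5
            (fun z => hadj _ (hth z))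
        obtain ⟨x', hx'⟩ := ihn (S \ {v}).ncard (by
            have := Set.ncard_sdiff_singleton_of_mem (hHs.right huv0)
            omega) (H.contr u v) (S \ {v}) rfl
          (contr_supp hHs (hHs _ _ _ huv0) hne) hc3 (fun h => hHno (oddK4_of_contr huv0 h))
        obtain ⟨x, hx⟩ := lift_contr hHs huv0 huv1 (hadj _ (h3.2 u v)) hHno hx'
        exact goodX_of_sw G F hx
  intro G S hn
  exact inner _ G S rfl hn

end SG

end Pool.Agent.H55.K4
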